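import Pool.Agent.Lib.MP_0e31aa_co.TC.Defs
import Pool.Agent.Lib.MP_0e31aa_co.TreeEmb

/-! The two classes of a tree. -/

set_option autoImplicit false

namespace Pool.Agent.Lib.MP_0e31aa_co.TC

open Finset

theorem tree_bip {W : Type} [Fintype W] [DecidableEq W] (T : SimpleGraph W) (hT : T.IsTree) :
    ∃ P : Finset W, Bip T P ∧ 2 * P.card ≤ Fintype.card W := by
  obtain ⟨P, h1, h2⟩ := exists_class hT
  exact ⟨P, h1, h2⟩

theorem card_nb_univ {W : Type} [Fintype W] (T : SimpleGraph W) (v : W) [Fintype (T.neighborSet v)] :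
    (nb T v univ).card = T.degree v := by
  classical
  rw [← SimpleGraph.card_neighborFinset_eq_degree]
  congr 1
  ext u
  rw [mem_nb, SimpleGraph.mem_neighborFinset]
  simp

theorem bip_nonempty {W : Type} [Fintype W] [DecidableEq W] (T : SimpleGraph W) (hT : T.IsTree)
    (P : Finset W) (hP : Bip T P) (hn : 2 ≤ Fintype.card W) : P.Nonempty := by
  have hnt : Nontrivial W := Fintype.one_lt_card_iff_nontrivial.1 (by omega)
  obtain ⟨v⟩ := hT.connected.nonempty
  obtain ⟨u, hu⟩ := hT.connected.preconnected.exists_adj_of_nontrivial v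
  by_cases hv : v ∈ P
  · exact ⟨v, hv⟩
  · refine ⟨u, ?_⟩
    by_contra hcon
    exact hv ((hP v u hu).2 hcon)

/-- at most `|P| - 1` vertices of the other class are not leaves. -/
theorem nonleaves {W : Type} [Fintype W] [DecidableEq W] (T : SimpleGraph W) (hT : T.IsTree)
    (P : Finset W) (hP : Bip T P) (hn : P.Nonempty) :
    (univ.filter fun v => v ∉ P ∧ 2 ≤ (nb T v univ).card).card + 1 ≤ P.card := by
  classical
  have hQ : ∀ u v, T.Adj u v → (u ∈ Pᶜ ↔ v ∉ Pᶜ) := by
    intro u v huv
    have := hP u v huv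
    rw [mem_compl, mem_compl, not_not]
    tauto
  have hs := sum_degree_class hT hQ
  have hcard : P.card + Pᶜ.card = Fintype.card W := card_add_card_compl P
  by_cases h1 : Fintype.card W ≤ 1
  · have hP1 := card_pos.2 hn
    have h0 : (univ.filter fun v => v ∉ P ∧ 2 ≤ (nb T v univ).card) ⊆ Pᶜ := by
      intro v hv
      rw [mem_filter] at hv
      rw [mem_compl]; exact hv.2.1
    have := card_le_card h0
    omega
  · have hnt : Nontrivial W := Fintype.one_lt_card_iff_nontrivial.1 (by omega)
    have hpos : ∀ v, 1 ≤ T.degree v := fun v =>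
      hT.connected.preconnected.degree_pos_of_nontrivial v
    have h3 : ∀ v ∈ Pᶜ, 1 + (if 2 ≤ T.degree v then 1 else 0) ≤ T.degree v := by
      intro v _
      have := hpos v
      split_ifs with h <;> omega
    have h4 := sum_le_sum h3
    rw [sum_add_distrib, sum_const, smul_eq_mul, ← card_filter] at h4
    have h5 : (univ.filter fun v => v ∉ P ∧ 2 ≤ (nb T v univ).card) =
        Pᶜ.filter (fun v => 2 ≤ T.degree v) := by
      ext v
      rw [mem_filter, mem_filter, mem_compl, card_nb_univ]
      simp
    rw [h5]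
    omega

/-- few vertices of `P` have degree at least four. -/
theorem deg_four {W : Type} [Fintype W] [DecidableEq W] (T : SimpleGraph W) (hT : T.IsTree)
    (P : Finset W) (hP : Bip T P) :
    4 * (P.filter fun v => 4 ≤ (nb T v univ).card).card ≤ Fintype.card W := by
  classical
  have hs := sum_degree_class hT hP
  have h3 : ∀ v ∈ P, 4 * (if 4 ≤ T.degree v then 1 else 0) ≤ T.degree v := by
    intro v _
    split_ifs with h <;> omega
  have h4 := sum_le_sum h3
  rw [← mul_sum, ← card_filter] at h4
  have h5 : (P.filter fun v => 4 ≤ (nb T v univ).card) = P.filter (fun v => 4 ≤ T.degree v) := by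
    ext v
    rw [mem_filter, mem_filter, card_nb_univ]
  rw [h5]
  omega

end Pool.Agent.Lib.MP_0e31aa_co.TC
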