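import Pool.Agent.Lib.MP_0e31aa_co.TC.Defs

/-! Module LB: the translation to `IsContained` and the (known) lower bounds. -/

set_option autoImplicit false

namespace Pool.Agent.Lib.MP_0e31aa_co.TC

open Finset

theorem hasCyc_iff {V : Type} (B : SimpleGraph V) (m : ℕ) (hm : 0 < m) :
    HasCyc B m ↔ ∃ g : Fin m → V, Function.Injective g ∧
      (∀ (i : ℕ) (hi : i + 1 < m), B.Adj (g ⟨i, by omega⟩) (g ⟨i + 1, hi⟩)) ∧
      B.Adj (g ⟨m - 1, by omega⟩) (g ⟨0, hm⟩) := by
  constructor
  · rintro ⟨l, hl, hc, hn, h0, hadj⟩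
    subst hl
    refine ⟨fun i => l[i.val], ?_, ?_, ?_⟩
    · intro i j hij
      have := (List.Nodup.getElem_inj_iff hn).1 hij
      exact Fin.ext this
    · intro i hi
      exact (List.isChain_iff_getElem.1 hc) i hi
    · have h1 := List.getLast_eq_getElem h0
      have h2 := List.head_eq_getElem h0
      rw [h1, h2] at hadj
      exact hadj
  · rintro ⟨g, hg, hc, hadj⟩
    have hne : List.ofFn g ≠ [] := by
      intro h
      have := congrArg List.length h
      rw [List.length_ofFn] at this
      simp at this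
      omega
    refine ⟨List.ofFn g, List.length_ofFn, ?_, ?_, hne, ?_⟩
    · rw [List.isChain_ofFn]
      intro i hi
      exact hc i hi
    · exact List.nodup_ofFn.2 hg
    · have h1 := List.getLast_eq_getElem hne
      have h2 := List.head_eq_getElem hne
      rw [h1, h2]
      simp only [List.getElem_ofFn, List.length_ofFn]
      exact hadj

theorem cyc_contained {V : Type} (B : SimpleGraph V) (m : ℕ) (hm : 3 ≤ m) :
    HasCyc B m ↔ (SimpleGraph.cycleGraph m).IsContained B := by
  rw [hasCyc_iff B m (by omega)]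
  constructor
  · rintro ⟨g, hg, hc, hadj⟩
    have key : ∀ u v : Fin m, (u - v).val = 1 → B.Adj (g v) (g u) := by
      intro u v huv
      rw [Fin.val_sub] at huv
      have hu := u.2
      have hv := v.2
      by_cases hlt : m - v.val + u.val < m
      · rw [Nat.mod_eq_of_lt hlt] at huv
        have e1 : v = ⟨m - 1, by omega⟩ := Fin.ext (by simp; omega)
        have e2 : u = ⟨0, by omega⟩ := Fin.ext (by simp; omega)
        rw [e1, e2]
        exact hadj
      · have h2 : m - v.val + u.val - m < m := by omega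
        rw [Nat.mod_eq_sub_mod (by omega), Nat.mod_eq_of_lt h2] at huv
        have e2 : u = ⟨v.val + 1, by omega⟩ := Fin.ext (by simp; omega)
        have := hc v.val (by omega)
        rw [e2]
        exact this
    refine ⟨⟨⟨g, ?_⟩, hg⟩⟩
    intro u v huv
    rw [SimpleGraph.cycleGraph_adj'] at huv
    rcases huv with h | h
    · exact (key u v h).symm
    · exact key v u h
  · rintro ⟨c⟩
    refine ⟨c, c.injective, ?_, ?_⟩
    · intro i hi
      refine c.toHom.map_adj ?_
      rw [SimpleGraph.cycleGraph_adj']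
      right
      rw [Fin.val_sub]
      simp only
      have : m - i + (i + 1) = m + 1 := by omega
      rw [this, Nat.add_mod_left, Nat.mod_eq_of_lt (by omega)]
    · refine c.toHom.map_adj ?_
      rw [SimpleGraph.cycleGraph_adj']
      right
      rw [Fin.val_sub]
      simp only
      have : m - (m - 1) + 0 = 1 := by omega
      rw [this, Nat.mod_eq_of_lt (by omega)]

theorem emb_contained {V W : Type} (T : SimpleGraph W) (R : SimpleGraph V) :
    Emb T R ↔ T.IsContained R := by
  constructor
  · rintro ⟨f, hf, h⟩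
    exact ⟨⟨⟨f, fun {a b} hab => h a b hab⟩, hf⟩⟩
  · rintro ⟨c⟩
    exact ⟨c, c.injective, fun u v h => c.toHom.map_adj h⟩

/-- the graph of the pairs separated by `p`. -/
def sepGraph {V : Type} (p : V → Prop) : SimpleGraph V where
  Adj u v := ¬ (p u ↔ p v)
  symm := ⟨fun u v h h' => h h'.symm⟩
  loopless := ⟨fun u h => h Iff.rfl⟩

theorem sepGraph_no_odd {V : Type} (p : V → Prop) (m : ℕ) (hm : Odd m) :
    ¬ HasCyc (sepGraph p) m := by
  rw [hasCyc_iff _ _ hm.pos]
  rintro ⟨g, -, hc, hadj⟩
  have key : ∀ (i : ℕ) (hi : i < m), (p (g ⟨i, hi⟩) ↔ (p (g ⟨0, hm.pos⟩) ↔ Even i)) := by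
    intro i
    induction i with
    | zero => intro hi; simp
    | succ i ih =>
      intro hi
      have h1 := ih (by omega)
      have h2 : ¬ (p (g ⟨i, by omega⟩) ↔ p (g ⟨i + 1, hi⟩)) := hc i hi
      rw [Nat.even_add_one]
      tauto
  have h1 := key (m - 1) (by have := hm.pos; omega)
  have h2 : Even (m - 1) := by
    obtain ⟨k, hk⟩ := hm
    exact ⟨k, by omega⟩
  have h3 : ¬ (p (g ⟨m - 1, by have := hm.pos; omega⟩) ↔ p (g ⟨0, hm.pos⟩)) := hadj
  tauto

theorem adj_sepCompl {V : Type} {p : V → Prop} {u v : V} (h : (sepGraph p)ᶜ.Adj u v) :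
    (p u ↔ p v) := by
  rw [SimpleGraph.compl_adj] at h
  by_contra h'
  exact h.2 h'

theorem lower (m n N : ℕ) (hm : Odd m) (hm3 : 3 ≤ m) (hn : 1 ≤ n) (hN : N < 2 * n - 1)
    (T : SimpleGraph (Fin n)) (hT : T.IsTree) :
    ∃ B : SimpleGraph (Fin N), ¬ HasCyc B m ∧ ¬ Emb T Bᶜ := by
  classical
  refine ⟨sepGraph (fun i : Fin N => i.val < n - 1), sepGraph_no_odd _ m hm, ?_⟩
  rintro ⟨f, hf, hadj⟩
  have hconst : ∀ u v : Fin n, ((f u).val < n - 1 ↔ (f v).val < n - 1) := by
    intro u v
    obtain ⟨w⟩ := hT.connected.preconnected u v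
    induction w with
    | nil => exact Iff.rfl
    | cons h w ih => exact (adj_sepCompl (hadj _ _ h)).trans ih
  by_cases h0 : (f ⟨0, hn⟩).val < n - 1
  · have hall : ∀ u : Fin n, (f u).val < n - 1 := fun u => (hconst ⟨0, hn⟩ u).1 h0
    have hc := Finset.card_le_card_of_injOn (s := (univ : Finset (Fin n)))
      (t := Finset.range (n - 1)) (fun u => (f u).val)
      (fun u _ => by simpa using hall u)
      (fun u _ v _ huv => hf (Fin.ext huv))
    rw [Finset.card_univ, Fintype.card_fin, Finset.card_range] at hc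
    omega
  · have hall : ∀ u : Fin n, n - 1 ≤ (f u).val := fun u => by
      have := (hconst ⟨0, hn⟩ u).not.1 h0
      omega
    have hc := Finset.card_le_card_of_injOn (s := (univ : Finset (Fin n)))
      (t := Finset.range (n - 1)) (fun u => (f u).val - (n - 1))
      (fun u _ => by
        have h1 := hall u
        have h2 := (f u).2
        simp only [Finset.coe_range, Set.mem_Iio]
        omega)
      (fun u _ v _ huv => hf (Fin.ext (by
        have h1 := hall u
        have h2 := hall v
        simp only at huv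
        omega)))
    rw [Finset.card_univ, Fintype.card_fin, Finset.card_range] at hc
    omega

/-- the path `P_n` for `3 n < 2 m - 1`. -/
theorem lower_path (m n : ℕ) (hm : Odd m) (hm3 : 5 ≤ m) (hn : 2 ≤ n) (hmn : 3 * n + 1 < 2 * m) :
    ∃ B : SimpleGraph (Fin (2 * n - 1)), ¬ HasCyc B m ∧ ¬ Emb (SimpleGraph.pathGraph n) Bᶜ := by
  classical
  refine ⟨(sepGraph (fun i : Fin (2 * n - 1) => i.val < n / 2 - 1))ᶜ, ?_, ?_⟩
  · rw [hasCyc_iff _ _ (by omega)]
    rintro ⟨g, hg, hc, -⟩
    have key : ∀ (i : ℕ) (hi : i < m),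
        ((g ⟨i, hi⟩).val < n / 2 - 1 ↔ (g ⟨0, by omega⟩).val < n / 2 - 1) := by
      intro i
      induction i with
      | zero => intro hi; exact Iff.rfl
      | succ i ih =>
        intro hi
        exact (adj_sepCompl (hc i hi)).symm.trans (ih (by omega))
    by_cases h0 : (g ⟨0, by omega⟩).val < n / 2 - 1
    · have hcard := Finset.card_le_card_of_injOn (s := (univ : Finset (Fin m)))
        (t := Finset.range (n / 2 - 1)) (fun u => (g u).val)
        (fun u _ => by simpa using (key u.val u.2).2 h0)
        (fun u _ v _ huv => hg (Fin.ext huv))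
      rw [Finset.card_univ, Fintype.card_fin, Finset.card_range] at hcard
      omega
    · have hcard := Finset.card_le_card_of_injOn (s := (univ : Finset (Fin m)))
        (t := Finset.range (2 * n - n / 2)) (fun u => (g u).val - (n / 2 - 1))
        (fun u _ => by
          have h1 := (key u.val u.2).not.2 h0
          have h2 := (g u).2
          simp only [Finset.coe_range, Set.mem_Iio]
          omega)
        (fun u _ v _ huv => hg (Fin.ext (by
          have h1 : ¬ (g u).val < n / 2 - 1 := (key u.val u.2).not.2 h0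
          have h2 : ¬ (g v).val < n / 2 - 1 := (key v.val v.2).not.2 h0
          simp only at huv
          omega)))
      rw [Finset.card_univ, Fintype.card_fin, Finset.card_range] at hcard
      omega
  · rw [compl_compl]
    rintro ⟨f, hf, hadj⟩
    -- one of `f (2 j)`, `f (2 j + 1)` lies in the small part
    have hone : ∀ j : ℕ, ∀ hj : j < n / 2,
        ∃ i : Fin n, (i.val = 2 * j ∨ i.val = 2 * j + 1) ∧ (f i).val < n / 2 - 1 := by
      intro j hj
      have hj1 : 2 * j + 1 < n := by omega
      have h := hadj ⟨2 * j, by omega⟩ ⟨2 * j + 1, hj1⟩ (by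
        rw [SimpleGraph.pathGraph_adj]; left; rfl)
      change ¬ ((f ⟨2 * j, _⟩).val < n / 2 - 1 ↔ (f ⟨2 * j + 1, hj1⟩).val < n / 2 - 1) at h
      by_cases h1 : (f ⟨2 * j, by omega⟩).val < n / 2 - 1
      · exact ⟨⟨2 * j, by omega⟩, Or.inl rfl, h1⟩
      · refine ⟨⟨2 * j + 1, hj1⟩, Or.inr rfl, ?_⟩
        by_contra h2
        exact h ⟨fun h3 => absurd h3 h1, fun h3 => absurd h3 h2⟩
    haveI : Nonempty (Fin n) := ⟨⟨0, by omega⟩⟩
    choose! i hi using hone
    have hcard := Finset.card_le_card_of_injOn (s := Finset.range (n / 2))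
      (t := Finset.range (n / 2 - 1)) (fun j => (f (i j)).val)
      (fun j hj => by
        simp only [Finset.coe_range, Set.mem_Iio] at hj ⊢
        exact (hi j hj).2)
      (fun j hj j' hj' hjj => by
        simp only [Finset.coe_range, Set.mem_Iio] at hj hj'
        have h1 := hf (Fin.ext hjj)
        have h2 := (hi j hj).1
        have h3 := (hi j' hj').1
        rw [h1] at h2
        omega)
    rw [Finset.card_range, Finset.card_range] at hcard
    omega

end Pool.Agent.Lib.MP_0e31aa_co.TC
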