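import Pool.Agent.Lib.MP_0e31aa_co.TC.Greedy

/-! The two bipartite embeddings (module BE). -/

set_option autoImplicit false

namespace Pool.Agent.Lib.MP_0e31aa_co.TC

open Finset

theorem emb_complete {V W : Type} [Fintype W] [DecidableEq W] [DecidableEq V] (B : SimpleGraph V)
    (T : SimpleGraph W) (P : Finset W) (hP : Bip T P) (A S : Finset V) (hAS : Disjoint A S)
    (h1 : P.card ≤ A.card) (h2 : Fintype.card W ≤ P.card + S.card)
    (h : ∀ a ∈ A, ∀ s ∈ S, ¬ B.Adj a s) : Emb T Bᶜ := by
  classical
  obtain ⟨e1⟩ : Nonempty ({x // x ∈ P} ↪ {x // x ∈ A}) :=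
    Function.Embedding.nonempty_of_card_le (by simpa using h1)
  obtain ⟨e2⟩ : Nonempty ({x // x ∉ P} ↪ {x // x ∈ S}) :=
    Function.Embedding.nonempty_of_card_le (by
      rw [Fintype.card_subtype_compl]
      simp only [Fintype.card_coe]
      omega)
  set f : W → V := fun w => if h : w ∈ P then (e1 ⟨w, h⟩).1 else (e2 ⟨w, h⟩).1 with hf
  have hfP : ∀ w (h : w ∈ P), f w = (e1 ⟨w, h⟩).1 := fun w h => by simp [hf, h]
  have hfQ : ∀ w (h : w ∉ P), f w = (e2 ⟨w, h⟩).1 := fun w h => by simp [hf, h]
  have hPA : ∀ w, w ∈ P → f w ∈ A := fun w h => by rw [hfP w h]; exact (e1 ⟨w, h⟩).2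
  have hQS : ∀ w, w ∉ P → f w ∈ S := fun w h => by rw [hfQ w h]; exact (e2 ⟨w, h⟩).2
  refine ⟨f, ?_, ?_⟩
  · intro u v huv
    by_cases hu : u ∈ P <;> by_cases hv : v ∈ P
    · rw [hfP u hu, hfP v hv] at huv
      have := e1.injective (Subtype.ext huv)
      simpa using this
    · exact absurd (hPA u hu) (fun h => Finset.disjoint_left.1 hAS h (huv ▸ hQS v hv))
    · exact absurd (hPA v hv) (fun h => Finset.disjoint_left.1 hAS h (huv ▸ hQS u hu))
    · rw [hfQ u hu, hfQ v hv] at huv
      have := e2.injective (Subtype.ext huv)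
      simpa using this
  · intro u v huv
    rw [SimpleGraph.compl_adj]
    by_cases hu : u ∈ P
    · have hv : v ∉ P := (hP u v huv).1 hu
      exact ⟨fun he => Finset.disjoint_left.1 hAS (hPA u hu) (he ▸ hQS v hv),
        h _ (hPA u hu) _ (hQS v hv)⟩
    · have hv : v ∈ P := by
        by_contra hv
        exact hu ((hP u v huv).2 hv)
      exact ⟨fun he => Finset.disjoint_left.1 hAS (hPA v hv) (he ▸ hQS u hu),
        fun hadj => h _ (hPA v hv) _ (hQS u hu) hadj.symm⟩

theorem emb_nearly {V W : Type} [Fintype W] [DecidableEq W] [DecidableEq V] (B : SimpleGraph V)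
    (T : SimpleGraph W) (hT : T.IsTree) (P : Finset W) (hP : Bip T P) (A S : Finset V)
    (hAS : Disjoint A S) (t : ℕ) (h1 : P.card + t ≤ A.card)
    (h2 : Fintype.card W + t ≤ P.card + S.card) (hA : ∀ a ∈ A, (nb B a S).card ≤ t)
    (hS : ∀ s ∈ S, (nb B s A).card ≤ t) : Emb T Bᶜ := by
  classical
  obtain ⟨r⟩ := hT.1.nonempty
  have hcardP : (univ.filter fun w => w ∈ P).card = P.card := by simp
  have hcardQ : (univ.filter fun w => w ∉ P).card + P.card = Fintype.card W := by
    have := Finset.card_filter_add_card_filter_not (s := (univ : Finset W)) (fun w => w ∈ P)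
    rw [Finset.card_univ] at this
    omega
  have hne : ∀ w, (if w ∈ P then A else S).Nonempty := by
    intro w
    by_cases hw : w ∈ P
    · rw [if_pos hw, ← Finset.card_pos]
      have := Finset.card_pos.2 ⟨w, hw⟩
      omega
    · rw [if_neg hw, ← Finset.card_pos]
      have : 0 < (univ.filter fun w => w ∉ P).card :=
        Finset.card_pos.2 ⟨w, by simpa using hw⟩
      omega
  have hAne : ∀ w, w ∈ P → A.Nonempty := fun w hw => by simpa [hw] using hne w
  have hSne : ∀ w, w ∉ P → S.Nonempty := fun w hw => by simpa [hw] using hne w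
  obtain ⟨f, hf1, -, hf3⟩ := greedy T hT r Bᶜ (fun w => if w ∈ P then A else S) hne (by
    intro u v huv _ x hx
    by_cases hv : v ∈ P
    · have hu : u ∉ P := fun hu => ((hP u v huv).1 hu) hv
      rw [if_neg hu] at hx
      rw [if_pos hv]
      have hxA : x ∉ A := fun h => Finset.disjoint_left.1 hAS h hx
      have h3 := card_nb_compl B x A hxA
      have h4 := hS x hx
      have h5 : (univ.filter fun w => ¬ Disjoint (if w ∈ P then A else S) A).card ≤ P.card := by
        rw [← hcardP]
        apply Finset.card_le_card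
        intro w hw
        rw [Finset.mem_filter] at hw ⊢
        refine ⟨hw.1, ?_⟩
        by_contra hwP
        rw [if_neg hwP] at hw
        exact hw.2 hAS.symm
      omega
    · have hu : u ∈ P := (hP u v huv).2 hv
      rw [if_pos hu] at hx
      rw [if_neg hv]
      have hxS : x ∉ S := fun h => Finset.disjoint_left.1 hAS hx h
      have h3 := card_nb_compl B x S hxS
      have h4 := hA x hx
      have h5 : (univ.filter fun w => ¬ Disjoint (if w ∈ P then A else S) S).card ≤
          (univ.filter fun w => w ∉ P).card := by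
        apply Finset.card_le_card
        intro w hw
        rw [Finset.mem_filter] at hw ⊢
        refine ⟨hw.1, ?_⟩
        intro hwP
        rw [if_pos hwP] at hw
        exact hw.2 hAS
      omega)
  exact ⟨f, hf1, hf3⟩

end Pool.Agent.Lib.MP_0e31aa_co.TC
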