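import Pool.Agent.Lib.MP_0e31aa_co.TC.NearBip
import Pool.Agent.Lib.MP_0e31aa_co.TC.BipEmb
import Pool.Agent.Lib.MP_0e31aa_co.TC.Classes

/-! Exact case: nearly complete bipartite blue graph (module C2). -/

set_option autoImplicit false

namespace Pool.Agent.Lib.MP_0e31aa_co.TC

open Finset

/-- A red clique and vertices red to all of it contain every tree. -/
theorem emb_clique {V W : Type} [Fintype W] [DecidableEq W] [DecidableEq V] (B : SimpleGraph V)
    (T : SimpleGraph W) (hT : T.IsTree) (X Z : Finset V) (hXZ : Disjoint X Z)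
    (hX : NoE B X X) (hZ : NoE B X Z) (h1 : Fintype.card W ≤ X.card + Z.card)
    (h2 : Fintype.card W ≤ 2 * X.card) : Emb T Bᶜ := by
  obtain ⟨P, hP, hP2⟩ := tree_bip T hT
  obtain ⟨A, hAX, hA⟩ := Finset.exists_subset_card_eq (show P.card ≤ X.card by omega)
  refine emb_complete B T P hP A ((X \ A) ∪ Z) ?_ hA.ge ?_ ?_
  · rw [Finset.disjoint_union_right]
    exact ⟨Finset.disjoint_sdiff, Finset.disjoint_of_subset_left hAX hXZ⟩
  · rw [Finset.card_union_of_disjoint (Finset.disjoint_of_subset_left Finset.sdiff_subset hXZ),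
      Finset.card_sdiff_of_subset hAX]
    have := Finset.card_le_card hAX
    omega
  · intro a ha s hs
    rcases Finset.mem_union.1 hs with hs | hs
    · exact hX a (hAX ha) s (Finset.mem_sdiff.1 hs).1
    · exact hZ a (hAX ha) s hs

theorem case_c2 : ∃ n₀ : ℕ, ∀ n m : ℕ, n₀ ≤ n → Odd m → 5 ≤ m → 2 * m ≤ 3 * n + 1 →
    ∀ (B : SimpleGraph (Fin (2 * n - 1))) (T : SimpleGraph (Fin n)), T.IsTree → ¬ HasCyc B m →
    ∀ X Y : Finset (Fin (2 * n - 1)), Disjoint X Y →
    (1 - gam) * n ≤ X.card → (1 - gam) * n ≤ Y.card →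
    (∀ x ∈ X, ((nb Bᶜ x Y).card : ℝ) ≤ 8 * gam * n) →
    (∀ y ∈ Y, ((nb Bᶜ y X).card : ℝ) ≤ 8 * gam * n) → Emb T Bᶜ := by
  classical
  refine ⟨1000, ?_⟩
  intro n m hn hm hm5 hmn B T hT hB X Y hXY hXc hYc hX hY
  obtain ⟨j, rfl⟩ := hm
  have hn' : (1000 : ℝ) ≤ n := by exact_mod_cast hn
  have hj : (4 : ℝ) * j + 1 ≤ 3 * n := by
    have : 4 * j + 1 ≤ 3 * n := by omega
    exact_mod_cast this
  set t : ℕ := ⌊8 * gam * (n : ℝ)⌋₊ with ht
  have ht0 : (0 : ℝ) ≤ 8 * gam * n := by unfold gam; positivity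
  have ht1 : (t : ℝ) ≤ 8 * gam * n := Nat.floor_le ht0
  have hXt : ∀ x ∈ X, (nb Bᶜ x Y).card ≤ t := fun x hx => Nat.le_floor (hX x hx)
  have hYt : ∀ y ∈ Y, (nb Bᶜ y X).card ≤ t := fun y hy => Nat.le_floor (hY y hy)
  have f1 := nearFull_of_nb hXY hXt
  have f2 := nearFull_of_nb hXY.symm hYt
  unfold gam at hXc hYc ht1
  have hXc1 : 2 * t + j + 1 ≤ X.card := by
    have : (2 * t + j + 1 : ℝ) ≤ X.card := by linarith
    exact_mod_cast this
  have hYc1 : 2 * t + j + 1 ≤ Y.card := by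
    have : (2 * t + j + 1 : ℝ) ≤ Y.card := by linarith
    exact_mod_cast this
  have hXn : n ≤ 2 * X.card := by
    have : (n : ℝ) ≤ 2 * X.card := by linarith
    exact_mod_cast this
  have hYn : n ≤ 2 * Y.card := by
    have : (n : ℝ) ≤ 2 * Y.card := by linarith
    exact_mod_cast this
  have hXX : NoE B X X := by
    intro x hx x' hx' hadj
    obtain ⟨l, h1, h2⟩ := _root_.TC.NC.bip_edge_cycle f1 f2 hXY hx hx' hadj j (by omega)
      (by omega) (by omega)
    exact hB (h2 ▸ hasCyc_of_lcycle h1)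
  have hYY : NoE B Y Y := by
    intro y hy y' hy' hadj
    obtain ⟨l, h1, h2⟩ := _root_.TC.NC.bip_edge_cycle f2 f1 hXY.symm hy hy' hadj j (by omega)
      (by omega) (by omega)
    exact hB (h2 ▸ hasCyc_of_lcycle h1)
  set R : Finset (Fin (2 * n - 1)) := univ \ (X ∪ Y) with hR
  have hRX : Disjoint X R := by
    rw [Finset.disjoint_left]
    intro z hz hz'
    rw [hR, Finset.mem_sdiff, Finset.mem_union] at hz'
    exact hz'.2 (Or.inl hz)
  have hRY : Disjoint Y R := by
    rw [Finset.disjoint_left]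
    intro z hz hz'
    rw [hR, Finset.mem_sdiff, Finset.mem_union] at hz'
    exact hz'.2 (Or.inr hz)
  have hRc : R.card + (X.card + Y.card) = 2 * n - 1 := by
    rw [hR, Finset.card_sdiff_of_subset (Finset.subset_univ _), Finset.card_union_of_disjoint hXY,
      Finset.card_univ, Fintype.card_fin]
    have := Finset.card_le_univ (X ∪ Y)
    rw [Finset.card_union_of_disjoint hXY, Fintype.card_fin] at this
    omega
  have hsplit : R ⊆ R.filter (fun z => ∀ x ∈ X, ¬ B.Adj x z) ∪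
      R.filter (fun z => ∀ y ∈ Y, ¬ B.Adj y z) := by
    intro z hz
    by_contra hcon
    simp only [Finset.mem_union, Finset.mem_filter, not_or, not_and, not_forall, not_not] at hcon
    obtain ⟨⟨x, hx, hxz⟩, ⟨y, hy, hyz⟩⟩ := And.intro (hcon.1 hz) (hcon.2 hz)
    obtain ⟨l, h1, h2⟩ := _root_.TC.NC.bip_vertex_cycle f1 f2 hXY hx hy
      (fun h => Finset.disjoint_left.1 hRX h hz) (fun h => Finset.disjoint_left.1 hRY h hz)
      hxz.symm hyz.symm j (by omega) (by omega) (by omega)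
    exact hB (h2 ▸ hasCyc_of_lcycle h1)
  have hsum := (Finset.card_le_card hsplit).trans (Finset.card_union_le _ _)
  by_cases hcase : n ≤ X.card + (R.filter (fun z => ∀ x ∈ X, ¬ B.Adj x z)).card
  · refine emb_clique B T hT X _ (Finset.disjoint_of_subset_right (Finset.filter_subset _ _) hRX)
      hXX ?_ (by rw [Fintype.card_fin]; exact hcase) (by rw [Fintype.card_fin]; exact hXn)
    intro x hx z hz
    exact (Finset.mem_filter.1 hz).2 x hx
  · refine emb_clique B T hT Y (R.filter (fun z => ∀ y ∈ Y, ¬ B.Adj y z))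
      (Finset.disjoint_of_subset_right (Finset.filter_subset _ _) hRY)
      hYY ?_ (by rw [Fintype.card_fin]; omega) (by rw [Fintype.card_fin]; exact hYn)
    intro y hy z hz
    exact (Finset.mem_filter.1 hz).2 y hy

end Pool.Agent.Lib.MP_0e31aa_co.TC
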