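import Pool.Agent.Lib.MP_0e31aa_co.TC.CaseC1
import Pool.Agent.Lib.MP_0e31aa_co.TC.CaseC2

/-! The first near extremal case (module CC). -/

set_option autoImplicit false

namespace Pool.Agent.Lib.MP_0e31aa_co.TC

open Finset

theorem case_c : ∃ n₀ : ℕ, ∀ n m : ℕ, n₀ ≤ n → Odd m → 5 ≤ m → 2 * m ≤ 3 * n + 1 →
    ∀ (B : SimpleGraph (Fin (2 * n - 1))) (T : SimpleGraph (Fin n)), T.IsTree → ¬ HasCyc B m →
    ∀ X Y : Finset (Fin (2 * n - 1)), Disjoint X Y →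
    (1 - gam) * n ≤ X.card → (1 - gam) * n ≤ Y.card →
    (∀ x ∈ X, ((nb B x X).card : ℝ) ≤ gam * n) →
    (∀ y ∈ Y, ((nb B y Y).card : ℝ) ≤ gam * n) → Emb T Bᶜ := by
  obtain ⟨n₁, h₁⟩ := case_c1
  obtain ⟨n₂, h₂⟩ := case_c2
  refine ⟨max n₁ n₂, ?_⟩
  intro n m hn hm hm5 hmn B T hT hB X Y hXY hXc hYc hX hY
  by_cases hx : ∃ x ∈ X, 8 * gam * n ≤ ((nb Bᶜ x Y).card : ℝ)
  · obtain ⟨x, hx, hx'⟩ := hx
    exact h₁ n ((le_max_left _ _).trans hn) _ B T hT X Y hXY hXc hYc hX hY x hx hx'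
  · by_cases hy : ∃ y ∈ Y, 8 * gam * n ≤ ((nb Bᶜ y X).card : ℝ)
    · obtain ⟨y, hy, hy'⟩ := hy
      exact h₁ n ((le_max_left _ _).trans hn) _ B T hT Y X hXY.symm hYc hXc hY hX y hy hy'
    · push Not at hx hy
      exact h₂ n m ((le_max_right _ _).trans hn) hm hm5 hmn B T hT hB X Y hXY hXc hYc
        (fun x h => (hx x h).le) (fun y h => (hy y h).le)

end Pool.Agent.Lib.MP_0e31aa_co.TC
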