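import Pool.Agent.Lib.MP_0e31aa_co.TC.Defs
import Pool.Agent.Lib.MP_0e31aa_co.TreeEmb

/-! Splitting a tree at a vertex. -/

set_option autoImplicit false

namespace Pool.Agent.Lib.MP_0e31aa_co.TC

open Finset

theorem tree_split {W : Type} [Fintype W] [DecidableEq W] (T : SimpleGraph W) (hT : T.IsTree)
    (t : ℕ) (ht : 1 ≤ t) (hn : t + 1 ≤ Fintype.card W) :
    ∃ (w : W) (D : Finset W), w ∉ D ∧ t ≤ D.card ∧ D.card ≤ 2 * t ∧
      ∀ u ∈ D, ∀ v, v ∉ D → T.Adj u v → v = w := by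
  obtain ⟨w, D, h1, h2, h3⟩ := exists_branches hT.isAcyclic ht (by omega)
  refine ⟨w, D, h1.1, h2, by omega, ?_⟩
  intro u hu v hv huv
  rcases h1.2 u hu v huv with h | h
  · exact absurd h hv
  · exact h

end Pool.Agent.Lib.MP_0e31aa_co.TC
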