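import Pool.Agent.Lib.MP_0e31aa_co.TC.Greedy
import Pool.Agent.Lib.MP_0e31aa_co.TC.Split

/-! Case C1. -/

set_option autoImplicit false

namespace Pool.Agent.Lib.MP_0e31aa_co.TC

open Finset



theorem case_c1 : ∃ n₀ : ℕ, ∀ n : ℕ, n₀ ≤ n → ∀ (V : Type) [DecidableEq V] (B : SimpleGraph V)
    (T : SimpleGraph (Fin n)), T.IsTree → ∀ X Y : Finset V, Disjoint X Y →
    (1 - gam) * n ≤ X.card → (1 - gam) * n ≤ Y.card →
    (∀ x ∈ X, ((nb B x X).card : ℝ) ≤ gam * n) → (∀ y ∈ Y, ((nb B y Y).card : ℝ) ≤ gam * n) →
    ∀ x ∈ X, 8 * gam * n ≤ ((nb Bᶜ x Y).card : ℝ) → Emb T Bᶜ := by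
  refine ⟨10000000, ?_⟩
  intro n hn V _ B T hT X Y hXY hX hY hBX hBY x hx hxY
  have hnR : (10000000 : ℝ) ≤ n := by exact_mod_cast hn
  rw [show gam = (1 / 1000000 : ℝ) from rfl] at *
  obtain ⟨t, ht1, ht2⟩ : ∃ t : ℕ, 2 * (1 / 1000000 : ℝ) * n + 1 ≤ t ∧
      (t : ℝ) ≤ 2 * (1 / 1000000 : ℝ) * n + 2 := by
    refine ⟨⌈2 * (1 / 1000000 : ℝ) * n⌉₊ + 1, ?_, ?_⟩
    · have := Nat.le_ceil (2 * (1 / 1000000 : ℝ) * n)
      push_cast
      linarith
    · have := Nat.ceil_lt_add_one (show (0 : ℝ) ≤ 2 * (1 / 1000000 : ℝ) * n by positivity)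
      push_cast
      linarith
  have ht0 : 1 ≤ t := by
    have : (1 : ℝ) ≤ t := by linarith
    exact_mod_cast this
  have htn : t + 1 ≤ Fintype.card (Fin n) := by
    rw [Fintype.card_fin]
    have : (t : ℝ) + 1 ≤ n := by linarith
    exact_mod_cast this
  obtain ⟨w, D, hwD, hD1, hD2, hD⟩ := tree_split T hT t ht0 htn
  have hD2R : (D.card : ℝ) ≤ 2 * t := by exact_mod_cast hD2
  have hD1R : (t : ℝ) ≤ D.card := by exact_mod_cast hD1
  let A : Fin n → Finset V := fun v => if v = w then {x} else if v ∈ D then Y else X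
  have hxnY : x ∉ Y := fun h => disjoint_left.1 hXY hx h
  have hAw : A w = {x} := by simp [A]
  have hAD : ∀ v ∈ D, A v = Y := by
    intro v hv
    have : v ≠ w := fun e => hwD (e ▸ hv)
    simp [A, this, hv]
  have hAX : ∀ v, v ∉ D → v ≠ w → A v = X := by
    intro v hv hvw
    simp [A, hv, hvw]
  have hXne : X.Nonempty := ⟨x, hx⟩
  have hYne : Y.Nonempty := by
    rw [← card_pos]
    have : (0 : ℝ) < Y.card := by linarith
    exact_mod_cast this
  have hcX : ∀ y ∈ X, (n : ℝ) - t ≤ ((nb Bᶜ y X).card : ℝ) := by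
    intro y hy
    have h1 : (X.card : ℝ) ≤ (nb B y X).card + (nb Bᶜ y X).card + 1 := by
      exact_mod_cast card_le_nb B y X
    have h2 := hBX y hy
    linarith
  have hcY : ∀ y ∈ Y, (D.card : ℝ) ≤ ((nb Bᶜ y Y).card : ℝ) := by
    intro y hy
    have h1 : (Y.card : ℝ) ≤ (nb B y Y).card + (nb Bᶜ y Y).card + 1 := by
      exact_mod_cast card_le_nb B y Y
    have h2 := hBY y hy
    linarith
  obtain ⟨f, hf1, -, hf3⟩ := greedy T hT w Bᶜ A (by
      intro v
      by_cases h1 : v = w
      · rw [h1, hAw]; exact singleton_nonempty x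
      · by_cases h2 : v ∈ D
        · rw [hAD v h2]; exact hYne
        · rw [hAX v h2 h1]; exact hXne) (by
      intro u v huv hdist y hy
      have hvw : v ≠ w := by
        intro e
        rw [e, SimpleGraph.dist_self] at hdist
        omega
      by_cases hvD : v ∈ D
      · rw [hAD v hvD]
        have hcount : (univ.filter fun w' => ¬ Disjoint (A w') Y).card ≤ D.card := by
          apply card_le_card
          intro w' hw'
          rw [mem_filter] at hw'
          by_contra hcon
          apply hw'.2
          by_cases h1 : w' = w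
          · rw [h1, hAw, disjoint_singleton_left]; exact hxnY
          · rw [hAX w' hcon h1]; exact hXY
        refine hcount.trans ?_
        by_cases hu : u = w
        · rw [hu, hAw, mem_singleton] at hy
          rw [hy]
          have : (D.card : ℝ) ≤ ((nb Bᶜ x Y).card : ℝ) := by linarith
          exact_mod_cast this
        · have huD : u ∈ D := by
            by_contra hcon
            exact hu (hD v hvD u hcon huv.symm)
          rw [hAD u huD] at hy
          exact_mod_cast hcY y hy
      · rw [hAX v hvD hvw]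
        have hyX : y ∈ X := by
          by_cases hu : u = w
          · rw [hu, hAw, mem_singleton] at hy
            rw [hy]; exact hx
          · by_cases huD : u ∈ D
            · exact absurd (hD u huD v hvD huv) hvw
            · rw [hAX u huD hu] at hy
              exact hy
        have hcount : (univ.filter fun w' => ¬ Disjoint (A w') X).card ≤ Dᶜ.card := by
          apply card_le_card
          intro w' hw'
          rw [mem_filter] at hw'
          rw [mem_compl]
          intro hcon
          apply hw'.2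
          rw [hAD w' hcon]
          exact hXY.symm
        have hDc : (Dᶜ.card : ℝ) = n - D.card := by
          have h1 : D.card + Dᶜ.card = n := by
            rw [card_add_card_compl, Fintype.card_fin]
          have h2 : (D.card : ℝ) + Dᶜ.card = n := by exact_mod_cast h1
          linarith
        refine hcount.trans ?_
        have h3 := hcX y hyX
        have : (Dᶜ.card : ℝ) ≤ ((nb Bᶜ y X).card : ℝ) := by
          rw [hDc]; linarith
        exact_mod_cast this)
  exact ⟨f, hf1, hf3⟩

end Pool.Agent.Lib.MP_0e31aa_co.TC
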