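import Pool.Agent.Lib.MP_0e31aa_co.TC.NearComplete

set_option autoImplicit false

namespace Pool.Agent.Lib.MP_0e31aa_co.TC

open Finset

/-- A tree with a bipartition embeds in a complete bipartite red graph. -/
theorem emb_complete_d {V W : Type} [Fintype W] [DecidableEq W] [DecidableEq V]
    (B : SimpleGraph V) (T : SimpleGraph W) (P : Finset W) (hP : Bip T P) (A S : Finset V)
    (hAS : Disjoint A S) (h1 : P.card ≤ A.card) (h2 : Fintype.card W ≤ P.card + S.card)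
    (h : ∀ a ∈ A, ∀ s ∈ S, ¬ B.Adj a s) : Emb T Bᶜ := by
  classical
  have hPc : Pᶜ.card ≤ S.card := by
    rw [Finset.card_compl]; omega
  obtain ⟨A', hA', hcA⟩ := Finset.exists_subset_card_eq h1
  obtain ⟨S', hS', hcS⟩ := Finset.exists_subset_card_eq hPc
  have eA : P ≃ A' := Finset.equivOfCardEq hcA.symm
  have eS : (Pᶜ : Finset W) ≃ S' := Finset.equivOfCardEq hcS.symm
  have hf : ∀ w : W, ∃ v : V, (∀ hw : w ∈ P, v = eA ⟨w, hw⟩) ∧
      (∀ hw : w ∈ Pᶜ, v = eS ⟨w, hw⟩) := by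
    intro w
    by_cases hw : w ∈ P
    · exact ⟨eA ⟨w, hw⟩, fun _ => rfl, fun hw' => absurd hw (Finset.mem_compl.1 hw')⟩
    · exact ⟨eS ⟨w, Finset.mem_compl.2 hw⟩, fun hw' => absurd hw' hw, fun _ => rfl⟩
  choose f hf1 hf2 using hf
  have hfA : ∀ w ∈ P, f w ∈ A := fun w hw => by
    rw [hf1 w hw]; exact hA' (eA ⟨w, hw⟩).2
  have hfS : ∀ w, w ∉ P → f w ∈ S := fun w hw => by
    rw [hf2 w (Finset.mem_compl.2 hw)]; exact hS' (eS ⟨w, Finset.mem_compl.2 hw⟩).2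
  have hne : ∀ u v, u ∈ P → v ∉ P → f u ≠ f v := fun u v hu hv he =>
    (Finset.disjoint_left.1 hAS) (hfA u hu) (he ▸ hfS v hv)
  refine ⟨f, ?_, ?_⟩
  · intro u v huv
    by_cases hu : u ∈ P <;> by_cases hv : v ∈ P
    · have := hf1 u hu
      rw [huv, hf1 v hv] at this
      have := eA.injective (Subtype.ext this)
      exact (congrArg Subtype.val this).symm
    · exact absurd huv (hne u v hu hv)
    · exact absurd huv.symm (hne v u hv hu)
    · have := hf2 u (Finset.mem_compl.2 hu)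
      rw [huv, hf2 v (Finset.mem_compl.2 hv)] at this
      have := eS.injective (Subtype.ext this)
      exact (congrArg Subtype.val this).symm
  · intro u v huv
    rw [SimpleGraph.compl_adj]
    by_cases hu : u ∈ P
    · have hv := (hP u v huv).1 hu
      exact ⟨hne u v hu hv, h _ (hfA u hu) _ (hfS v hv)⟩
    · have hv : v ∈ P := by
        by_contra hv
        exact hu ((hP u v huv).2 hv)
      exact ⟨(hne v u hv hu).symm, fun he => h _ (hfA v hv) _ (hfS u hu) he.symm⟩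

/-- a connector between `x` and `y`: an edge (`E = ∅`) or a path of length two through `E`. -/
def Con {V : Type} (B : SimpleGraph V) (U₁ U₂ : Finset V) (x y : V) (E : Finset V) : Prop :=
  x ∈ U₁ ∧ y ∈ U₂ ∧ ((E = ∅ ∧ B.Adj x y) ∨
    ∃ e, e ∉ U₁ ∧ e ∉ U₂ ∧ E = {e} ∧ B.Adj x e ∧ B.Adj e y)

theorem Con.card_le {V : Type} {B : SimpleGraph V} {U₁ U₂ : Finset V} {x y : V} {E : Finset V}
    (h : Con B U₁ U₂ x y E) : E.card ≤ 1 := by
  obtain ⟨_, _, ⟨rfl, _⟩ | ⟨e, _, _, rfl, _, _⟩⟩ := h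
  · simp
  · simp

theorem Con.cycle {V : Type} [DecidableEq V] {B : SimpleGraph V} {U₁ U₂ : Finset V}
    (hd : Disjoint U₁ U₂) {x y x' y' : V} {E E' : Finset V} (h : Con B U₁ U₂ x y E)
    (h' : Con B U₁ U₂ x' y' E') (hE : Disjoint E E') {a b : ℕ} (hp : Pth B U₁ x x' a)
    (hq : Pth B U₂ y' y b) : HasCyc B (a + E'.card + b + E.card) := by
  -- a path from `x` to `y`
  have h1 : Pth B (U₁ ∪ E' ∪ U₂) x y (a + E'.card + b) := by
    obtain ⟨_, _, ⟨rfl, hadj⟩ | ⟨e, he1, he2, rfl, hadj1, hadj2⟩⟩ := h'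
    · have := hp.append hq hd hadj
      simpa using this
    · have h2 : Pth B (U₁ ∪ {e}) x e (a + 1) :=
        hp.append (Pth.single B (Finset.mem_singleton_self e))
          (Finset.disjoint_singleton_right.2 he1) hadj1
      have h3 := h2.append hq (by
        rw [Finset.disjoint_union_left]
        exact ⟨hd, Finset.disjoint_singleton_left.2 he2⟩) hadj2
      simpa using h3
  obtain ⟨_, _, ⟨rfl, hadj⟩ | ⟨e, he1, he2, rfl, hadj1, hadj2⟩⟩ := h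
  · simpa using h1.cyc hadj.symm
  · have h2 : Pth B (U₁ ∪ E' ∪ U₂ ∪ {e}) x e (a + E'.card + b + 1) :=
      h1.append (Pth.single B (Finset.mem_singleton_self e)) (by
        rw [Finset.disjoint_singleton_right, Finset.mem_union, Finset.mem_union]
        rintro ((h | h) | h)
        · exact he1 h
        · exact (Finset.disjoint_singleton_left.1 hE) h
        · exact he2 h) hadj2.symm
    simpa using h2.cyc hadj1.symm

/-- If there are no two disjoint connectors, then at most two vertices meet all connectors. -/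
theorem Con.cover {V : Type} [DecidableEq V] {B : SimpleGraph V} {U₁ U₂ : Finset V}
    (h : ∀ x y E x' y' E', Con B U₁ U₂ x y E → Con B U₁ U₂ x' y' E' → x ≠ x' → y ≠ y' →
      ¬ Disjoint E E') :
    ∃ Z : Finset V, Z.card ≤ 2 ∧ ∀ x y E, Con B U₁ U₂ x y E → x ∈ Z ∨ y ∈ Z ∨ ¬ Disjoint E Z := by
  by_cases h0 : ∃ x y E, Con B U₁ U₂ x y E
  · obtain ⟨x₀, y₀, E₀, c₀⟩ := h0
    by_cases h1 : ∀ x y E, Con B U₁ U₂ x y E → x = x₀ ∨ y = y₀
    · refine ⟨{x₀, y₀}, Finset.card_le_two, fun x y E c => ?_⟩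
      rcases h1 x y E c with rfl | rfl
      · exact Or.inl (by simp)
      · exact Or.inr (Or.inl (by simp))
    · push Not at h1
      obtain ⟨x₁, y₁, E₁, c₁, hx, hy⟩ := h1
      have hE := h x₀ y₀ E₀ x₁ y₁ E₁ c₀ c₁ hx.symm hy.symm
      obtain ⟨e, he₀, he₁⟩ := Finset.not_disjoint_iff.1 hE
      obtain ⟨hx₀, hy₀, ⟨rfl, _⟩ | ⟨e', he1, he2, rfl, hadj1, hadj2⟩⟩ := c₀
      · simp at he₀
      rw [Finset.mem_singleton] at he₀
      subst he₀
      obtain ⟨hx₁, hy₁, ⟨rfl, _⟩ | ⟨e'', he1', he2', rfl, hadj1', hadj2'⟩⟩ := c₁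
      · simp at he₁
      rw [Finset.mem_singleton] at he₁
      subst he₁
      have c01 : Con B U₁ U₂ x₀ y₁ {e} := ⟨hx₀, hy₁, Or.inr ⟨e, he1, he2, rfl, hadj1, hadj2'⟩⟩
      have c10 : Con B U₁ U₂ x₁ y₀ {e} := ⟨hx₁, hy₀, Or.inr ⟨e, he1, he2, rfl, hadj1', hadj2⟩⟩
      have c00 : Con B U₁ U₂ x₀ y₀ {e} := ⟨hx₀, hy₀, Or.inr ⟨e, he1, he2, rfl, hadj1, hadj2⟩⟩
      have c11 : Con B U₁ U₂ x₁ y₁ {e} := ⟨hx₁, hy₁, Or.inr ⟨e, he1, he2, rfl, hadj1', hadj2'⟩⟩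
      refine ⟨{e}, by simp, fun x y E c => Or.inr (Or.inr fun hdis => ?_)⟩
      by_cases g0 : x = x₀
      · by_cases g1 : y = y₁
        · exact h x y E x₁ y₀ {e} c c10 (by rw [g0]; exact hx.symm) (by rw [g1]; exact hy) hdis
        · exact h x y E x₁ y₁ {e} c c11 (by rw [g0]; exact hx.symm) g1 hdis
      · by_cases g1 : y = y₀
        · exact h x y E x₀ y₁ {e} c c01 g0 (by rw [g1]; exact hy.symm) hdis
        · exact h x y E x₀ y₀ {e} c c00 g0 g1 hdis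
  · push Not at h0
    exact ⟨∅, by simp, fun x y E c => absurd c (h0 x y E)⟩

/-- the final embedding -/
theorem case_d2_side {n : ℕ} (hn : 1000 ≤ n) (B : SimpleGraph (Fin (2 * n - 1)))
    (T : SimpleGraph (Fin n)) (P : Finset (Fin n)) (hP : Bip T P) (hPn : P.Nonempty)
    (hPc : (P.card : ℝ) ≤ gam * n) (U Z V₁ : Finset (Fin (2 * n - 1)))
    (hU : (1 - 9 * gam) * n ≤ U.card) (hnb : ∀ u ∈ U, ((nb Bᶜ u U).card : ℝ) ≤ 8 * gam * n)
    (hZ : Z.card ≤ 2) (hV : ∀ v ∈ V₁, v ∉ Z ∧ ∀ u ∈ U, u ∉ Z → ¬ B.Adj v u)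
    (hVc : n ≤ V₁.card + 1) : Emb T Bᶜ := by
  have hn' : (1000 : ℝ) ≤ n := by exact_mod_cast hn
  have hdis : Disjoint (U \ Z) V₁ := by
    rw [Finset.disjoint_left]
    intro u hu hu1
    have huU := (Finset.mem_sdiff.1 hu).1
    obtain ⟨h1, h2⟩ := hV u hu1
    have h3 : (U \ Z).erase u ⊆ nb Bᶜ u U := by
      intro w hw
      obtain ⟨hw1, hw2⟩ := Finset.mem_erase.1 hw
      obtain ⟨hw3, hw4⟩ := Finset.mem_sdiff.1 hw2
      exact mem_nb.2 ⟨hw3, by rw [SimpleGraph.compl_adj]; exact ⟨hw1.symm, h2 w hw3 hw4⟩⟩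
    have h4 := Finset.card_le_card h3
    rw [Finset.card_erase_of_mem hu] at h4
    have h5 : U.card ≤ (U \ Z).card + Z.card := by
      have := Finset.le_card_sdiff Z U
      omega
    have h6 : U.card ≤ (nb Bᶜ u U).card + 3 := by omega
    have h7 : (U.card : ℝ) ≤ (nb Bᶜ u U).card + 3 := by exact_mod_cast h6
    have h8 := hnb u huU
    unfold gam at hU h8
    linarith
  refine emb_complete_d B T P hP (U \ Z) V₁ hdis ?_ ?_ ?_
  · have h5 : U.card ≤ (U \ Z).card + 2 := by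
      have := Finset.le_card_sdiff Z U
      omega
    have h7 : (U.card : ℝ) ≤ (U \ Z).card + 2 := by exact_mod_cast h5
    have h8 : (P.card : ℝ) ≤ (U \ Z).card := by
      unfold gam at hU hPc
      linarith
    exact_mod_cast h8
  · rw [Fintype.card_fin]
    have := Finset.card_pos.2 hPn
    omega
  · intro a ha s hs hadj
    obtain ⟨ha1, ha2⟩ := Finset.mem_sdiff.1 ha
    exact (hV s hs).2 a ha1 ha2 hadj.symm

/-! ### D2 (uses NC BE) -/
theorem case_d2 : ∃ n₀ : ℕ, ∀ n m : ℕ, n₀ ≤ n → Odd m → 9 ≤ m → 2 * m ≤ 3 * n + 1 →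
    ∀ (B : SimpleGraph (Fin (2 * n - 1))) (T : SimpleGraph (Fin n)), T.IsTree → ¬ HasCyc B m →
    ∀ P : Finset (Fin n), Bip T P → P.Nonempty → (P.card : ℝ) ≤ gam * n →
    ∀ U₁ U₂ : Finset (Fin (2 * n - 1)), Disjoint U₁ U₂ → (1 - 9 * gam) * n ≤ U₁.card →
    (1 - 9 * gam) * n ≤ U₂.card → (∀ u ∈ U₁, ((nb Bᶜ u U₁).card : ℝ) ≤ 8 * gam * n) →
    (∀ u ∈ U₂, ((nb Bᶜ u U₂).card : ℝ) ≤ 8 * gam * n) → Emb T Bᶜ := by
  refine ⟨1000, ?_⟩
  intro n m hn _ hm9 hm B T _ hcyc P hP hPn hPc U₁ U₂ hd hU₁ hU₂ hn₁ hn₂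
  classical
  have hn' : (1000 : ℝ) ≤ n := by exact_mod_cast hn
  obtain ⟨t, ht⟩ : ∃ t, t = ⌊8 * gam * n⌋₊ := ⟨_, rfl⟩
  have htr : (t : ℝ) ≤ 8 * gam * n := by
    rw [ht]; apply Nat.floor_le; unfold gam; positivity
  have ht₁ : ∀ u ∈ U₁, (nb Bᶜ u U₁).card ≤ t := fun u hu => by
    rw [ht]; exact Nat.le_floor (hn₁ u hu)
  have ht₂ : ∀ u ∈ U₂, (nb Bᶜ u U₂).card ≤ t := fun u hu => by
    rw [ht]; exact Nat.le_floor (hn₂ u hu)
  have hM₁ : 5 * t + 5 ≤ U₁.card := by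
    have : ((5 * t + 5 : ℕ) : ℝ) ≤ U₁.card := by
      push_cast
      unfold gam at *
      linarith
    exact_mod_cast this
  have hM₂ : 5 * t + 5 ≤ U₂.card := by
    have : ((5 * t + 5 : ℕ) : ℝ) ≤ U₂.card := by
      push_cast
      unfold gam at *
      linarith
    exact_mod_cast this
  have hsum : m + 2 ≤ U₁.card + U₂.card := by
    have h1 : (2 * m : ℝ) ≤ 3 * n + 1 := by exact_mod_cast hm
    have : ((m + 2 : ℕ) : ℝ) ≤ ((U₁.card + U₂.card : ℕ) : ℝ) := by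
      push_cast
      unfold gam at *
      linarith
    exact_mod_cast this
  -- no two disjoint connectors
  have hno : ∀ x y E x' y' E', Con B U₁ U₂ x y E → Con B U₁ U₂ x' y' E' → x ≠ x' → y ≠ y' →
      ¬ Disjoint E E' := by
    intro x y E x' y' E' c c' hx hy hE
    have hE1 := c.card_le
    have hE2 := c'.card_le
    obtain ⟨a, b, ha3, haU, hb3, hbU, hab⟩ : ∃ a b : ℕ, 3 ≤ a ∧ a ≤ U₁.card ∧ 3 ≤ b ∧
        b ≤ U₂.card ∧ a + E'.card + b + E.card = m := by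
      rcases le_total (m - E'.card - E.card) (U₂.card + 3) with h | h
      · exact ⟨3, m - E'.card - E.card - 3, by omega, by omega, by omega, by omega, by omega⟩
      · exact ⟨m - E'.card - E.card - U₂.card, U₂.card, by omega, by omega, by omega, by omega,
          by omega⟩
    have hp := nc_path B U₁ t ht₁ hM₁ x x' c.1 c'.1 hx a ha3 haU
    have hq := nc_path B U₂ t ht₂ hM₂ y' y c'.2.1 c.2.1 hy.symm b hb3 hbU
    have := c.cycle hd c' hE hp hq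
    rw [hab] at this
    exact hcyc this
  obtain ⟨Z, hZ, hcov⟩ := Con.cover hno
  obtain ⟨V₁, hV₁⟩ : ∃ V₁ : Finset (Fin (2 * n - 1)),
      V₁ = univ.filter fun v => v ∉ Z ∧ ∀ u ∈ U₂, u ∉ Z → ¬ B.Adj v u := ⟨_, rfl⟩
  obtain ⟨V₂, hV₂⟩ : ∃ V₂ : Finset (Fin (2 * n - 1)),
      V₂ = univ.filter fun v => v ∉ Z ∧ ∀ u ∈ U₁, u ∉ Z → ¬ B.Adj v u := ⟨_, rfl⟩
  have hm₁ : ∀ v, v ∈ V₁ ↔ (v ∉ Z ∧ ∀ u ∈ U₂, u ∉ Z → ¬ B.Adj v u) := by
    intro v; rw [hV₁]; simp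
  have hm₂ : ∀ v, v ∈ V₂ ↔ (v ∉ Z ∧ ∀ u ∈ U₁, u ∉ Z → ¬ B.Adj v u) := by
    intro v; rw [hV₂]; simp
  have hcover : (univ : Finset (Fin (2 * n - 1))) ⊆ V₁ ∪ V₂ ∪ Z := by
    intro v _
    by_contra hcon
    rw [Finset.mem_union, Finset.mem_union, not_or, not_or, hm₁, hm₂] at hcon
    obtain ⟨⟨h1, h2⟩, h3⟩ := hcon
    push Not at h1 h2
    obtain ⟨y, hy, hyZ, hvy⟩ := h1 h3
    obtain ⟨x, hx, hxZ, hvx⟩ := h2 h3
    by_cases hv1 : v ∈ U₁
    · rcases hcov v y ∅ ⟨hv1, hy, Or.inl ⟨rfl, hvy⟩⟩ with h | h | h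
      · exact h3 h
      · exact hyZ h
      · exact h (Finset.disjoint_empty_left Z)
    · by_cases hv2 : v ∈ U₂
      · rcases hcov x v ∅ ⟨hx, hv2, Or.inl ⟨rfl, hvx.symm⟩⟩ with h | h | h
        · exact hxZ h
        · exact h3 h
        · exact h (Finset.disjoint_empty_left Z)
      · rcases hcov x y {v} ⟨hx, hy, Or.inr ⟨v, hv1, hv2, rfl, hvx.symm, hvy⟩⟩ with h | h | h
        · exact hxZ h
        · exact hyZ h
        · exact h (Finset.disjoint_singleton_left.2 h3)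
  have hcard : 2 * n - 1 ≤ V₁.card + V₂.card + Z.card := by
    have h1 := Finset.card_le_card hcover
    rw [Finset.card_univ, Fintype.card_fin] at h1
    have h2 := Finset.card_union_le (V₁ ∪ V₂) Z
    have h3 := Finset.card_union_le V₁ V₂
    omega
  rcases le_total V₂.card V₁.card with h | h
  · exact case_d2_side hn B T P hP hPn hPc U₂ Z V₁ hU₂ hn₂ hZ (fun v hv => (hm₁ v).1 hv)
      (by omega)
  · exact case_d2_side hn B T P hP hPn hPc U₁ Z V₂ hU₁ hn₁ hZ (fun v hv => (hm₂ v).1 hv)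
      (by omega)

end Pool.Agent.Lib.MP_0e31aa_co.TC
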