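import Pool.Agent.Lib.MP_0e31aa_co.TC.CaseD1
import Pool.Agent.Lib.MP_0e31aa_co.TC.CaseD2

/-! Module DD. -/

set_option autoImplicit false

namespace Pool.Agent.Lib.MP_0e31aa_co.TC

open Finset

theorem case_d : ∃ n₀ : ℕ, ∀ n m : ℕ, n₀ ≤ n → Odd m → 9 ≤ m → 2 * m ≤ 3 * n + 1 →
    ∀ (B : SimpleGraph (Fin (2 * n - 1))) (T : SimpleGraph (Fin n)), T.IsTree → ¬ HasCyc B m →
    ∀ P : Finset (Fin n), Bip T P → (P.card : ℝ) ≤ gam * n →
    ∀ U₁ U₂ : Finset (Fin (2 * n - 1)), Disjoint U₁ U₂ → (1 - gam) * n ≤ U₁.card →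
    (1 - gam) * n ≤ U₂.card → (∀ u ∈ U₁, ((nb B u U₂).card : ℝ) ≤ gam * n) →
    (∀ u ∈ U₂, ((nb B u U₁).card : ℝ) ≤ gam * n) → Emb T Bᶜ := by
  classical
  obtain ⟨n₁, h1⟩ := case_d1
  obtain ⟨n₂, h2⟩ := case_d2
  refine ⟨max n₁ (max n₂ 2), fun n m hn hmo hm9 hm B T hT hB P hP hPc U₁ U₂ hU hU₁ hU₂ h₁₂ h₂₁ => ?_⟩
  have hn1 : n₁ ≤ n := le_trans (le_max_left _ _) hn
  have hn2 : n₂ ≤ n := le_trans (le_trans (le_max_left _ _) (le_max_right _ _)) hn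
  have hn22 : 2 ≤ n := le_trans (le_trans (le_max_right _ _) (le_max_right _ _)) hn
  have hgam : gam = 1 / 1000000 := rfl
  have hn0 : (0 : ℝ) ≤ n := Nat.cast_nonneg _
  have hPn : P.Nonempty := by
    obtain ⟨w⟩ := hT.connected.preconnected ⟨0, by omega⟩ ⟨1, by omega⟩
    cases w with
    | @cons _ v _ h p =>
      by_cases h0 : (⟨0, by omega⟩ : Fin n) ∈ P
      · exact ⟨_, h0⟩
      · exact ⟨v, by
          by_contra hv
          exact h0 ((hP _ _ h).2 hv)⟩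
  have hsplit : ∀ U : Finset (Fin (2 * n - 1)), (1 - gam) * n ≤ U.card →
      ¬ 7 * gam * n ≤ ((U.filter fun g => 7 * gam * n ≤ ((nb Bᶜ g U).card : ℝ)).card : ℝ) →
      (1 - 9 * gam) * n ≤ ((U.filter fun g => ¬ 7 * gam * n ≤ ((nb Bᶜ g U).card : ℝ)).card : ℝ) ∧
      ∀ u ∈ U.filter (fun g => ¬ 7 * gam * n ≤ ((nb Bᶜ g U).card : ℝ)),
        ((nb Bᶜ u (U.filter fun g => ¬ 7 * gam * n ≤ ((nb Bᶜ g U).card : ℝ))).card : ℝ)
          ≤ 8 * gam * n := by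
    intro U hUc hG
    have hc : ((U.filter fun g => 7 * gam * n ≤ ((nb Bᶜ g U).card : ℝ)).card : ℝ) +
        (U.filter fun g => ¬ 7 * gam * n ≤ ((nb Bᶜ g U).card : ℝ)).card = U.card := by
      exact_mod_cast Finset.card_filter_add_card_filter_not _
    constructor
    · push Not at hG
      rw [hgam] at hUc hG hc ⊢
      linarith
    · intro u hu
      have h3 := (Finset.mem_filter.1 hu).2
      have h4 : (nb Bᶜ u (U.filter fun g => ¬ 7 * gam * n ≤ ((nb Bᶜ g U).card : ℝ))).card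
          ≤ (nb Bᶜ u U).card := card_nb_mono _ _ (Finset.filter_subset _ _)
      have h5 : ((nb Bᶜ u (U.filter fun g => ¬ 7 * gam * n ≤ ((nb Bᶜ g U).card : ℝ))).card : ℝ)
          ≤ (nb Bᶜ u U).card := by exact_mod_cast h4
      have h6 : 7 * gam * n ≤ 8 * gam * n := by rw [hgam]; nlinarith
      push Not at h3
      linarith
  by_cases hG2 : 7 * gam * n ≤ ((U₂.filter fun g => 7 * gam * n ≤ ((nb Bᶜ g U₂).card : ℝ)).card : ℝ)
  · exact h1 n hn1 _ B T hT P hP hPc U₁ U₂ hU hU₁ h₁₂ h₂₁ _ (Finset.filter_subset _ _) hG2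
      fun g hg => (Finset.mem_filter.1 hg).2
  · by_cases hG1 : 7 * gam * n ≤
        ((U₁.filter fun g => 7 * gam * n ≤ ((nb Bᶜ g U₁).card : ℝ)).card : ℝ)
    · exact h1 n hn1 _ B T hT P hP hPc U₂ U₁ hU.symm hU₂ h₂₁ h₁₂ _ (Finset.filter_subset _ _) hG1
        fun g hg => (Finset.mem_filter.1 hg).2
    · obtain ⟨ha, hb⟩ := hsplit U₁ hU₁ hG1
      obtain ⟨hc, hd⟩ := hsplit U₂ hU₂ hG2
      exact h2 n m hn2 hmo hm9 hm B T hT hB P hP hPn hPc _ _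
        (hU.mono (Finset.filter_subset _ _) (Finset.filter_subset _ _)) ha hc hb hd

end Pool.Agent.Lib.MP_0e31aa_co.TC
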