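import Pool.Agent.Lib.MP_0e31aa_co.TC.Greedy
import Pool.Agent.Lib.MP_0e31aa_co.TC.Classes

/-! Case D1. -/

set_option autoImplicit false

namespace Pool.Agent.Lib.MP_0e31aa_co.TC

open Finset

theorem case_d1 : ∃ n₀ : ℕ, ∀ n : ℕ, n₀ ≤ n → ∀ (V : Type) [DecidableEq V] (B : SimpleGraph V)
    (T : SimpleGraph (Fin n)), T.IsTree → ∀ P : Finset (Fin n), Bip T P → (P.card : ℝ) ≤ gam * n →
    ∀ U₁ U₂ : Finset V, Disjoint U₁ U₂ → (1 - gam) * n ≤ U₁.card →
    (∀ u ∈ U₁, ((nb B u U₂).card : ℝ) ≤ gam * n) → (∀ u ∈ U₂, ((nb B u U₁).card : ℝ) ≤ gam * n) →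
    ∀ G ⊆ U₂, 7 * gam * n ≤ G.card → (∀ g ∈ G, 7 * gam * n ≤ ((nb Bᶜ g U₂).card : ℝ)) →
    Emb T Bᶜ := by
  refine ⟨10000000, ?_⟩
  intro n hn V _ B T hT P hP hPc U₁ U₂ hU hU1 hB1 hB2 G hG hGc hGd
  have hnR : (10000000 : ℝ) ≤ n := by exact_mod_cast hn

  rw [show gam = (1 / 1000000 : ℝ) from rfl] at *
  have hPne : P.Nonempty := bip_nonempty T hT P hP (by rw [Fintype.card_fin]; omega)
  obtain ⟨r, hr⟩ := hPne
  have hnl := nonleaves T hT P hP ⟨r, hr⟩
  obtain ⟨t, ht1, ht2⟩ : ∃ t : ℕ, 3 * (1 / 1000000 : ℝ) * n ≤ t ∧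
      (t : ℝ) ≤ 3 * (1 / 1000000 : ℝ) * n + 1 := by
    refine ⟨⌈3 * (1 / 1000000 : ℝ) * n⌉₊, Nat.le_ceil _, ?_⟩
    exact (Nat.ceil_lt_add_one (show (0 : ℝ) ≤ 3 * (1 / 1000000 : ℝ) * n by positivity)).le
  -- the leaves in the class of `Q`
  have hleaf : t ≤ (univ.filter fun v => v ∉ P ∧ ¬ 2 ≤ (nb T v univ).card).card := by
    have h1 : (univ.filter fun v => v ∉ P ∧ ¬ 2 ≤ (nb T v univ).card).card +
        (univ.filter fun v => v ∉ P ∧ 2 ≤ (nb T v univ).card).card = Pᶜ.card := by
      have h2 := card_filter_add_card_filter_not (s := Pᶜ) (fun v => 2 ≤ (nb T v univ).card)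
      have h3 : (univ.filter fun v => v ∉ P ∧ ¬ 2 ≤ (nb T v univ).card) =
          Pᶜ.filter (fun v => ¬ 2 ≤ (nb T v univ).card) := by
        ext v; simp
      have h4 : (univ.filter fun v => v ∉ P ∧ 2 ≤ (nb T v univ).card) =
          Pᶜ.filter (fun v => 2 ≤ (nb T v univ).card) := by
        ext v; simp
      rw [h3, h4]
      omega
    have h5 : P.card + Pᶜ.card = n := by rw [card_add_card_compl, Fintype.card_fin]
    have h6 : (t : ℝ) + 2 * P.card ≤ n := by linarith
    have h7 : t + 2 * P.card ≤ n := by exact_mod_cast h6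
    omega
  obtain ⟨L, hLs, hLc⟩ := exists_subset_card_eq hleaf
  have hL : ∀ v ∈ L, v ∉ P ∧ ¬ 2 ≤ (nb T v univ).card := fun v hv => (mem_filter.1 (hLs hv)).2
  let A : Fin n → Finset V := fun v => if v ∈ P then G else if v ∈ L then U₂ else U₁
  have hAP : ∀ v ∈ P, A v = G := fun v hv => by simp [A, hv]
  have hAL : ∀ v ∈ L, A v = U₂ := fun v hv => by simp [A, hv, (hL v hv).1]
  have hAQ : ∀ v, v ∉ P → v ∉ L → A v = U₁ := fun v h1 h2 => by simp [A, h1, h2]
  have hGne : G.Nonempty := by
    rw [← card_pos]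
    have : (0 : ℝ) < G.card := by linarith
    exact_mod_cast this
  have hU1ne : U₁.Nonempty := by
    rw [← card_pos]
    have : (0 : ℝ) < U₁.card := by linarith
    exact_mod_cast this
  -- the three counts
  have hPL : ((P ∪ L).card : ℝ) ≤ 4 * (1 / 1000000 : ℝ) * n + 1 := by
    have h1 : ((P ∪ L).card : ℝ) ≤ P.card + L.card := by exact_mod_cast card_union_le P L
    rw [hLc] at h1
    linarith
  have hcount2 : ∀ S ⊆ U₂, (univ.filter fun w' => ¬ Disjoint (A w') S).card ≤ (P ∪ L).card := by
    intro S hS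
    apply card_le_card
    intro w' hw'
    rw [mem_filter] at hw'
    rw [mem_union]
    by_contra hcon
    push Not at hcon
    apply hw'.2
    rw [hAQ w' hcon.1 hcon.2]
    exact disjoint_of_subset_right hS hU
  have hcount1 : (univ.filter fun w' => ¬ Disjoint (A w') U₁).card ≤ Lᶜ.card := by
    apply card_le_card
    intro w' hw'
    rw [mem_filter] at hw'
    rw [mem_compl]
    intro hcon
    apply hw'.2
    rw [hAL w' hcon]
    exact hU.symm
  have hLcc : (Lᶜ.card : ℝ) = n - t := by
    have h1 : L.card + Lᶜ.card = n := by rw [card_add_card_compl, Fintype.card_fin]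
    have h2 : (L.card : ℝ) + Lᶜ.card = n := by exact_mod_cast h1
    rw [hLc] at h2
    linarith
  obtain ⟨f, hf1, -, hf3⟩ := greedy T hT r Bᶜ A (by
      intro v
      by_cases h1 : v ∈ P
      · rw [hAP v h1]; exact hGne
      · by_cases h2 : v ∈ L
        · rw [hAL v h2]; exact hGne.mono hG
        · rw [hAQ v h1 h2]; exact hU1ne) (by
      intro u v huv hdist y hy
      by_cases hvP : v ∈ P
      · have huP : u ∉ P := (hP v u huv.symm).1 hvP
        have huL : u ∉ L := by
          intro huL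
          have hur : u ≠ r := fun e => huP (e ▸ hr)
          obtain ⟨p, hp1, hp2⟩ := Pool.Agent.Lib.MP_c5b475_co.exists_par hT.connected r u hur
          have hpv : p ≠ v := by
            intro e
            rw [e] at hp2
            omega
          apply (hL u huL).2
          have hsub : ({p, v} : Finset (Fin n)) ⊆ nb T u univ := by
            intro z hz
            rw [mem_insert, mem_singleton] at hz
            rw [mem_nb]
            rcases hz with e | e
            · rw [e]; exact ⟨mem_univ _, hp1⟩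
            · rw [e]; exact ⟨mem_univ _, huv⟩
          have := card_le_card hsub
          rw [card_pair hpv] at this
          exact this
        rw [hAQ u huP huL] at hy
        rw [hAP v hvP]
        refine (hcount2 G hG).trans ?_
        have hyG : y ∉ G := fun h => disjoint_left.1 hU hy (hG h)
        have h1 : ((nb B y G).card : ℝ) + (nb Bᶜ y G).card = G.card := by
          exact_mod_cast card_nb_compl B y G hyG
        have h2 := hB1 y hy
        have h3 : ((nb B y G).card : ℝ) ≤ (nb B y U₂).card := by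
          exact_mod_cast card_nb_mono B y hG
        have : ((P ∪ L).card : ℝ) ≤ ((nb Bᶜ y G).card : ℝ) := by linarith
        exact_mod_cast this
      · have huP : u ∈ P := (hP u v huv).2 hvP
        rw [hAP u huP] at hy
        by_cases hvL : v ∈ L
        · rw [hAL v hvL]
          refine (hcount2 U₂ (Subset.refl _)).trans ?_
          have h1 := hGd y hy
          have : ((P ∪ L).card : ℝ) ≤ ((nb Bᶜ y U₂).card : ℝ) := by linarith
          exact_mod_cast this
        · rw [hAQ v hvP hvL]
          refine hcount1.trans ?_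
          have hyU : y ∉ U₁ := fun h => disjoint_left.1 hU h (hG hy)
          have h1 : ((nb B y U₁).card : ℝ) + (nb Bᶜ y U₁).card = U₁.card := by
            exact_mod_cast card_nb_compl B y U₁ hyU
          have h2 := hB2 y (hG hy)
          have : (Lᶜ.card : ℝ) ≤ ((nb Bᶜ y U₁).card : ℝ) := by
            rw [hLcc]; linarith
          exact_mod_cast this)
  exact ⟨f, hf1, hf3⟩

end Pool.Agent.Lib.MP_0e31aa_co.TC
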