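import Pool.Agent.Lib.MP_0e31aa_co.TC.NearComplete
import Pool.Agent.Lib.MP_0e31aa_co.TC.BipEmb

/-! Exact case: one nearly complete blue block on about `3 n / 2` vertices (module E3). -/

set_option autoImplicit false

namespace Pool.Agent.Lib.MP_0e31aa_co.TC

open Finset

open _root_.TC.NC in
theorem case_e3 : ∃ n₀ : ℕ, ∀ n m : ℕ, n₀ ≤ n → Odd m → 5 ≤ m → 2 * m ≤ 3 * n + 1 →
    ∀ (B : SimpleGraph (Fin (2 * n - 1))) (T : SimpleGraph (Fin n)), T.IsTree → ¬ HasCyc B m →
    ∀ P : Finset (Fin n), Bip T P → 2 * P.card ≤ n → n ≤ 4 * P.card →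
    ∀ H : Finset (Fin (2 * n - 1)), (3 / 2 - 1 / 20) * (n : ℝ) ≤ H.card →
    (∀ h ∈ H, ((nb Bᶜ h H).card : ℝ) ≤ 1 / 100 * n) → Emb T Bᶜ := by
  classical
  refine ⟨1000, ?_⟩
  intro n m hn hm hm5 hmn B T hT hB P hP hP2 hP4 H hHc hH
  have hn' : (1000 : ℝ) ≤ n := by exact_mod_cast hn
  have hmn' : (2 : ℝ) * m ≤ 3 * n + 1 := by exact_mod_cast hmn
  set t : ℕ := ⌊1 / 100 * (n : ℝ)⌋₊ with ht
  have ht0 : (0 : ℝ) ≤ 1 / 100 * n := by positivity
  have ht1 : (t : ℝ) ≤ 1 / 100 * n := Nat.floor_le ht0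
  have hHt : ∀ h ∈ H, (nb Bᶜ h H).card ≤ t := fun h hh => Nat.le_floor (hH h hh)
  have ht2 : 100 * t ≤ n := by
    have : (100 : ℝ) * t ≤ n := by linarith
    exact_mod_cast this
  have hHc2 : 29 * n ≤ 20 * H.card := by
    have : (29 : ℝ) * n ≤ 20 * H.card := by linarith
    exact_mod_cast this
  by_cases hmH : m ≤ H.card
  · exact absurd (nc_cycle B H t hHt (by omega) m (by omega) hmH) hB
  push Not at hmH
  have hNC := nearComplete_of_nb hHt
  -- families of cherries
  let Valid : List (Fin (2 * n - 1) × Fin (2 * n - 1) × Fin (2 * n - 1)) → Prop := fun cs =>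
    (cherryVerts cs).Nodup ∧ ∀ t ∈ cs, t.1 ∈ H ∧ t.2.1 ∉ H ∧ t.2.2 ∈ H ∧ B.Adj t.1 t.2.1 ∧
      B.Adj t.2.1 t.2.2
  have hno : ¬ ∃ cs, Valid cs ∧ cs.length = m - H.card := by
    rintro ⟨cs, ⟨h1, h2⟩, h3⟩
    obtain ⟨l, h4, h5⟩ := cherry_cycle hNC cs h1 h2 (by omega) m (by omega) (by omega)
    exact hB (h5 ▸ hasCyc_of_lcycle h4)
  obtain ⟨r, hr, ⟨cs, hcs, hcsr⟩, hmax⟩ : ∃ r, r < m - H.card ∧
      (∃ cs, Valid cs ∧ cs.length = r) ∧ ¬ ∃ cs, Valid cs ∧ cs.length = r + 1 := by
    by_contra hcon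
    push Not at hcon
    have : ∀ r ≤ m - H.card, ∃ cs, Valid cs ∧ cs.length = r := by
      intro r
      induction r with
      | zero =>
        intro _
        exact ⟨[], ⟨by simp [cherryVerts], by simp⟩, rfl⟩
      | succ r ih =>
        intro hr
        exact hcon r (by omega) (ih (by omega))
    exact hno (this _ le_rfl)
  have hlen3 : (cherryVerts cs).length = 3 * cs.length := by
    clear hcs hcsr
    induction cs with
    | nil => simp [cherryVerts]
    | cons t cs ih =>
      simp only [cherryVerts, List.flatMap_cons, List.length_append, List.length_cons,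
        List.length_nil] at ih ⊢
      omega
  have houtlen : ((cherryVerts cs).toFinset \ H).card ≤ cs.length := by
    have hsub : (cherryVerts cs).toFinset \ H ⊆ (cs.map (fun t => t.2.1)).toFinset := by
      intro z hz
      rw [Finset.mem_sdiff, List.mem_toFinset] at hz
      unfold cherryVerts at hz
      rw [List.mem_flatMap] at hz
      obtain ⟨⟨t, htcs, hzt⟩, hzH⟩ := hz
      rw [List.mem_toFinset, List.mem_map]
      refine ⟨t, htcs, ?_⟩
      have h1 := hcs.2 t htcs
      simp only [List.mem_cons, List.not_mem_nil, or_false] at hzt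
      rcases hzt with rfl | rfl | rfl
      · exact absurd h1.1 hzH
      · rfl
      · exact absurd h1.2.2.1 hzH
    refine (Finset.card_le_card hsub).trans ((List.toFinset_card_le _).trans ?_)
    simp
  set Z : Finset (Fin (2 * n - 1)) := (cherryVerts cs).toFinset with hZ
  have hZc : Z.card ≤ 3 * r := by
    have := List.toFinset_card_le (cherryVerts cs)
    rw [hZ]
    omega
  set V' : Finset (Fin (2 * n - 1)) := univ \ (H ∪ Z) with hV'
  have hV'c : P.card ≤ V'.card := by
    have h1 : V'.card = 2 * n - 1 - (H ∪ Z).card := by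
      rw [hV', Finset.card_sdiff_of_subset (Finset.subset_univ _), Finset.card_univ,
        Fintype.card_fin]
    have h2 : (H ∪ Z).card ≤ H.card + r := by
      have h3 : H ∪ Z = H ∪ (Z \ H) := by simp
      rw [h3]
      refine (Finset.card_union_le _ _).trans ?_
      omega
    omega
  have hone : ∀ v ∈ V', (nb B v (H \ Z)).card ≤ 1 := by
    intro v hv
    rw [hV', Finset.mem_sdiff, Finset.mem_union, not_or] at hv
    obtain ⟨-, hvH, hvZ⟩ := hv
    rw [hZ, List.mem_toFinset] at hvZ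
    by_contra hcon
    push Not at hcon
    obtain ⟨a, ha, b, hb, hab⟩ := Finset.one_lt_card.1 hcon
    rw [mem_nb, Finset.mem_sdiff, hZ, List.mem_toFinset] at ha hb
    apply hmax
    refine ⟨(a, v, b) :: cs, ⟨?_, ?_⟩, by rw [List.length_cons, hcsr]⟩
    · have hcv : cherryVerts ((a, v, b) :: cs) = a :: v :: b :: cherryVerts cs := by
        simp [cherryVerts]
      rw [hcv]
      simp only [List.nodup_cons, List.mem_cons, not_or]
      exact ⟨⟨ha.2.ne', hab, ha.1.2⟩, ⟨hb.2.ne, hvZ⟩, hb.1.2, hcs.1⟩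
    · intro t ht
      rcases List.mem_cons.1 ht with rfl | ht
      · exact ⟨ha.1.1, hvH, hb.1.1, ha.2.symm, hb.2⟩
      · exact hcs.2 t ht
  obtain ⟨A, hAV, hA⟩ := Finset.exists_subset_card_eq hV'c
  set S : Finset (Fin (2 * n - 1)) := (H \ Z) \ A.biUnion (fun a => nb B a (H \ Z)) with hS
  refine emb_complete B T P hP A S ?_ hA.ge ?_ ?_
  · rw [Finset.disjoint_left]
    intro z hz hz'
    have h1 := hAV hz
    rw [hV', Finset.mem_sdiff, Finset.mem_union, not_or] at h1
    rw [hS, Finset.mem_sdiff, Finset.mem_sdiff] at hz'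
    exact h1.2.1 hz'.1.1
  · have h1 : (A.biUnion (fun a => nb B a (H \ Z))).card ≤ P.card := by
      rw [← hA]
      refine Finset.card_biUnion_le.trans ?_
      refine (Finset.sum_le_card_nsmul A _ 1 (fun a ha => hone a (hAV ha))).trans ?_
      simp
    have h2 : (H \ Z).card ≤ S.card + (A.biUnion (fun a => nb B a (H \ Z))).card := by
      have := Finset.le_card_sdiff (A.biUnion (fun a => nb B a (H \ Z))) (H \ Z)
      rw [hS]
      omega
    have h3 : H.card ≤ (H \ Z).card + Z.card := by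
      have := Finset.le_card_sdiff Z H
      omega
    rw [Fintype.card_fin]
    omega
  · intro a ha s hs hadj
    rw [hS, Finset.mem_sdiff] at hs
    exact hs.2 (Finset.mem_biUnion.2 ⟨a, ha, mem_nb.2 ⟨hs.1, hadj⟩⟩)

end Pool.Agent.Lib.MP_0e31aa_co.TC
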