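import Pool.Agent.Lib.MP_0e31aa_co.TC.Defs

/-! No small dense red subgraph, so few red edges (module E2). -/

set_option autoImplicit false

namespace Pool.Agent.Lib.MP_0e31aa_co.TC

open Finset

open Classical in
theorem card_nb_eq_sum {V : Type} (R : SimpleGraph V) (v : V) (S : Finset V) :
    ((nb R v S).card : ℝ) = ∑ u ∈ S, if R.Adj v u then (1 : ℝ) else 0 := by
  unfold nb
  rw [Finset.card_filter]
  push_cast
  rfl

theorem few_red_small {V : Type} [DecidableEq V] (R : SimpleGraph V) (H : Finset V) (n D : ℝ)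
    (h : ∀ S ⊆ H, S.Nonempty → (S.card : ℝ) ≤ 7 / 8 * n → ∃ v ∈ S, ((nb R v S).card : ℝ) < D) :
    ∀ (k : ℕ) (S : Finset V), S.card = k → S ⊆ H → (S.card : ℝ) ≤ 7 / 8 * n →
      ∑ v ∈ S, ((nb R v S).card : ℝ) ≤ 2 * D * S.card := by
  classical
  intro k
  induction k with
  | zero =>
    intro S hS _ _
    rw [Finset.card_eq_zero] at hS
    subst hS
    simp
  | succ k ih =>
    intro S hS hSH hSn
    have hne : S.Nonempty := by
      rw [← Finset.card_pos]; omega
    obtain ⟨v, hv, hvD⟩ := h S hSH hne hSn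
    have h1 : (S.erase v).card = k := by
      rw [Finset.card_erase_of_mem hv, hS]; rfl
    have h2 := ih (S.erase v) h1 ((Finset.erase_subset _ _).trans hSH) (by
      have : ((S.erase v).card : ℝ) ≤ S.card := by
        exact_mod_cast Finset.card_le_card (Finset.erase_subset _ _)
      linarith)
    have h3 : (S.card : ℝ) = (S.erase v).card + 1 := by
      rw [hS, h1]; push_cast; ring
    have h4 : ∑ u ∈ S, ((nb R u S).card : ℝ) =
        ((nb R v S).card : ℝ) + ((nb R v S).card : ℝ) +
          ∑ u ∈ S.erase v, ((nb R u (S.erase v)).card : ℝ) := by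
      rw [← Finset.add_sum_erase S _ hv]
      have h5 : ∀ u ∈ S.erase v, ((nb R u S).card : ℝ) =
          (if R.Adj u v then (1 : ℝ) else 0) + ((nb R u (S.erase v)).card : ℝ) := by
        intro u _
        rw [card_nb_eq_sum, card_nb_eq_sum, ← Finset.add_sum_erase S _ hv]
      rw [Finset.sum_congr rfl h5, Finset.sum_add_distrib, ← add_assoc]
      congr 2
      rw [card_nb_eq_sum, ← Finset.add_sum_erase S _ hv]
      simp only [SimpleGraph.irrefl, if_false, zero_add]
      refine Finset.sum_congr rfl (fun u _ => ?_)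
      simp only [R.adj_comm u v]
    rw [h4, h3]
    nlinarith

theorem few_red {V : Type} [DecidableEq V] (R : SimpleGraph V) (H : Finset V) (n D : ℝ)
    (hn : 100 ≤ n) (hD : 0 ≤ D) (hH : (H.card : ℝ) ≤ 2 * n)
    (h : ∀ S ⊆ H, S.Nonempty → (S.card : ℝ) ≤ 7 / 8 * n → ∃ v ∈ S, ((nb R v S).card : ℝ) < D) :
    ∑ v ∈ H, ((nb R v H).card : ℝ) ≤ 20 * D * n := by
  classical
  -- five parts
  obtain ⟨f, hf⟩ : ∃ f : V → Fin 5, ∀ a, 5 * (H.filter (fun v => f v = a)).card ≤ H.card + 5 := by
    have e := H.equivFin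
    refine ⟨fun v => if hv : v ∈ H then ⟨(e ⟨v, hv⟩).1 % 5, Nat.mod_lt _ (by norm_num)⟩ else 0, ?_⟩
    intro a
    have h1 : (H.filter (fun v => (if hv : v ∈ H then
        (⟨(e ⟨v, hv⟩).1 % 5, Nat.mod_lt _ (by norm_num)⟩ : Fin 5) else 0) = a)).card ≤
        ((range H.card).filter (fun i => i % 5 = a.1)).card := by
      refine Finset.card_le_card_of_injOn
        (fun v => if hv : v ∈ H then (e ⟨v, hv⟩).1 else 0) ?_ ?_
      · intro v hv
        simp only [Finset.coe_filter, Set.mem_ofPred_eq] at hv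
        obtain ⟨hvH, hva⟩ := hv
        simp only [hvH, dif_pos] at hva
        simp only [hvH, dif_pos, Finset.coe_filter, Set.mem_ofPred_eq, Finset.mem_range]
        refine ⟨(e ⟨v, hvH⟩).2, ?_⟩
        rw [← hva]
      · intro v hv w hw hvw
        simp only [Finset.coe_filter, Set.mem_ofPred_eq] at hv hw
        simp only [hv.1, hw.1, dif_pos] at hvw
        have := e.injective (Fin.ext hvw)
        simpa using this
    have h2 : ((range H.card).filter (fun i => i % 5 = a.1)).card ≤ H.card / 5 + 1 := by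
      have h3 := Nat.count_modEq_card H.card (r := 5) (by norm_num) a.1
      rw [Nat.count_eq_card_filter_range] at h3
      have h4 : ((range H.card).filter (fun i => i % 5 = a.1)) =
          ((range H.card).filter (fun i => i ≡ a.1 [MOD 5])) := by
        refine Finset.filter_congr (fun i _ => ?_)
        unfold Nat.ModEq
        rw [Nat.mod_eq_of_lt a.2]
      rw [h4, h3]
      split_ifs <;> omega
    beta_reduce
    omega
  set S : Fin 5 × Fin 5 → Finset V := fun p => H.filter (fun v => f v = p.1 ∨ f v = p.2) with hS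
  have hScard : ∀ p, ((S p).card : ℝ) ≤ 4 / 5 * n + 2 := by
    intro p
    have h1 : (S p).card ≤ (H.filter (fun v => f v = p.1)).card +
        (H.filter (fun v => f v = p.2)).card := by
      rw [hS]
      simp only
      rw [Finset.filter_or]
      exact Finset.card_union_le _ _
    have h2 := hf p.1
    have h3 := hf p.2
    have h4 : 5 * (S p).card ≤ 2 * H.card + 10 := by omega
    have h5 : (5 : ℝ) * (S p).card ≤ 2 * H.card + 10 := by exact_mod_cast h4
    linarith
  set I : Finset (Fin 5 × Fin 5) := univ.filter (fun p => p.1 < p.2) with hI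
  have hIcard : I.card = 10 := by
    rw [hI]; decide
  have hpair : ∀ v ∈ H, ∀ u ∈ H, ∃ p ∈ I, v ∈ S p ∧ u ∈ S p := by
    intro v hv u hu
    have hab : ∀ a b : Fin 5, ∃ p : Fin 5 × Fin 5, p.1 < p.2 ∧ (a = p.1 ∨ a = p.2) ∧
        (b = p.1 ∨ b = p.2) := by decide
    obtain ⟨p, hp, h1, h2⟩ := hab (f v) (f u)
    exact ⟨p, by rw [hI]; simpa using hp, Finset.mem_filter.2 ⟨hv, h1⟩,
      Finset.mem_filter.2 ⟨hu, h2⟩⟩
  have hbound : ∀ p ∈ I, ∑ v ∈ S p, ((nb R v (S p)).card : ℝ) ≤ 2 * D * (4 / 5 * n + 2) := by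
    intro p _
    have h1 := few_red_small R H n D h (S p).card (S p) rfl (Finset.filter_subset _ _) (by
      have := hScard p
      linarith)
    have h2 := hScard p
    nlinarith
  have hmain : ∑ v ∈ H, ((nb R v H).card : ℝ) ≤
      ∑ p ∈ I, ∑ v ∈ S p, ((nb R v (S p)).card : ℝ) := by
    have e1 : ∀ p ∈ I, ∑ v ∈ S p, ((nb R v (S p)).card : ℝ) =
        ∑ v ∈ H, ∑ u ∈ H, if v ∈ S p ∧ u ∈ S p then (if R.Adj v u then (1 : ℝ) else 0) else 0 := by
      intro p _
      have hsub : S p ⊆ H := Finset.filter_subset _ _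
      have e2 : ∀ v ∈ H, (∑ u ∈ H, if v ∈ S p ∧ u ∈ S p then
          (if R.Adj v u then (1 : ℝ) else 0) else 0) =
          if v ∈ S p then ((nb R v (S p)).card : ℝ) else 0 := by
        intro v _
        by_cases hv : v ∈ S p
        · simp only [hv, true_and, if_true]
          rw [card_nb_eq_sum, ← Finset.sum_filter]
          congr 1
          ext u
          simp only [Finset.mem_filter]
          exact ⟨fun h => h.2, fun h => ⟨hsub h, h⟩⟩
        · simp [hv]
      rw [Finset.sum_congr rfl e2, ← Finset.sum_filter]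
      congr 1
      ext u
      simp only [Finset.mem_filter]
      exact ⟨fun h => ⟨hsub h, h⟩, fun h => h.2⟩
    rw [Finset.sum_congr rfl e1, Finset.sum_comm]
    refine Finset.sum_le_sum (fun v hv => ?_)
    rw [Finset.sum_comm, card_nb_eq_sum]
    refine Finset.sum_le_sum (fun u hu => ?_)
    obtain ⟨p, hp, h1, h2⟩ := hpair v hv u hu
    have h3 : (if R.Adj v u then (1 : ℝ) else 0) =
        (if v ∈ S p ∧ u ∈ S p then (if R.Adj v u then (1 : ℝ) else 0) else 0) := by
      simp [h1, h2]
    refine h3.le.trans ?_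
    refine Finset.single_le_sum (f := fun p => if v ∈ S p ∧ u ∈ S p then
      (if R.Adj v u then (1 : ℝ) else 0) else 0) (fun q _ => ?_) hp
    positivity
  have hfin := hmain.trans (Finset.sum_le_card_nsmul I _ _ hbound)
  rw [hIcard] at hfin
  simp only [nsmul_eq_mul] at hfin
  push_cast at hfin
  nlinarith

end Pool.Agent.Lib.MP_0e31aa_co.TC
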