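import Pool.Agent.Lib.MP_0e31aa_co.TC.CaseE1
import Pool.Agent.Lib.MP_0e31aa_co.TC.FewRed
import Pool.Agent.Lib.MP_0e31aa_co.TC.CaseE3

/-! Module EE. -/

set_option autoImplicit false

namespace Pool.Agent.Lib.MP_0e31aa_co.TC

open Finset

theorem case_e : ∃ n₀ : ℕ, ∀ n m : ℕ, n₀ ≤ n → Odd m → 5 ≤ m → 2 * m ≤ 3 * n + 1 →
    ∀ (B : SimpleGraph (Fin (2 * n - 1))) (T : SimpleGraph (Fin n)), T.IsTree → ¬ HasCyc B m →
    ∀ P : Finset (Fin n), Bip T P → 2 * P.card ≤ n → (1 / 2 - gam) * n ≤ P.card →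
    ∀ A H : Finset (Fin (2 * n - 1)), Disjoint A H → (1 / 2 - gam) * n ≤ A.card →
    (3 / 2 - gam) * n ≤ H.card → (∀ a ∈ A, ((nb B a H).card : ℝ) ≤ gam * n) →
    (∀ h ∈ H, ((nb B h A).card : ℝ) ≤ gam * n) → Emb T Bᶜ := by
  classical
  obtain ⟨n₁, h1⟩ := case_e1
  obtain ⟨n₃, h3⟩ := case_e3
  refine ⟨max n₁ (max n₃ 100), fun n m hn hmo hm5 hm B T hT hB P hP hP2 hP3 A H hAH hA hH hAB hHB => ?_⟩
  have hn1 : n₁ ≤ n := le_trans (le_max_left _ _) hn
  have hn3 : n₃ ≤ n := le_trans (le_trans (le_max_left _ _) (le_max_right _ _)) hn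
  have hn100 : 100 ≤ n := le_trans (le_trans (le_max_right _ _) (le_max_right _ _)) hn
  have hn100' : (100 : ℝ) ≤ n := by exact_mod_cast hn100
  by_cases hS : ∃ S ⊆ H, S.Nonempty ∧ (S.card : ℝ) ≤ 7 / 8 * n ∧
      ∀ h ∈ S, 14 * gam * n ≤ ((nb Bᶜ h S).card : ℝ)
  · obtain ⟨S, hSH, hSn, hSc, hSd⟩ := hS
    exact h1 n hn1 _ B T hT P hP hP2 hP3 A H hAH hA hH hAB hHB S hSH hSn hSc hSd
  · push Not at hS
    have hgam : gam = 1 / 1000000 := rfl
    have hHc : (H.card : ℝ) ≤ 2 * n := by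
      have h4 : H.card ≤ 2 * n - 1 := by
        have := Finset.card_le_univ H
        rwa [Fintype.card_fin] at this
      have h5 : H.card ≤ 2 * n := by omega
      exact_mod_cast h5
    have hfew := few_red Bᶜ H n (14 * gam * n) hn100' (by rw [hgam]; positivity) hHc
      (fun S hSH hSn hSc => by
        obtain ⟨v, hv, hv2⟩ := hS S hSH hSn hSc
        exact ⟨v, hv, hv2⟩)
    set Z := H.filter fun h => ¬ ((nb Bᶜ h H).card : ℝ) ≤ 1 / 100 * n with hZ
    set H' := H.filter fun h => ((nb Bᶜ h H).card : ℝ) ≤ 1 / 100 * n with hH'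
    have hc1 : H'.card + Z.card = H.card := Finset.card_filter_add_card_filter_not _
    have hc1' : (H'.card : ℝ) + Z.card = H.card := by exact_mod_cast hc1
    have h2 : (Z.card : ℝ) * (1 / 100 * n) ≤ ∑ a ∈ Z, ((nb Bᶜ a H).card : ℝ) := by
      rw [← nsmul_eq_mul]
      refine Finset.card_nsmul_le_sum Z _ _ fun a ha => ?_
      exact (not_le.1 (Finset.mem_filter.1 ha).2).le
    have h4 : ∑ a ∈ Z, ((nb Bᶜ a H).card : ℝ) ≤ ∑ a ∈ H, ((nb Bᶜ a H).card : ℝ) :=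
      Finset.sum_le_sum_of_subset_of_nonneg (Finset.filter_subset _ _)
        fun _ _ _ => Nat.cast_nonneg _
    have h5 : (Z.card : ℝ) * (1 / 100 * n) ≤ (28 / 1000 * n) * (1 / 100 * n) := by
      calc (Z.card : ℝ) * (1 / 100 * n) ≤ 20 * (14 * gam * n) * n := (h2.trans h4).trans hfew
        _ = (28 / 1000 * n) * (1 / 100 * n) := by rw [hgam]; ring
    have h6 : (Z.card : ℝ) ≤ 28 / 1000 * n := le_of_mul_le_mul_right h5 (by positivity)
    refine h3 n m hn3 hmo hm5 hm B T hT hB P hP hP2 ?_ H' ?_ ?_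
    · have h7 : (n : ℝ) ≤ 4 * P.card := by
        rw [hgam] at hP3
        linarith
      exact_mod_cast h7
    · rw [hgam] at hH
      linarith
    · intro h hh
      have h8 := (Finset.mem_filter.1 hh).2
      have h9 : (nb Bᶜ h H').card ≤ (nb Bᶜ h H).card := card_nb_mono _ _ (Finset.filter_subset _ _)
      have h10 : ((nb Bᶜ h H').card : ℝ) ≤ (nb Bᶜ h H).card := by exact_mod_cast h9
      exact h10.trans h8

end Pool.Agent.Lib.MP_0e31aa_co.TC
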