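import Pool.Agent.Lib.MP_0e31aa_co.TC.Greedy
import Pool.Agent.Lib.MP_0e31aa_co.TC.Classes

/-! Case E1. -/

set_option autoImplicit false

namespace Pool.Agent.Lib.MP_0e31aa_co.TC

open Finset

theorem case_e1 : ∃ n₀ : ℕ, ∀ n : ℕ, n₀ ≤ n → ∀ (V : Type) [DecidableEq V] (B : SimpleGraph V)
    (T : SimpleGraph (Fin n)), T.IsTree → ∀ P : Finset (Fin n), Bip T P → 2 * P.card ≤ n →
    (1 / 2 - gam) * n ≤ P.card →
    ∀ A H : Finset V, Disjoint A H → (1 / 2 - gam) * n ≤ A.card → (3 / 2 - gam) * n ≤ H.card →
    (∀ a ∈ A, ((nb B a H).card : ℝ) ≤ gam * n) → (∀ h ∈ H, ((nb B h A).card : ℝ) ≤ gam * n) →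
    ∀ S ⊆ H, S.Nonempty → (S.card : ℝ) ≤ 7 / 8 * n →
    (∀ h ∈ S, 14 * gam * n ≤ ((nb Bᶜ h S).card : ℝ)) → Emb T Bᶜ := by
  refine ⟨10000000, ?_⟩
  intro n hn V _ B T hT P hP hP2 hPc A H hAH hA hH hBA hBH S hSH hSne hSc hSd
  have hnR : (10000000 : ℝ) ≤ n := by exact_mod_cast hn

  rw [show gam = (1 / 1000000 : ℝ) from rfl] at *
  have hP2R : 2 * (P.card : ℝ) ≤ n := by exact_mod_cast hP2
  obtain ⟨t, ht1, ht2⟩ : ∃ t : ℕ, 3 * (1 / 1000000 : ℝ) * n ≤ t ∧
      (t : ℝ) ≤ 3 * (1 / 1000000 : ℝ) * n + 1 := by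
    refine ⟨⌈3 * (1 / 1000000 : ℝ) * n⌉₊, Nat.le_ceil _, ?_⟩
    exact (Nat.ceil_lt_add_one (show (0 : ℝ) ≤ 3 * (1 / 1000000 : ℝ) * n by positivity)).le
  have hd4 := deg_four T hT P hP
  rw [Fintype.card_fin] at hd4
  have hd4R : 4 * ((P.filter fun v => 4 ≤ (nb T v univ).card).card : ℝ) ≤ n := by
    exact_mod_cast hd4
  have hlow : t ≤ (P.filter fun v => ¬ 4 ≤ (nb T v univ).card).card := by
    have h1 : ((P.filter fun v => 4 ≤ (nb T v univ).card).card : ℝ) +
        (P.filter fun v => ¬ 4 ≤ (nb T v univ).card).card = P.card := by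
      exact_mod_cast card_filter_add_card_filter_not _
    have h2 : (t : ℝ) ≤ ((P.filter fun v => ¬ 4 ≤ (nb T v univ).card).card : ℝ) := by linarith
    exact_mod_cast h2
  obtain ⟨P', hPs, hPc'⟩ := exists_subset_card_eq hlow
  have hP' : ∀ v ∈ P', v ∈ P ∧ (nb T v univ).card ≤ 3 := by
    intro v hv
    have := mem_filter.1 (hPs hv)
    exact ⟨this.1, by omega⟩
  let N' : Finset (Fin n) := P'.biUnion (fun v => nb T v univ)
  have hN'c : N'.card ≤ 3 * t := by
    have h1 : N'.card ≤ ∑ v ∈ P', (nb T v univ).card := card_biUnion_le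
    have h2 : ∑ v ∈ P', (nb T v univ).card ≤ ∑ v ∈ P', 3 := sum_le_sum fun v hv => (hP' v hv).2
    rw [sum_const, smul_eq_mul, hPc'] at h2
    omega
  have hN'Q : ∀ v ∈ N', v ∉ P := by
    intro v hv
    rw [mem_biUnion] at hv
    obtain ⟨u, hu, huv⟩ := hv
    rw [mem_nb] at huv
    exact (hP u v huv.2).1 (hP' u hu).1
  have hN'mem : ∀ u v, u ∈ P' → T.Adj u v → v ∈ N' := by
    intro u v hu huv
    exact mem_biUnion.2 ⟨u, hu, mem_nb.2 ⟨mem_univ _, huv⟩⟩
  let F : Fin n → Finset V := fun v =>
    if v ∈ P' ∪ N' then S else if v ∈ P then A else H \ S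
  have hFS : ∀ v, v ∈ P' ∪ N' → F v = S := fun v hv => by
    simp only [F]; rw [if_pos hv]
  have hFA : ∀ v, v ∉ P' ∪ N' → v ∈ P → F v = A := fun v h1 h2 => by
    simp only [F]; rw [if_neg h1, if_pos h2]
  have hFH : ∀ v, v ∉ P' ∪ N' → v ∉ P → F v = H \ S := fun v h1 h2 => by
    simp only [F]; rw [if_neg h1, if_neg h2]
  have hScard : 14 * (1 / 1000000 : ℝ) * n ≤ S.card := by
    obtain ⟨h, hh⟩ := hSne
    have h1 := hSd h hh
    have h2 : ((nb Bᶜ h S).card : ℝ) ≤ S.card := by exact_mod_cast card_nb_le _ _ _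
    linarith
  have hHS : ((H \ S).card : ℝ) = H.card - S.card := by
    have h1 := card_sdiff_add_card_eq_card hSH
    have h2 : ((H \ S).card : ℝ) + S.card = H.card := by exact_mod_cast h1
    linarith
  have hAne : A.Nonempty := by
    rw [← card_pos]
    have : (0 : ℝ) < A.card := by linarith
    exact_mod_cast this
  have hHSne : (H \ S).Nonempty := by
    rw [← card_pos]
    have : (0 : ℝ) < (H \ S).card := by linarith
    exact_mod_cast this
  have hAS : Disjoint A S := disjoint_of_subset_right hSH hAH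
  have hAHS : Disjoint A (H \ S) := disjoint_of_subset_right sdiff_subset hAH
  have hSHS : Disjoint S (H \ S) := disjoint_sdiff
  -- the counts
  have hcS : (univ.filter fun w' => ¬ Disjoint (F w') S).card ≤ 4 * t := by
    have h1 : (univ.filter fun w' => ¬ Disjoint (F w') S) ⊆ P' ∪ N' := by
      intro w' hw'
      rw [mem_filter] at hw'
      by_contra hcon
      apply hw'.2
      by_cases h2 : w' ∈ P
      · rw [hFA w' hcon h2]; exact hAS
      · rw [hFH w' hcon h2]; exact hSHS.symm
    have h2 := card_le_card h1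
    have h3 := card_union_le P' N'
    omega
  have hcSR : ((univ.filter fun w' => ¬ Disjoint (F w') S).card : ℝ) ≤ 4 * t := by
    exact_mod_cast hcS
  have hcA : (univ.filter fun w' => ¬ Disjoint (F w') A).card + t ≤ P.card := by
    have h1 : (univ.filter fun w' => ¬ Disjoint (F w') A) ⊆ P \ P' := by
      intro w' hw'
      rw [mem_filter] at hw'
      have hnot : w' ∉ P' ∪ N' := by
        intro hcon
        apply hw'.2
        rw [hFS w' hcon]; exact hAS.symm
      rw [mem_sdiff]
      refine ⟨?_, fun h => hnot (mem_union_left _ h)⟩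
      by_contra hcon
      apply hw'.2
      rw [hFH w' hnot hcon]
      exact hAHS.symm
    have h2 := card_le_card h1
    have h3 := card_sdiff_add_card_eq_card (show P' ⊆ P from fun v hv => (hP' v hv).1)
    omega
  have hcAR : ((univ.filter fun w' => ¬ Disjoint (F w') A).card : ℝ) + t ≤ P.card := by
    exact_mod_cast hcA
  have hcH : (univ.filter fun w' => ¬ Disjoint (F w') (H \ S)).card ≤ Pᶜ.card := by
    apply card_le_card
    intro w' hw'
    rw [mem_filter] at hw'
    rw [mem_compl]
    intro hcon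
    apply hw'.2
    by_cases h1 : w' ∈ P' ∪ N'
    · rw [hFS w' h1]; exact hSHS
    · rw [hFA w' h1 hcon]; exact hAHS
  have hPcc : (Pᶜ.card : ℝ) = n - P.card := by
    have h1 : P.card + Pᶜ.card = n := by rw [card_add_card_compl, Fintype.card_fin]
    have h2 : (P.card : ℝ) + Pᶜ.card = n := by exact_mod_cast h1
    linarith
  have hcHR : ((univ.filter fun w' => ¬ Disjoint (F w') (H \ S)).card : ℝ) ≤ n - P.card := by
    rw [← hPcc]; exact_mod_cast hcH
  obtain ⟨r⟩ := hT.connected.nonempty
  obtain ⟨f, hf1, -, hf3⟩ := greedy T hT r Bᶜ F (by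
      intro v
      by_cases h1 : v ∈ P' ∪ N'
      · rw [hFS v h1]; exact hSne
      · by_cases h2 : v ∈ P
        · rw [hFA v h1 h2]; exact hAne
        · rw [hFH v h1 h2]; exact hHSne) (by
      intro u v huv hdist y hy
      by_cases hv1 : v ∈ P' ∪ N'
      · rw [hFS v hv1]
        by_cases hu1 : u ∈ P' ∪ N'
        · rw [hFS u hu1] at hy
          have h1 := hSd y hy
          have : ((univ.filter fun w' => ¬ Disjoint (F w') S).card : ℝ) ≤ (nb Bᶜ y S).card := by
            linarith
          exact_mod_cast this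
        · -- then `v ∈ N'`, so `u ∈ P`
          have hvN : v ∈ N' := by
            rcases mem_union.1 hv1 with h | h
            · exact absurd (mem_union_right _ (hN'mem v u h huv.symm)) hu1
            · exact h
          have huP : u ∈ P := (hP u v huv).2 (hN'Q v hvN)
          rw [hFA u hu1 huP] at hy
          have hyS : y ∉ S := fun h => disjoint_left.1 hAS hy h
          have h1 : ((nb B y S).card : ℝ) + (nb Bᶜ y S).card = S.card := by
            exact_mod_cast card_nb_compl B y S hyS
          have h2 := hBA y hy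
          have h3 : ((nb B y S).card : ℝ) ≤ (nb B y H).card := by
            exact_mod_cast card_nb_mono B y hSH
          have : ((univ.filter fun w' => ¬ Disjoint (F w') S).card : ℝ) ≤ (nb Bᶜ y S).card := by
            linarith
          exact_mod_cast this
      · by_cases hvP : v ∈ P
        · rw [hFA v hv1 hvP]
          have huP : u ∉ P := (hP v u huv.symm).1 hvP
          have hyH : y ∈ H := by
            by_cases hu1 : u ∈ P' ∪ N'
            · rw [hFS u hu1] at hy; exact hSH hy
            · rw [hFH u hu1 huP] at hy; exact (mem_sdiff.1 hy).1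
          have hyA : y ∉ A := fun h => disjoint_left.1 hAH h hyH
          have h1 : ((nb B y A).card : ℝ) + (nb Bᶜ y A).card = A.card := by
            exact_mod_cast card_nb_compl B y A hyA
          have h2 := hBH y hyH
          have : ((univ.filter fun w' => ¬ Disjoint (F w') A).card : ℝ) ≤ (nb Bᶜ y A).card := by
            linarith
          exact_mod_cast this
        · rw [hFH v hv1 hvP]
          have huP : u ∈ P := (hP u v huv).2 hvP
          have hu1 : u ∉ P' ∪ N' := by
            intro h
            rcases mem_union.1 h with h | h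
            · exact hv1 (mem_union_right _ (hN'mem u v h huv))
            · exact hN'Q u h huP
          rw [hFA u hu1 huP] at hy
          have hyH : y ∉ H \ S := fun h => disjoint_left.1 hAHS hy h
          have h1 : ((nb B y (H \ S)).card : ℝ) + (nb Bᶜ y (H \ S)).card = (H \ S).card := by
            exact_mod_cast card_nb_compl B y (H \ S) hyH
          have h2 := hBA y hy
          have h3 : ((nb B y (H \ S)).card : ℝ) ≤ (nb B y H).card := by
            exact_mod_cast card_nb_mono B y sdiff_subset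
          have : ((univ.filter fun w' => ¬ Disjoint (F w') (H \ S)).card : ℝ) ≤
              (nb Bᶜ y (H \ S)).card := by
            linarith
          exact_mod_cast this)
  exact ⟨f, hf1, hf3⟩

end Pool.Agent.Lib.MP_0e31aa_co.TC
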