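import Pool.Agent.Lib.MP_0e31aa_co.TC.Defs

/-! Module CL: deleting the atypical vertices (Markov). -/

set_option autoImplicit false

namespace Pool.Agent.Lib.MP_0e31aa_co.TC

open Finset

theorem clean {V : Type} [DecidableEq V] (B : SimpleGraph V) (A S : Finset V) (τ n : ℝ)
    (hτ : 0 < τ) (hn : 0 < n) (h : ∑ a ∈ A, ((nb B a S).card : ℝ) ≤ τ ^ 2 * n ^ 2) :
    ∃ A' ⊆ A, (A.card : ℝ) - τ * n ≤ A'.card ∧ ∀ a ∈ A', ((nb B a S).card : ℝ) ≤ τ * n := by
  classical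
  refine ⟨A.filter fun a => ((nb B a S).card : ℝ) ≤ τ * n, Finset.filter_subset _ _, ?_,
    fun a ha => (Finset.mem_filter.1 ha).2⟩
  set Z := A.filter fun a => ¬ ((nb B a S).card : ℝ) ≤ τ * n with hZ
  have h1 : (A.filter fun a => ((nb B a S).card : ℝ) ≤ τ * n).card + Z.card = A.card :=
    Finset.card_filter_add_card_filter_not _
  have h1' : ((A.filter fun a => ((nb B a S).card : ℝ) ≤ τ * n).card : ℝ) + Z.card = A.card := by
    exact_mod_cast h1
  have h2 : (Z.card : ℝ) * (τ * n) ≤ ∑ a ∈ Z, ((nb B a S).card : ℝ) := by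
    rw [← nsmul_eq_mul]
    refine Finset.card_nsmul_le_sum Z _ _ fun a ha => ?_
    have := (Finset.mem_filter.1 ha).2
    exact (not_le.1 this).le
  have h3 : ∑ a ∈ Z, ((nb B a S).card : ℝ) ≤ ∑ a ∈ A, ((nb B a S).card : ℝ) :=
    Finset.sum_le_sum_of_subset_of_nonneg (Finset.filter_subset _ _) fun _ _ _ => Nat.cast_nonneg _
  have h4 : (Z.card : ℝ) * (τ * n) ≤ (τ * n) * (τ * n) := by nlinarith
  have h5 : (Z.card : ℝ) ≤ τ * n := le_of_mul_le_mul_right h4 (by positivity)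
  linarith

end Pool.Agent.Lib.MP_0e31aa_co.TC
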