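import Pool.Agent.Lib.MP_0e31aa_co.TC.Defs
import Pool.Agent.Lib.MP_0e31aa_co.WalkCap

set_option autoImplicit false

/-!
# Closed walks of every odd length with bounded visits
-/

namespace Pool.Agent.Lib.MP_0e31aa_co.TC

open Finset

/-! ### CW : closed walks of every odd length with bounded visits -/
theorem closed_walk {K : Type} [Fintype K] [DecidableEq K] (Γ : SimpleGraph K) (r : K)
    (p : Γ.Walk r r) (hp : Odd p.length) (hp2 : p.length ≤ 2 * Fintype.card K) (D : Finset K)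
    (σ : K → K) (hσ : Set.InjOn σ D) (hadj : ∀ v ∈ D, Γ.Adj v (σ v))
    (hreach : ∀ v ∈ D, Γ.Reachable r v) (t m : ℕ) (hm : Odd m)
    (hm1 : 2 * Fintype.card K + 2 * Fintype.card K ^ 2 ≤ m) (hm2 : m ≤ 2 * D.card * t) :
    ∃ w : ℕ → K, (∀ i < m, Γ.Adj (w i) (w (i + 1))) ∧ w m = w 0 ∧
      ∀ j, ((range m).filter fun i => w i = j).card
        ≤ 2 * t + 2 * Fintype.card K + 2 * Fintype.card K ^ 2 := by
  have _ := hp2
  have e1 : 2 * Fintype.card K * (Fintype.card K + 1) =
      2 * Fintype.card K + 2 * Fintype.card K ^ 2 := by ring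
  have e2 : 2 * t * D.card = 2 * D.card * t := by ring
  obtain ⟨w, hw, hc⟩ := walk_cap' Γ σ D hσ hadj hreach t m p (by
    rw [Nat.odd_iff.mp hp, Nat.odd_iff.mp hm]) (by rw [e1]; exact hm1) (by rw [e2]; exact hm2)
  refine ⟨w.getVert, ?_, ?_, ?_⟩
  · intro i hi
    exact w.adj_getVert_succ (by rw [hw]; exact hi)
  · rw [← hw, w.getVert_length, w.getVert_zero]
  · intro j
    have h1 := hc j
    have h2 := count_getVert w j
    rw [hw] at h2
    rw [e1] at h1
    omega

end Pool.Agent.Lib.MP_0e31aa_co.TC
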