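import Mathlib

/-!
# Tree versus odd cycle Ramsey numbers: definitions and basic facts

`B` is the blue graph, `Bᶜ` the red graph.
-/

set_option autoImplicit false

namespace Pool.Agent.Lib.MP_0e31aa_co.TC

open Finset

variable {V W : Type}

open Classical in
/-- The neighbours of `v` in `S`. -/
noncomputable def nb (G : SimpleGraph V) (v : V) (S : Finset V) : Finset V :=
  S.filter (fun u => G.Adj v u)

theorem mem_nb {G : SimpleGraph V} {v u : V} {S : Finset V} :
    u ∈ nb G v S ↔ u ∈ S ∧ G.Adj v u := by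
  classical
  unfold nb; rw [Finset.mem_filter]

theorem nb_subset (G : SimpleGraph V) (v : V) (S : Finset V) : nb G v S ⊆ S := fun _ hu =>
  (mem_nb.1 hu).1

theorem nb_mono (G : SimpleGraph V) (v : V) {S S' : Finset V} (h : S ⊆ S') :
    nb G v S ⊆ nb G v S' := fun _ hu => mem_nb.2 ⟨h (mem_nb.1 hu).1, (mem_nb.1 hu).2⟩

theorem card_nb_mono (G : SimpleGraph V) (v : V) {S S' : Finset V} (h : S ⊆ S') :
    (nb G v S).card ≤ (nb G v S').card := Finset.card_le_card (nb_mono G v h)

theorem card_nb_le (G : SimpleGraph V) (v : V) (S : Finset V) : (nb G v S).card ≤ S.card :=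
  Finset.card_le_card (nb_subset G v S)

theorem card_nb_sdiff [DecidableEq V] (G : SimpleGraph V) (v : V) (S Z : Finset V) :
    (nb G v S).card ≤ (nb G v (S \ Z)).card + Z.card := by
  have h : nb G v S ⊆ nb G v (S \ Z) ∪ Z := by
    intro u hu
    rw [Finset.mem_union]
    by_cases hz : u ∈ Z
    · exact Or.inr hz
    · exact Or.inl (mem_nb.2 ⟨Finset.mem_sdiff.2 ⟨(mem_nb.1 hu).1, hz⟩, (mem_nb.1 hu).2⟩)
  exact (Finset.card_le_card h).trans (Finset.card_union_le _ _)

theorem card_nb_compl (G : SimpleGraph V) (v : V) (S : Finset V) (hv : v ∉ S) :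
    (nb G v S).card + (nb Gᶜ v S).card = S.card := by
  classical
  have h : nb Gᶜ v S = S.filter (fun u => ¬ G.Adj v u) := by
    ext u
    rw [mem_nb, Finset.mem_filter, SimpleGraph.compl_adj]
    constructor
    · rintro ⟨h1, _, h3⟩; exact ⟨h1, h3⟩
    · rintro ⟨h1, h2⟩; exact ⟨h1, fun he => hv (he ▸ h1), h2⟩
  rw [h]
  unfold nb
  exact Finset.card_filter_add_card_filter_not _

theorem card_nb_compl_mem (G : SimpleGraph V) (v : V) (S : Finset V) (hv : v ∈ S) :
    (nb G v S).card + (nb Gᶜ v S).card + 1 = S.card := by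
  classical
  have h := card_nb_compl G v (S.erase v) (Finset.notMem_erase v S)
  have h1 : nb G v (S.erase v) = nb G v S := by
    ext u
    rw [mem_nb, mem_nb, Finset.mem_erase]
    exact ⟨fun h => ⟨h.1.2, h.2⟩, fun h => ⟨⟨h.2.ne', h.1⟩, h.2⟩⟩
  have h2 : nb Gᶜ v (S.erase v) = nb Gᶜ v S := by
    ext u
    rw [mem_nb, mem_nb, Finset.mem_erase]
    exact ⟨fun h => ⟨h.1.2, h.2⟩, fun h => ⟨⟨h.2.ne', h.1⟩, h.2⟩⟩
  rw [h1, h2] at h
  rw [h, Finset.card_erase_of_mem hv]
  have := Finset.card_pos.2 ⟨v, hv⟩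
  omega

theorem card_le_nb (G : SimpleGraph V) (v : V) (S : Finset V) :
    S.card ≤ (nb G v S).card + (nb Gᶜ v S).card + 1 := by
  by_cases hv : v ∈ S
  · exact (card_nb_compl_mem G v S hv).ge
  · have := card_nb_compl G v S hv; omega

/-- `T` embeds in `R`. -/
def Emb (T : SimpleGraph W) (R : SimpleGraph V) : Prop :=
  ∃ f : W → V, Function.Injective f ∧ ∀ u v, T.Adj u v → R.Adj (f u) (f v)

/-- `G` contains a cycle on exactly `m` vertices (used for `m ≥ 3`). -/
def HasCyc (G : SimpleGraph V) (m : ℕ) : Prop :=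
  ∃ l : List V, l.length = m ∧ l.IsChain G.Adj ∧ l.Nodup ∧
    ∃ h : l ≠ [], G.Adj (l.getLast h) (l.head h)

/-- There is a path of `G` inside `U` from `a` to `b` with exactly `l` vertices. -/
def Pth (G : SimpleGraph V) (U : Finset V) (a b : V) (m : ℕ) : Prop :=
  ∃ l : List V, l.length = m ∧ l.IsChain G.Adj ∧ l.Nodup ∧ (∀ x ∈ l, x ∈ U) ∧
    ∃ h : l ≠ [], l.head h = a ∧ l.getLast h = b

theorem Pth.single (G : SimpleGraph V) {U : Finset V} {a : V} (ha : a ∈ U) : Pth G U a a 1 :=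
  ⟨[a], rfl, List.isChain_singleton a, List.nodup_singleton a, by simpa using ha,
    List.cons_ne_nil _ _, rfl, rfl⟩

theorem Pth.mono {G : SimpleGraph V} {U U' : Finset V} {a b : V} {m : ℕ} (h : Pth G U a b m)
    (hU : U ⊆ U') : Pth G U' a b m := by
  obtain ⟨l, h1, h2, h3, h4, h5⟩ := h
  exact ⟨l, h1, h2, h3, fun x hx => hU (h4 x hx), h5⟩

theorem Pth.append [DecidableEq V] {G : SimpleGraph V} {U U' : Finset V} {a b c d : V} {m m' : ℕ}
    (h : Pth G U a b m) (h' : Pth G U' c d m') (hd : Disjoint U U') (hbc : G.Adj b c) :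
    Pth G (U ∪ U') a d (m + m') := by
  obtain ⟨l, h1, h2, h3, h4, h5, h6, h7⟩ := h
  obtain ⟨l', h1', h2', h3', h4', h5', h6', h7'⟩ := h'
  refine ⟨l ++ l', by rw [List.length_append, h1, h1'], ?_, ?_, ?_, by simp [h5], ?_, ?_⟩
  · rw [List.isChain_append]
    refine ⟨h2, h2', ?_⟩
    intro x hx y hy
    rw [List.getLast?_eq_getLast_of_ne_nil h5] at hx
    rw [List.head?_eq_some_head h5'] at hy
    simp only [Option.mem_def, Option.some.injEq] at hx hy
    rw [← hx, ← hy, h7, h6']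
    exact hbc
  · rw [List.nodup_append]
    refine ⟨h3, h3', ?_⟩
    intro x hx y hy hxy
    subst hxy
    exact (Finset.disjoint_left.1 hd (h4 x hx)) (h4' x hy)
  · intro x hx
    rcases List.mem_append.1 hx with hx | hx
    · exact Finset.mem_union_left _ (h4 x hx)
    · exact Finset.mem_union_right _ (h4' x hx)
  · rw [List.head_append_of_ne_nil h5, h6]
  · rw [List.getLast_append_of_right_ne_nil _ _ h5', h7']

theorem Pth.symm {G : SimpleGraph V} {U : Finset V} {a b : V} {m : ℕ} (h : Pth G U a b m) :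
    Pth G U b a m := by
  obtain ⟨l, h1, h2, h3, h4, h5, h6, h7⟩ := h
  refine ⟨l.reverse, by rw [List.length_reverse, h1], ?_, List.nodup_reverse.2 h3, ?_, ?_, ?_, ?_⟩
  · rw [List.isChain_reverse]
    exact h2.imp fun x y hxy => hxy.symm
  · intro x hx
    exact h4 x (List.mem_reverse.1 hx)
  · simpa using h5
  · rw [List.head_reverse, h7]
  · rw [List.getLast_reverse, h6]

theorem Pth.cyc {G : SimpleGraph V} {U : Finset V} {a b : V} {m : ℕ} (h : Pth G U a b m)
    (hab : G.Adj b a) : HasCyc G m := by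
  obtain ⟨l, h1, h2, h3, h4, h5, h6, h7⟩ := h
  exact ⟨l, h1, h2, h3, h5, by rw [h6, h7]; exact hab⟩

theorem Pth.left_mem {G : SimpleGraph V} {U : Finset V} {a b : V} {m : ℕ} (h : Pth G U a b m) :
    a ∈ U := by
  obtain ⟨l, h1, h2, h3, h4, h5, h6, h7⟩ := h
  exact h6 ▸ h4 _ (List.head_mem h5)

theorem Pth.right_mem {G : SimpleGraph V} {U : Finset V} {a b : V} {m : ℕ} (h : Pth G U a b m) :
    b ∈ U := h.symm.left_mem

/-- `P` is one class of the bipartition of `T`. -/
def Bip (T : SimpleGraph W) (P : Finset W) : Prop := ∀ u v, T.Adj u v → (u ∈ P ↔ v ∉ P)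

/-- No edges of `G` between `A` and `S` (also used with `A = S`). -/
def NoE (G : SimpleGraph V) (A S : Finset V) : Prop := ∀ a ∈ A, ∀ s ∈ S, ¬ G.Adj a s

/-- The small constant of the near extremal cases. -/
noncomputable def gam : ℝ := 1 / 1000000

end Pool.Agent.Lib.MP_0e31aa_co.TC
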