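import Pool.Agent.Lib.MP_0e31aa_co.TC.Defs
import Pool.Agent.Lib.MP_c5b475_co.Rooted

/-! Greedy embedding of a tree into prescribed regions. -/

set_option autoImplicit false

namespace Pool.Agent.Lib.MP_0e31aa_co.TC

open Finset
open Pool.Agent.Lib.MP_c5b475_co (RT exists_RT)

theorem greedy {W V : Type} [Fintype W] [DecidableEq W] [DecidableEq V] (T : SimpleGraph W)
    (hT : T.IsTree) (r : W) (R : SimpleGraph V) (A : W → Finset V) (hr : ∀ w, (A w).Nonempty)
    (h : ∀ u v, T.Adj u v → T.dist r v = T.dist r u + 1 → ∀ x ∈ A u,
      (univ.filter fun w => ¬ Disjoint (A w) (A v)).card ≤ (nb R x (A v)).card) :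
    ∃ f : W → V, Function.Injective f ∧ (∀ w, f w ∈ A w) ∧ ∀ u v, T.Adj u v → R.Adj (f u) (f v) := by
  obtain ⟨D, hc, hdep⟩ := exists_RT hT r
  subst hc
  have key : ∀ k : ℕ, k + 1 ≤ Fintype.card W → ∃ F : Finset W, F.card = k + 1 ∧ D.c ∈ F ∧
      (∀ u ∈ F, u ≠ D.c → D.par u ∈ F) ∧ ∃ f : W → V, Set.InjOn f (F : Set W) ∧
      (∀ u ∈ F, f u ∈ A u) ∧ ∀ u ∈ F, u ≠ D.c → R.Adj (f (D.par u)) (f u) := by
    intro k
    induction k with
    | zero =>
      intro _
      obtain ⟨y, hy⟩ := hr D.c
      refine ⟨{D.c}, by simp, by simp, ?_, fun _ => y, ?_, ?_, ?_⟩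
      · intro u hu hne
        exact absurd (mem_singleton.1 hu) hne
      · intro a ha b hb _
        simp only [coe_singleton, Set.mem_singleton_iff] at ha hb
        rw [ha, hb]
      · intro u hu
        rw [mem_singleton.1 hu]
        exact hy
      · intro u hu hne
        exact absurd (mem_singleton.1 hu) hne
    | succ k ih =>
      intro hk
      obtain ⟨F, hF, hcF, hpF, f, hinj, hfS, hadj⟩ := ih (by omega)
      have hne : (univ \ F : Finset W).Nonempty := by
        rw [← card_pos, card_sdiff_of_subset (subset_univ _), card_univ]
        omega
      obtain ⟨u, hu, humin⟩ := exists_min_image (univ \ F) D.dep hne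
      have huF : u ∉ F := (mem_sdiff.1 hu).2
      have hur : u ≠ D.c := fun e => huF (e ▸ hcF)
      have hdp : D.dep (D.par u) + 1 = D.dep u := D.dep_par u hur
      have hpu : D.par u ∈ F := by
        by_contra hcon
        have := humin (D.par u) (by simp [hcon])
        omega
      have hadjT : T.Adj (D.par u) u := (D.adj_par hur).symm
      have hdist : T.dist D.c u = T.dist D.c (D.par u) + 1 := by
        rw [← hdep]; omega
      have hmain := h (D.par u) u hadjT hdist (f (D.par u)) (hfS _ hpu)
      set x := f (D.par u) with hx
      let used : Finset V := (F.filter (fun w => ¬ Disjoint (A w) (A u))).image f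
      have hused : used.card + 1 ≤ (univ.filter fun w => ¬ Disjoint (A w) (A u)).card := by
        have h1 : used.card ≤ (F.filter (fun w => ¬ Disjoint (A w) (A u))).card := card_image_le
        have h2 : (F.filter (fun w => ¬ Disjoint (A w) (A u))).card <
            (univ.filter fun w => ¬ Disjoint (A w) (A u)).card := by
          apply card_lt_card
          refine ⟨?_, ?_⟩
          · intro w hw
            simp only [mem_filter, mem_univ, true_and] at hw ⊢
            exact hw.2
          · intro hsub
            have hself : ¬ Disjoint (A u) (A u) := by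
              intro hd
              have := (disjoint_self_iff_empty _).1 hd
              obtain ⟨z, hz⟩ := hr u
              rw [this] at hz
              exact absurd hz (notMem_empty z)
            have := hsub (show u ∈ univ.filter (fun w => ¬ Disjoint (A w) (A u)) by
              simp only [mem_filter, mem_univ, true_and]; exact hself)
            exact huF (mem_filter.1 this).1
        omega
      have hex : ∃ y ∈ nb R x (A u), y ∉ used := by
        by_contra hcon
        push Not at hcon
        have h1 := card_le_card (show nb R x (A u) ⊆ used from hcon)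
        omega
      obtain ⟨y, hyn, hyu⟩ := hex
      rw [mem_nb] at hyn
      obtain ⟨hyS, hRxy⟩ := hyn
      have hclass : ∀ w ∈ F, f w = y → False := by
        intro w hw hfw
        have h1 : f w ∈ A w := hfS w hw
        rw [hfw] at h1
        have h2 : ¬ Disjoint (A w) (A u) := by
          intro hd
          exact disjoint_left.1 hd h1 hyS
        exact hyu (mem_image.2 ⟨w, mem_filter.2 ⟨hw, h2⟩, hfw⟩)
      refine ⟨insert u F, ?_, mem_insert_of_mem hcF, ?_, Function.update f u y, ?_, ?_, ?_⟩
      · rw [card_insert_of_notMem huF, hF]
      · intro v hv hvc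
        rcases mem_insert.1 hv with e | hvF
        · rw [e]; exact mem_insert_of_mem hpu
        · exact mem_insert_of_mem (hpF v hvF hvc)
      · intro a ha b hb hab
        rw [mem_coe, mem_insert] at ha hb
        rcases ha with e | haF
        · rcases hb with e' | hbF
          · rw [e, e']
          · exfalso
            have hbu : b ≠ u := fun e2 => huF (e2 ▸ hbF)
            rw [e, Function.update_self, Function.update_of_ne hbu] at hab
            exact hclass b hbF hab.symm
        · have hau : a ≠ u := fun e2 => huF (e2 ▸ haF)
          rcases hb with e' | hbF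
          · exfalso
            rw [e', Function.update_self, Function.update_of_ne hau] at hab
            exact hclass a haF hab
          · have hbu : b ≠ u := fun e2 => huF (e2 ▸ hbF)
            rw [Function.update_of_ne hau, Function.update_of_ne hbu] at hab
            exact hinj haF hbF hab
      · intro v hv
        rcases mem_insert.1 hv with e | hvF
        · rw [e, Function.update_self]; exact hyS
        · have hvu : v ≠ u := fun e2 => huF (e2 ▸ hvF)
          rw [Function.update_of_ne hvu]
          exact hfS v hvF
      · intro v hv hvc
        have hpne : D.par u ≠ u := by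
          intro e2
          apply huF
          rw [← e2]
          exact hpu
        rcases mem_insert.1 hv with e | hvF
        · rw [e, Function.update_self, Function.update_of_ne hpne]
          exact hRxy
        · have hvu : v ≠ u := fun e2 => huF (e2 ▸ hvF)
          have hpv : D.par v ≠ u := fun e2 => huF (e2 ▸ hpF v hvF hvc)
          rw [Function.update_of_ne hvu, Function.update_of_ne hpv]
          exact hadj v hvF hvc
  have hpos : 0 < Fintype.card W := Fintype.card_pos_iff.2 ⟨D.c⟩
  obtain ⟨F, hF, -, -, f, hinj, hfS, hadj⟩ := key (Fintype.card W - 1) (by omega)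
  have hFu : F = univ := by
    apply (card_eq_iff_eq_univ F).1
    omega
  subst hFu
  refine ⟨f, ?_, fun w => hfS w (mem_univ _), ?_⟩
  · intro a b hab
    exact hinj (by simp) (by simp) hab
  · intro u v huv
    rcases (D.adj_iff u v).1 huv with ⟨h1, h2⟩ | ⟨h1, h2⟩
    · rw [h2]
      exact (hadj u (mem_univ _) h1).symm
    · rw [h2]
      exact hadj v (mem_univ _) h1

end Pool.Agent.Lib.MP_0e31aa_co.TC
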