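import Pool.Agent.Lib.MP_0e31aa_co.TC.Defs

/-!
# Hall with deficiency on the double cover of a graph
-/

set_option autoImplicit false

namespace Pool.Agent.Lib.MP_0e31aa_co.TC

open Finset

/-! ### HD : Hall with deficiency on the double cover -/
theorem hall_def {K : Type} [Fintype K] [DecidableEq K] (Γ : SimpleGraph K) (C : Finset K)
    (hC : ∀ u ∈ C, ∀ v, Γ.Adj u v → v ∈ C) :
    ∃ (I D S : Finset K) (σ : K → K), I ⊆ C ∧ S ⊆ C ∧ NoE Γ I I ∧ (∀ v, v ∈ S ↔ ∃ u ∈ I, Γ.Adj u v) ∧
      D ⊆ C ∧ Set.InjOn σ D ∧ (∀ v ∈ D, Γ.Adj v (σ v)) ∧ C.card + S.card ≤ D.card + I.card := by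
  classical
  let N : Finset K → Finset K := fun X => univ.filter fun v => ∃ u ∈ X, Γ.Adj u v
  have hN : ∀ X v, v ∈ N X ↔ ∃ u ∈ X, Γ.Adj u v := fun X v => by simp [N]
  obtain ⟨X, hX, hmax⟩ := Finset.exists_max_image C.powerset
    (fun X => (X.card : ℤ) - ((N X).card : ℤ)) ⟨∅, Finset.empty_mem_powerset C⟩
  rw [Finset.mem_powerset] at hX
  have hmax' : ∀ A ⊆ C, (A.card : ℤ) - ((N A).card : ℤ) ≤ (X.card : ℤ) - ((N X).card : ℤ) :=
    fun A hA => hmax A (Finset.mem_powerset.2 hA)
  have hle : (N X).card ≤ X.card := by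
    have h := hmax' ∅ (Finset.empty_subset C)
    have h2 : N ∅ = ∅ := by
      ext v; rw [hN]; simp
    rw [h2] at h
    simp only [Finset.card_empty, Nat.cast_zero, sub_zero] at h
    omega
  obtain ⟨e, he⟩ : ∃ e, e = X.card - (N X).card := ⟨_, rfl⟩
  -- Hall
  let t : {v // v ∈ C} → Finset (K ⊕ Fin e) := fun v =>
    (N {v.1}).image Sum.inl ∪ univ.image Sum.inr
  have ht : ∀ (v : {v // v ∈ C}) (w : K), Sum.inl w ∈ t v ↔ Γ.Adj v.1 w := by
    intro v w
    simp [t, hN]
  have hHall : ∀ s : Finset {v // v ∈ C}, s.card ≤ (s.biUnion t).card := by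
    intro s
    rcases s.eq_empty_or_nonempty with rfl | hs
    · simp
    · let A : Finset K := s.image Subtype.val
      have hAC : A ⊆ C := by
        intro v hv
        obtain ⟨u, _, rfl⟩ := Finset.mem_image.1 hv
        exact u.2
      have hAcard : A.card = s.card := Finset.card_image_of_injective _ Subtype.val_injective
      have hsub : (N A).image Sum.inl ∪ (univ : Finset (Fin e)).image Sum.inr ⊆ s.biUnion t := by
        intro y hy
        rw [Finset.mem_biUnion]
        rcases Finset.mem_union.1 hy with hy | hy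
        · obtain ⟨w, hw, rfl⟩ := Finset.mem_image.1 hy
          obtain ⟨u, hu, huw⟩ := (hN A w).1 hw
          obtain ⟨u', hu', rfl⟩ := Finset.mem_image.1 hu
          exact ⟨u', hu', (ht u' w).2 huw⟩
        · obtain ⟨u, hu⟩ := hs
          exact ⟨u, hu, Finset.mem_union_right _ hy⟩
      have hcard : ((N A).image Sum.inl ∪ (univ : Finset (Fin e)).image Sum.inr).card
          = (N A).card + e := by
        rw [Finset.card_union_of_disjoint, Finset.card_image_of_injective _ Sum.inl_injective,
          Finset.card_image_of_injective _ Sum.inr_injective, Finset.card_univ, Fintype.card_fin]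
        rw [Finset.disjoint_left]
        intro y hy hy'
        obtain ⟨w, _, rfl⟩ := Finset.mem_image.1 hy
        obtain ⟨w', _, h⟩ := Finset.mem_image.1 hy'
        exact absurd h (by simp)
      have h1 := Finset.card_le_card hsub
      rw [hcard] at h1
      have h2 := hmax' A hAC
      omega
  obtain ⟨f, hf, hft⟩ := (Finset.all_card_le_biUnion_card_iff_exists_injective t).1 hHall
  -- the sets
  let σ : K → K := fun v => if h : v ∈ C then (f ⟨v, h⟩).elim id (fun _ => v) else v
  let D : Finset K := C.filter fun v => ∃ (h : v ∈ C) (w : K), f ⟨v, h⟩ = Sum.inl w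
  have hσ : ∀ (v : K) (h : v ∈ C) (w : K), f ⟨v, h⟩ = Sum.inl w → σ v = w := by
    intro v h w hw
    simp only [σ, h, dif_pos, hw, Sum.elim_inl, id]
  have hD : ∀ v ∈ D, ∃ (h : v ∈ C) (w : K), f ⟨v, h⟩ = Sum.inl w := fun v hv =>
    (Finset.mem_filter.1 hv).2
  have hDcard : C.card ≤ D.card + e := by
    have h1 : (C.filter fun v => ¬ ∃ (h : v ∈ C) (w : K), f ⟨v, h⟩ = Sum.inl w).card ≤ e := by
      have : (C.filter fun v => ¬ ∃ (h : v ∈ C) (w : K), f ⟨v, h⟩ = Sum.inl w).card
          ≤ (univ : Finset (Fin e)).card := by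
        refine Finset.card_le_card_of_injOn
          (fun v => if h : v ∈ C then (f ⟨v, h⟩).elim (fun _ => none) some else none)
          (t := (univ : Finset (Fin e)).image some) ?_ ?_ |>.trans ?_
        · intro v hv
          obtain ⟨hv1, hv2⟩ := Finset.mem_filter.1 hv
          simp only [hv1, dif_pos]
          cases hfv : f ⟨v, hv1⟩ with
          | inl w => exact absurd ⟨hv1, w, hfv⟩ hv2
          | inr i => simp
        · intro v hv v' hv' hvv'
          obtain ⟨hv1, hv2⟩ := Finset.mem_filter.1 hv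
          obtain ⟨hv1', hv2'⟩ := Finset.mem_filter.1 hv'
          simp only [hv1, hv1', dif_pos] at hvv'
          cases hfv : f ⟨v, hv1⟩ with
          | inl w => exact absurd ⟨hv1, w, hfv⟩ hv2
          | inr i =>
            cases hfv' : f ⟨v', hv1'⟩ with
            | inl w => exact absurd ⟨hv1', w, hfv'⟩ hv2'
            | inr i' =>
              rw [hfv, hfv'] at hvv'
              simp only [Sum.elim_inr, Option.some.injEq] at hvv'
              have := hf (hfv.trans ((congrArg Sum.inr hvv').trans hfv'.symm))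
              exact congrArg Subtype.val this
        · exact Finset.card_image_le
      simpa using this
    have h2 := Finset.card_filter_add_card_filter_not (s := C)
      (fun v => ∃ (h : v ∈ C) (w : K), f ⟨v, h⟩ = Sum.inl w)
    have h3 : D.card = (C.filter fun v => ∃ (h : v ∈ C) (w : K), f ⟨v, h⟩ = Sum.inl w).card := rfl
    omega
  obtain ⟨I, hI⟩ : ∃ I, I = X \ N X := ⟨_, rfl⟩
  have hIX : I ⊆ X := by rw [hI]; exact Finset.sdiff_subset
  have hdisj : Disjoint (N I) (X ∩ N X) := by
    rw [Finset.disjoint_left]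
    intro v hv hv'
    obtain ⟨u, hu, huv⟩ := (hN I v).1 hv
    have hvX := (Finset.mem_inter.1 hv').1
    rw [hI] at hu
    exact (Finset.mem_sdiff.1 hu).2 ((hN X u).2 ⟨v, hvX, huv.symm⟩)
  have hsubN : N I ∪ (X ∩ N X) ⊆ N X := by
    apply Finset.union_subset _ Finset.inter_subset_right
    intro v hv
    obtain ⟨u, hu, huv⟩ := (hN I v).1 hv
    exact (hN X v).2 ⟨u, hIX hu, huv⟩
  have hcard1 : (N I).card + (X ∩ N X).card ≤ (N X).card := by
    rw [← Finset.card_union_of_disjoint hdisj]
    exact Finset.card_le_card hsubN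
  have hcard2 : I.card + (X ∩ N X).card = X.card := by
    rw [hI]
    exact Finset.card_sdiff_add_card_inter X (N X)
  refine ⟨I, D, N I, σ, hIX.trans hX, ?_, ?_, hN I, Finset.filter_subset _ _, ?_, ?_, by omega⟩
  · intro v hv
    obtain ⟨u, hu, huv⟩ := (hN I v).1 hv
    exact hC u (hX (hIX hu)) v huv
  · intro a ha s hs has
    have hs' : s ∈ N X := (hN X s).2 ⟨a, hIX ha, has⟩
    rw [hI] at hs
    exact (Finset.mem_sdiff.1 hs).2 hs'
  · intro v hv v' hv' hvv'
    obtain ⟨h, w, hw⟩ := hD v hv
    obtain ⟨h', w', hw'⟩ := hD v' hv'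
    rw [hσ v h w hw, hσ v' h' w' hw'] at hvv'
    have := hf (hw.trans ((congrArg Sum.inl hvv').trans hw'.symm))
    exact congrArg Subtype.val this
  · intro v hv
    obtain ⟨h, w, hw⟩ := hD v hv
    rw [hσ v h w hw]
    have := hft ⟨v, h⟩
    rw [hw] at this
    exact (ht _ _).1 this

end Pool.Agent.Lib.MP_0e31aa_co.TC
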