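import Pool.Agent.Lib.MP_0e31aa_co.TC.Defs

/-!
# The regularity lemma in the form used
-/

set_option autoImplicit false

namespace Pool.Agent.Lib.MP_0e31aa_co.TC

open Finset SimpleGraph

open Classical in
theorem card_interedges_eq_sum {V : Type} (B : SimpleGraph V) (X Y : Finset V) :
    (B.interedges X Y).card = ∑ x ∈ X, (nb B x Y).card := by
  rw [SimpleGraph.interedges_def, Finset.card_filter, Finset.sum_product]
  refine Finset.sum_congr rfl fun x _ => ?_
  unfold nb
  rw [Finset.card_filter]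

open Classical in
/-- The degree form of uniformity. -/
theorem reg_of_uniform {V : Type} (B : SimpleGraph V) (d ε : ℝ)
    (hε0 : 0 < ε) (X Y : Finset V) (hX : X.Nonempty) (hY : Y.Nonempty)
    (hu : B.IsUniform ε X Y) (hdens : d + ε ≤ (B.edgeDensity X Y : ℝ))
    (Y' : Finset V) (hY' : Y' ⊆ Y) (hc : ε * (Y.card : ℝ) ≤ (Y'.card : ℝ)) :
    ((X.filter fun x => ((nb B x Y').card : ℝ) < d * Y'.card).card : ℝ) < ε * X.card := by
  by_contra hcon
  rw [not_lt] at hcon
  set X' := X.filter fun x => ((nb B x Y').card : ℝ) < d * Y'.card with hX'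
  have hXc : (0 : ℝ) < X.card := by exact_mod_cast Finset.card_pos.2 hX
  have hYc : (0 : ℝ) < Y.card := by exact_mod_cast Finset.card_pos.2 hY
  have h3 := hu (Finset.filter_subset _ X : X' ⊆ X) hY' (by rw [mul_comm]; exact hcon)
    (by rw [mul_comm]; exact hc)
  have hX'0 : (0 : ℝ) < X'.card := lt_of_lt_of_le (by positivity) hcon
  have hY'0 : (0 : ℝ) < Y'.card := lt_of_lt_of_le (by positivity) hc
  -- number of edges
  have h4 : ((B.interedges X' Y').card : ℝ) < d * Y'.card * X'.card := by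
    rw [card_interedges_eq_sum]
    push_cast
    have h6 : ∑ x ∈ X', ((nb B x Y').card : ℝ) < ∑ x ∈ X', (d * Y'.card) := by
      apply Finset.sum_lt_sum_of_nonempty
      · exact Finset.card_pos.1 (Nat.cast_pos.1 hX'0)
      · intro x hx
        exact (Finset.mem_filter.1 hx).2
    rw [Finset.sum_const, nsmul_eq_mul] at h6
    linarith
  have h7 : (B.edgeDensity X' Y' : ℝ) < d := by
    rw [SimpleGraph.edgeDensity_def]
    push_cast
    rw [div_lt_iff₀ (by positivity)]
    nlinarith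
  have h8 := abs_lt.1 h3
  linarith [h8.1]

open Classical in
theorem reg (ε d : ℝ) (hε : 0 < ε) (hd : 0 ≤ d) (l : ℕ) (hl : 1 ≤ l) :
    ∃ Kmax : ℕ, ∀ (N : ℕ) (B : SimpleGraph (Fin N)), l ≤ N →
      ∃ (k s : ℕ) (c : Fin k → Finset (Fin N)) (Γ : SimpleGraph (Fin k)),
        l ≤ k ∧ k ≤ Kmax ∧ k * s ≤ N ∧ N ≤ k * (s + 1) ∧
        (∀ i, s ≤ (c i).card ∧ (c i).card ≤ s + 1) ∧ (∀ i j, i ≠ j → Disjoint (c i) (c j)) ∧
        (∀ i j, Γ.Adj i j → ∀ S ⊆ c j, ε * (c j).card ≤ S.card →
          (((c i).filter fun a => ((nb B a S).card : ℝ) < d * S.card).card : ℝ)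
            < ε * (c i).card) ∧
        ∀ A S : Finset (Fin k), NoE Γ A S →
          ∑ a ∈ A.biUnion c, ((nb B a (S.biUnion c)).card : ℝ)
            ≤ (2 * ε + d + 1 / l) * (k * (s + 1)) ^ 2 := by
  refine ⟨SzemerediRegularity.bound ε l, ?_⟩
  intro N B hN
  obtain ⟨P, hP1, hP2, hP3, hP4⟩ := szemeredi_regularity B hε (l := l)
    (by rw [Fintype.card_fin]; exact hN)
  obtain ⟨k, hk⟩ : ∃ k : ℕ, k = P.parts.card := ⟨_, rfl⟩
  rw [← hk] at hP2 hP3
  have hk1 : 1 ≤ k := by omega
  set s : ℕ := N / k with hs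
  have hks : k * s ≤ N := Nat.mul_div_le _ _
  have hks1 : N ≤ k * (s + 1) := by
    have := Nat.div_add_mod N k
    have h2 := Nat.mod_lt N hk1
    rw [← hs] at this
    nlinarith
  obtain ⟨φ⟩ : Nonempty (P.parts ≃ Fin k) := ⟨P.parts.equivFinOfCardEq hk.symm⟩
  set C : Fin k → Finset (Fin N) := fun i => (φ.symm i).1 with hC
  have hCmem : ∀ i, C i ∈ P.parts := fun i => (φ.symm i).2
  have hCne : ∀ i, (C i).Nonempty := fun i => P.nonempty_of_mem_parts (hCmem i)
  have hCinj : ∀ i j, C i = C j → i = j := fun i j h => φ.symm.injective (Subtype.ext h)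
  have hCge : ∀ i, s ≤ (C i).card := fun i => by
    have := hP1.average_le_card_part (hCmem i)
    rwa [Finset.card_univ, Fintype.card_fin, ← hk] at this
  have hCle : ∀ i, (C i).card ≤ s + 1 := fun i => by
    have := hP1.card_part_le_average_add_one (hCmem i)
    rwa [Finset.card_univ, Fintype.card_fin, ← hk] at this
  have hdisj : ∀ i j, i ≠ j → Disjoint (C i) (C j) := fun i j hij =>
    P.disjoint (hCmem i) (hCmem j) (fun h => hij (hCinj i j h))
  let G : SimpleGraph (Fin k) :=
    { Adj := fun i j => i ≠ j ∧ B.IsUniform ε (C i) (C j) ∧ d + ε ≤ (B.edgeDensity (C i) (C j) : ℝ)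
      symm := ⟨by
        intro i j hij
        refine ⟨hij.1.symm, hij.2.1.symm, ?_⟩
        rw [SimpleGraph.edgeDensity_comm]
        exact hij.2.2⟩
      loopless := ⟨fun i hi => hi.1 rfl⟩ }
  refine ⟨k, s, C, G, hP2, hP3, hks, hks1, fun i => ⟨hCge i, hCle i⟩, hdisj, ?_, ?_⟩
  · intro i j hij Y hY hYc
    exact reg_of_uniform B d ε hε (C i) (C j) (hCne i) (hCne j) hij.2.1 hij.2.2 Y hY hYc
  · intro I J hIJ
    -- total as a double sum
    have hs0 : (0 : ℝ) ≤ (s : ℝ) + 1 := by positivity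
    have hk0 : (1 : ℝ) ≤ k := by exact_mod_cast hk1
    have e1 : ∑ a ∈ I.biUnion C, ((nb B a (J.biUnion C)).card : ℝ)
        = ∑ p ∈ I ×ˢ J, ((B.interedges (C p.1) (C p.2)).card : ℝ) := by
      rw [Finset.sum_product, Finset.sum_biUnion (fun i _ j _ hij => hdisj i j hij)]
      refine Finset.sum_congr rfl fun i _ => ?_
      have e2 : ∀ a, ((nb B a (J.biUnion C)).card : ℝ) = ∑ j ∈ J, ((nb B a (C j)).card : ℝ) := by
        intro a
        unfold nb
        rw [Finset.filter_biUnion, Finset.card_biUnion]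
        · push_cast
          rfl
        · intro i _ j _ hij
          exact Finset.disjoint_filter_filter (hdisj i j hij)
      simp_rw [e2]
      rw [Finset.sum_comm]
      refine Finset.sum_congr rfl fun j _ => ?_
      rw [card_interedges_eq_sum]
      push_cast
      rfl
    rw [e1]
    -- bound for a pair
    have hone : ∀ i j : Fin k, ((B.interedges (C i) (C j)).card : ℝ) ≤ (s + 1) ^ 2 := by
      intro i j
      have h1 := B.card_interedges_le_mul (C i) (C j)
      have h2 : (C i).card * (C j).card ≤ (s + 1) * (s + 1) := Nat.mul_le_mul (hCle i) (hCle j)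
      have h3 : (((B.interedges (C i) (C j)).card : ℕ) : ℝ) ≤ (((s + 1) * (s + 1) : ℕ) : ℝ) := by
        exact_mod_cast h1.trans h2
      push_cast at h3
      rw [sq]
      exact h3
    have hpair : ∀ p ∈ I ×ˢ J, ((B.interedges (C p.1) (C p.2)).card : ℝ) ≤
        (if p.1 = p.2 then ((s : ℝ) + 1) ^ 2 else 0) +
        (if p.1 ≠ p.2 ∧ ¬ B.IsUniform ε (C p.1) (C p.2) then ((s : ℝ) + 1) ^ 2 else 0) +
        (d + ε) * (s + 1) ^ 2 := by
      intro p hp
      rw [Finset.mem_product] at hp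
      have hna := hIJ p.1 hp.1 p.2 hp.2
      have hpos : 0 ≤ (d + ε) * ((s : ℝ) + 1) ^ 2 := by positivity
      have hpos2 : 0 ≤ ((s : ℝ) + 1) ^ 2 := by positivity
      by_cases h1 : p.1 = p.2
      · rw [if_pos h1]
        have h2 : 0 ≤ (if p.1 ≠ p.2 ∧ ¬ B.IsUniform ε (C p.1) (C p.2)
          then ((s : ℝ) + 1) ^ 2 else 0) := by split_ifs <;> positivity
        have := hone p.1 p.2
        linarith
      · rw [if_neg h1]
        by_cases h2 : B.IsUniform ε (C p.1) (C p.2)
        · rw [if_neg (fun h => h.2 h2)]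
          have h3 : ¬ (d + ε ≤ (B.edgeDensity (C p.1) (C p.2) : ℝ)) := fun h => hna ⟨h1, h2, h⟩
          rw [not_le, SimpleGraph.edgeDensity_def] at h3
          push_cast at h3
          have hc1 : (0 : ℝ) < (C p.1).card := by exact_mod_cast Finset.card_pos.2 (hCne p.1)
          have hc2 : (0 : ℝ) < (C p.2).card := by exact_mod_cast Finset.card_pos.2 (hCne p.2)
          rw [div_lt_iff₀ (by positivity)] at h3
          have h4 : ((C p.1).card : ℝ) ≤ s + 1 := by exact_mod_cast hCle p.1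
          have h5 : ((C p.2).card : ℝ) ≤ s + 1 := by exact_mod_cast hCle p.2
          have h6 : ((C p.1).card : ℝ) * (C p.2).card ≤ (s + 1) ^ 2 := by nlinarith
          have h7 : (d + ε) * (((C p.1).card : ℝ) * (C p.2).card) ≤ (d + ε) * (s + 1) ^ 2 :=
            mul_le_mul_of_nonneg_left h6 (by linarith)
          linarith
        · rw [if_pos ⟨h1, h2⟩]
          have := hone p.1 p.2
          linarith
    refine (Finset.sum_le_sum hpair).trans ?_
    rw [Finset.sum_add_distrib, Finset.sum_add_distrib]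
    have hsub : I ×ˢ J ⊆ (univ : Finset (Fin k × Fin k)) := Finset.subset_univ _
    -- diagonal
    have b1 : ∑ p ∈ I ×ˢ J, (if p.1 = p.2 then ((s : ℝ) + 1) ^ 2 else 0)
        ≤ k * ((s : ℝ) + 1) ^ 2 := by
      refine (Finset.sum_le_sum_of_subset_of_nonneg hsub
        (fun p _ _ => by split_ifs <;> positivity)).trans ?_
      rw [← Finset.sum_filter, Finset.sum_const, nsmul_eq_mul]
      have : ((univ : Finset (Fin k × Fin k)).filter fun p => p.1 = p.2).card = k := by
        have h1 : ((univ : Finset (Fin k × Fin k)).filter fun p => p.1 = p.2)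
            = (univ : Finset (Fin k)).image (fun i => (i, i)) := by
          ext ⟨a, b⟩
          simp only [Finset.mem_filter, Finset.mem_univ, true_and, Finset.mem_image, Prod.mk.injEq]
          exact ⟨fun h => ⟨a, rfl, h⟩, fun ⟨c, h1, h2⟩ => h1.symm.trans h2⟩
        rw [h1, Finset.card_image_of_injective _ (fun a b h => (Prod.mk.inj h).1),
          Finset.card_univ, Fintype.card_fin]
      rw [this]
    -- non uniform pairs
    have b2 : ∑ p ∈ I ×ˢ J, (if p.1 ≠ p.2 ∧ ¬ B.IsUniform ε (C p.1) (C p.2)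
        then ((s : ℝ) + 1) ^ 2 else 0) ≤ ε * k ^ 2 * ((s : ℝ) + 1) ^ 2 := by
      refine (Finset.sum_le_sum_of_subset_of_nonneg hsub
        (fun p _ _ => by split_ifs <;> positivity)).trans ?_
      rw [← Finset.sum_filter, Finset.sum_const, nsmul_eq_mul]
      apply mul_le_mul_of_nonneg_right _ (by positivity)
      have h1 : ((univ : Finset (Fin k × Fin k)).filter fun p =>
          p.1 ≠ p.2 ∧ ¬ B.IsUniform ε (C p.1) (C p.2)).card ≤ (P.nonUniforms B ε).card := by
        apply Finset.card_le_card_of_injOn (fun p => (C p.1, C p.2))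
        · intro p hp
          rw [Finset.mem_coe, Finset.mem_filter] at hp
          rw [Finset.mem_coe, Finpartition.mk_mem_nonUniforms]
          exact ⟨hCmem _, hCmem _, fun h => hp.2.1 (hCinj _ _ h), hp.2.2⟩
        · intro p _ q _ hpq
          exact Prod.ext (hCinj _ _ (Prod.mk.inj hpq).1) (hCinj _ _ (Prod.mk.inj hpq).2)
      have h2 : ((P.nonUniforms B ε).card : ℝ) ≤ ((P.parts.card * (P.parts.card - 1) : ℕ) : ℝ) * ε :=
        hP4
      have h3 : ((P.parts.card * (P.parts.card - 1) : ℕ) : ℝ) ≤ (k : ℝ) ^ 2 := by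
        rw [← hk, sq]
        exact_mod_cast Nat.mul_le_mul_left k (Nat.sub_le k 1)
      have h4 : (((univ : Finset (Fin k × Fin k)).filter fun p =>
          p.1 ≠ p.2 ∧ ¬ B.IsUniform ε (C p.1) (C p.2)).card : ℝ) ≤ ((P.nonUniforms B ε).card : ℝ) := by
        exact_mod_cast h1
      nlinarith
    have b3 : ∑ p ∈ I ×ˢ J, (d + ε) * ((s : ℝ) + 1) ^ 2 ≤ (d + ε) * k ^ 2 * ((s : ℝ) + 1) ^ 2 := by
      refine (Finset.sum_le_sum_of_subset_of_nonneg hsub (fun p _ _ => by positivity)).trans ?_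
      rw [Finset.sum_const, nsmul_eq_mul, Finset.card_univ, Fintype.card_prod, Fintype.card_fin]
      push_cast
      apply le_of_eq
      ring
    have b4 : (k : ℝ) * ((s : ℝ) + 1) ^ 2 ≤ 1 / l * k ^ 2 * ((s : ℝ) + 1) ^ 2 := by
      apply mul_le_mul_of_nonneg_right _ (by positivity)
      have hl0 : (0 : ℝ) < l := by exact_mod_cast hl
      have hlk : (l : ℝ) ≤ k := by exact_mod_cast hP2
      rw [div_mul_eq_mul_div, le_div_iff₀ hl0, one_mul, sq]
      exact mul_le_mul_of_nonneg_left hlk (by linarith)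
    have e3 : (2 * ε + d + 1 / (l : ℝ)) * ((k : ℝ) * ((s : ℝ) + 1)) ^ 2
        = 1 / l * k ^ 2 * ((s : ℝ) + 1) ^ 2 + ε * k ^ 2 * ((s : ℝ) + 1) ^ 2
          + (d + ε) * k ^ 2 * ((s : ℝ) + 1) ^ 2 := by ring
    rw [e3]
    linarith

end Pool.Agent.Lib.MP_0e31aa_co.TC
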