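import Pool.Agent.Lib.MP_0e31aa_co.TC.Defs
import Pool.Agent.Lib.MP_0e31aa_co.WalkCap

set_option autoImplicit false

/-!
# A component is bipartite or has a short odd closed walk
-/

namespace Pool.Agent.Lib.MP_0e31aa_co.TC

open Finset

/-! ### OB : bipartite or an odd closed walk -/
theorem odd_or_bip {K : Type} [Fintype K] [DecidableEq K] (Γ : SimpleGraph K) (C : Finset K)
    (r : K) (hC : ∀ v, v ∈ C ↔ Γ.Reachable r v) :
    (∃ p : Γ.Walk r r, Odd p.length ∧ p.length ≤ 2 * Fintype.card K) ∨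
      ∃ X Y : Finset K, Disjoint X Y ∧ X ∪ Y = C ∧ NoE Γ X X ∧ NoE Γ Y Y := by
  classical
  by_cases h : ∃ p : Γ.Walk r r, Odd p.length
  · left
    obtain ⟨p, hp⟩ := h
    obtain ⟨p', h1, h2⟩ := short_par p
    refine ⟨p', ?_, h1⟩
    rw [Nat.odd_iff] at hp ⊢
    rw [h2, hp]
  · right
    push Not at h
    refine ⟨C.filter (fun v => ∃ p : Γ.Walk r v, p.length % 2 = 0),
      C.filter (fun v => ¬ ∃ p : Γ.Walk r v, p.length % 2 = 0), ?_, ?_, ?_, ?_⟩
    · exact disjoint_filter_filter_not _ _ _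
    · exact filter_union_filter_not_eq _ _
    · intro u hu v hv hadj
      obtain ⟨-, p, hp⟩ := mem_filter.mp hu
      obtain ⟨-, q, hq⟩ := mem_filter.mp hv
      apply h ((p.concat hadj).append q.reverse)
      rw [Nat.odd_iff, SimpleGraph.Walk.length_append, SimpleGraph.Walk.length_concat,
        SimpleGraph.Walk.length_reverse]
      omega
    · intro u hu v hv hadj
      obtain ⟨hu1, hu2⟩ := mem_filter.mp hu
      obtain ⟨hv1, hv2⟩ := mem_filter.mp hv
      obtain ⟨p⟩ := (hC u).mp hu1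
      have hp : p.length % 2 ≠ 0 := fun hh => hu2 ⟨p, hh⟩
      apply hv2
      refine ⟨p.concat hadj, ?_⟩
      rw [SimpleGraph.Walk.length_concat]
      omega

end Pool.Agent.Lib.MP_0e31aa_co.TC
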