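import Pool.Agent.Lib.MP_0e31aa_co.TC.HallDef
import Pool.Agent.Lib.MP_0e31aa_co.TC.OddBip

set_option autoImplicit false

/-!
# The structure of the reduced graph
-/

namespace Pool.Agent.Lib.MP_0e31aa_co.TC

open Finset

/-! ### ST (uses HD OB) : the structure of the reduced graph -/
theorem structure_lemma (δ : ℝ) (hδ : 0 < δ) (hδ2 : δ ≤ 1 / 100) (k : ℕ) (hk : 10 / δ ≤ k)
    (Γ : SimpleGraph (Fin k)) (x : ℝ) (hx0 : 0 ≤ x) (hx : x ≤ 1 / 4) :
    (∃ (r : Fin k) (p : Γ.Walk r r) (D : Finset (Fin k)) (σ : Fin k → Fin k), Odd p.length ∧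
      p.length ≤ 2 * k ∧ Set.InjOn σ D ∧ (∀ v ∈ D, Γ.Adj v (σ v)) ∧ (∀ v ∈ D, Γ.Reachable r v) ∧
      (3 / 4 + δ) * k ≤ D.card) ∨
    (∃ A S : Finset (Fin k), Disjoint A S ∧ NoE Γ A S ∧ (x + δ) * k ≤ A.card ∧
      (1 / 2 - x + δ) * k ≤ S.card) ∨
    (∃ X Y : Finset (Fin k), Disjoint X Y ∧ NoE Γ X X ∧ NoE Γ Y Y ∧ (1 / 2 - 3 * δ) * k ≤ X.card ∧
      (1 / 2 - 3 * δ) * k ≤ Y.card) ∨
    (x ≤ δ ∧ ∃ A S : Finset (Fin k), Disjoint A S ∧ NoE Γ A S ∧ (1 / 2 - 3 * δ) * k ≤ A.card ∧
      (1 / 2 - 3 * δ) * k ≤ S.card) ∨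
    (1 / 4 - 3 * δ ≤ x ∧ ∃ A S : Finset (Fin k), Disjoint A S ∧ NoE Γ A S ∧
      (1 / 4 - 4 * δ) * k ≤ A.card ∧ (3 / 4 - 4 * δ) * k ≤ S.card) := by
  classical
  -- numbers
  have hkδ : 10 ≤ δ * k := by
    rw [div_le_iff₀ hδ] at hk
    linarith
  have hk0 : (1000 : ℝ) ≤ k := by nlinarith
  have hkpos : (0 : ℝ) < k := by linarith
  -- a minimal closed set
  let Cl : Finset (Fin k) → Prop := fun C => ∀ u ∈ C, ∀ v, Γ.Adj u v → v ∈ C
  have hex : ∃ n : ℕ, ∃ C : Finset (Fin k), Cl C ∧ (x + δ) * k ≤ C.card ∧ C.card = n := by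
    refine ⟨k, univ, fun _ _ _ _ => mem_univ _, ?_, by simp⟩
    rw [card_univ, Fintype.card_fin]
    nlinarith
  obtain ⟨C, hCcl, hCx, hCn⟩ := Nat.find_spec hex
  have hmin : ∀ C' : Finset (Fin k), Cl C' → C' ⊂ C → (C'.card : ℝ) < (x + δ) * k := by
    intro C' h1 h2
    by_contra h3
    have h4 := Nat.find_min' hex ⟨C', h1, not_lt.mp h3, rfl⟩
    have h5 := card_lt_card h2
    omega
  set W : Finset (Fin k) := univ \ C with hW
  have hcard : (C.card : ℝ) + W.card = k := by
    have h1 : W.card + C.card = k := by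
      rw [hW, card_sdiff_add_card_eq_card (subset_univ _), card_univ, Fintype.card_fin]
    have h2 : ((W.card + C.card : ℕ) : ℝ) = k := by exact_mod_cast h1
    push_cast at h2
    linarith
  have hCW : Disjoint C W := disjoint_sdiff
  have hnCW : ∀ A ⊆ C, ∀ B ⊆ W, NoE Γ A B := by
    intro A hA B hB a ha b hb hab
    exact (mem_sdiff.mp (hB hb)).2 (hCcl a (hA ha) b hab)
  have hnWC : ∀ A ⊆ W, ∀ B ⊆ C, NoE Γ A B := fun A hA B hB a ha b hb hab =>
    hnCW B hB A hA b hb a ha hab.symm
  by_cases h2a : (1 / 2 - x + δ) * k ≤ W.card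
  · right; left
    exact ⟨C, W, hCW, hnCW C Subset.rfl W Subset.rfl, hCx, h2a⟩
  rw [not_le] at h2a
  by_cases h2b : (1 / 2 - x + δ) * k ≤ C.card ∧ (x + δ) * k ≤ W.card
  · right; left
    exact ⟨W, C, hCW.symm, hnWC W Subset.rfl C Subset.rfl, h2b.2, h2b.1⟩
  have hClow : (1 / 2 + x - δ) * k < C.card := by nlinarith
  -- `C` is a component
  have hCne : C.Nonempty := by
    rw [← card_pos]
    have h1 : (0 : ℝ) < C.card := by nlinarith
    exact_mod_cast h1
  obtain ⟨r, hr⟩ := hCne
  have hcomp : ∀ v, v ∈ C ↔ Γ.Reachable r v := by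
    set Cr : Finset (Fin k) := univ.filter (fun v => Γ.Reachable r v) with hCr
    have hCr_cl : Cl Cr := by
      intro u hu v huv
      rw [hCr, mem_filter] at hu ⊢
      exact ⟨mem_univ _, hu.2.trans huv.reachable⟩
    have hsub : Cr ⊆ C := by
      intro v hv
      rw [hCr, mem_filter] at hv
      obtain ⟨p⟩ := hv.2
      have : ∀ a b : Fin k, Γ.Walk a b → a ∈ C → b ∈ C := by
        intro a b p
        induction p with
        | nil => exact id
        | cons h _ ih => exact fun ha => ih (hCcl _ ha _ h)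
      exact this r v p hr
    have heq : Cr = C := by
      by_contra hne
      have h1 := hmin Cr hCr_cl (Finset.ssubset_iff_subset_ne.mpr ⟨hsub, hne⟩)
      have hrCr : r ∈ Cr := by
        rw [hCr, mem_filter]
        exact ⟨mem_univ _, SimpleGraph.Reachable.refl _⟩
      have h2 : ((C \ Cr).card : ℝ) < (x + δ) * k := by
        apply hmin
        · intro u hu v huv
          rw [mem_sdiff] at hu ⊢
          exact ⟨hCcl u hu.1 v huv, fun hv => hu.2 (hCr_cl v hv u huv.symm)⟩
        · rw [Finset.ssubset_iff_subset_ne]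
          refine ⟨sdiff_subset, fun h => ?_⟩
          have : r ∈ C \ Cr := by
            rw [h]
            exact hr
          exact (mem_sdiff.mp this).2 hrCr
      have h3 : (C \ Cr).card + Cr.card = C.card := card_sdiff_add_card_eq_card hsub
      have h4 : ((C \ Cr).card : ℝ) + Cr.card = C.card := by exact_mod_cast h3
      nlinarith
    intro v
    rw [← heq, hCr, mem_filter]
    simp
  by_cases h4 : (C.card : ℝ) < (1 / 2 - x + δ) * k
  · right; right; right; left
    have hxδ : x < δ := by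
      by_contra hcon
      rw [not_lt] at hcon
      nlinarith
    refine ⟨hxδ.le, C, W, hCW, hnCW C Subset.rfl W Subset.rfl, by nlinarith, by nlinarith⟩
  rw [not_lt] at h4
  have hWx : (W.card : ℝ) < (x + δ) * k := by
    by_contra hcon
    exact h2b ⟨h4, not_lt.mp hcon⟩
  have hceil : ((⌈(x + δ) * k⌉₊ : ℕ) : ℝ) < (x + δ) * k + 1 :=
    Nat.ceil_lt_add_one (mul_nonneg (by linarith) hkpos.le)
  have hceil' : (x + δ) * k ≤ ((⌈(x + δ) * k⌉₊ : ℕ) : ℝ) := Nat.le_ceil _
  rcases odd_or_bip Γ C r hcomp with ⟨p, hp, hp2⟩ | ⟨X0, Y0, hd0, hu0, hX0, hY0⟩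
  swap
  · -- the bipartite case
    obtain ⟨X, Y, hd, hu, hX, hY, hXY⟩ : ∃ X Y : Finset (Fin k), Disjoint X Y ∧ X ∪ Y = C ∧
        NoE Γ X X ∧ NoE Γ Y Y ∧ Y.card ≤ X.card := by
      rcases le_total Y0.card X0.card with h | h
      · exact ⟨X0, Y0, hd0, hu0, hX0, hY0, h⟩
      · exact ⟨Y0, X0, hd0.symm, by rw [union_comm, hu0], hY0, hX0, h⟩
    have hXC : X ⊆ C := hu ▸ subset_union_left
    have hsum : (X.card : ℝ) + Y.card = C.card := by
      rw [← hu, card_union_of_disjoint hd]
      push_cast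
      ring
    have hXY' : (Y.card : ℝ) ≤ X.card := by exact_mod_cast hXY
    by_cases h5 : (1 / 2 + 2 * δ) * k + 1 ≤ (X.card : ℝ) + W.card
    · right; left
      have h6 : ⌈(x + δ) * k⌉₊ ≤ X.card := by
        apply Nat.ceil_le.mpr
        nlinarith
      obtain ⟨A, hAX, hAc⟩ := exists_subset_card_eq h6
      have hXW : Disjoint X W := hCW.mono_left hXC
      refine ⟨A, (X ∪ W) \ A, disjoint_sdiff, ?_, by rw [hAc]; exact hceil', ?_⟩
      · intro a ha s hs has
        rw [mem_sdiff, mem_union] at hs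
        rcases hs.1 with h | h
        · exact hX a (hAX ha) s h has
        · exact hnCW X hXC W Subset.rfl a (hAX ha) s h has
      · have h7 : ((X ∪ W) \ A).card + A.card = (X ∪ W).card :=
          card_sdiff_add_card_eq_card (hAX.trans subset_union_left)
        rw [card_union_of_disjoint hXW, hAc] at h7
        have h8 : (((X ∪ W) \ A).card : ℝ) + (⌈(x + δ) * k⌉₊ : ℕ) = X.card + W.card := by
          exact_mod_cast h7
        linarith
    · right; right; left
      rw [not_le] at h5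
      refine ⟨X, Y, hd, hX, hY, ?_, ?_⟩ <;> nlinarith
  · obtain ⟨I, D, S, σ, hI, hS, hII, hSI, hD, hσ, hadj, hsz⟩ := hall_def Γ C hCcl
    by_cases h5 : (3 / 4 + δ) * k ≤ D.card
    · left
      refine ⟨r, p, D, σ, hp, ?_, hσ, hadj, fun v hv => (hcomp v).mp (hD hv), h5⟩
      rw [Fintype.card_fin] at hp2
      exact hp2
    rw [not_le] at h5
    have hIS : Disjoint I S := by
      rw [Finset.disjoint_left]
      intro v hv hv2
      obtain ⟨u, hu, huv⟩ := (hSI v).mp hv2
      exact hII u hu v hv huv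
    set H : Finset (Fin k) := C \ (I ∪ S) with hH
    have hHC : H ⊆ C := sdiff_subset
    have hHc : (H.card : ℝ) + I.card + S.card = C.card := by
      have h6 : H.card + (I ∪ S).card = C.card :=
        card_sdiff_add_card_eq_card (union_subset hI hS)
      rw [card_union_of_disjoint hIS] at h6
      have h7 : ((H.card + (I.card + S.card) : ℕ) : ℝ) = C.card := by exact_mod_cast h6
      push_cast at h7
      linarith
    have hsz' : (C.card : ℝ) + S.card ≤ D.card + I.card := by exact_mod_cast hsz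
    have hIH : NoE Γ I H := by
      intro a ha b hb hab
      exact (mem_sdiff.mp hb).2 (mem_union_right _ ((hSI b).mpr ⟨a, ha, hab⟩))
    have hIdH : Disjoint I H := by
      rw [Finset.disjoint_left]
      intro v hv hv2
      exact (mem_sdiff.mp hv2).2 (mem_union_left _ hv)
    have hWI : Disjoint W I := (hCW.mono_left hI).symm
    have hWH : Disjoint W H := (hCW.mono_left hHC).symm
    have hS0 : (0 : ℝ) ≤ S.card := Nat.cast_nonneg _
    have hH0 : (0 : ℝ) ≤ H.card := Nat.cast_nonneg _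
    by_cases h6 : (W.card : ℝ) + I.card < (x + δ) * k
    · right; right; right; right
      refine ⟨?_, W ∪ I, H, disjoint_union_left.mpr ⟨hWH, hIdH⟩, ?_, ?_, ?_⟩
      · nlinarith
      · intro a ha b hb hab
        rcases mem_union.mp ha with h | h
        · exact hnWC W Subset.rfl H hHC a h b hb hab
        · exact hIH a h b hb hab
      · rw [card_union_of_disjoint hWI]
        push_cast
        nlinarith
      · nlinarith
    · right; left
      rw [not_lt] at h6
      have h7 : ⌈(x + δ) * k⌉₊ - W.card ≤ I.card := by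
        have h8 : ⌈(x + δ) * k⌉₊ ≤ W.card + I.card := by
          apply Nat.ceil_le.mpr
          push_cast
          exact h6
        omega
      have h9 : W.card ≤ ⌈(x + δ) * k⌉₊ := by
        have h10 : (W.card : ℝ) ≤ (⌈(x + δ) * k⌉₊ : ℕ) := by linarith
        exact_mod_cast h10
      obtain ⟨I1, hI1, hI1c⟩ := exists_subset_card_eq h7
      have hWI1 : Disjoint W I1 := hWI.mono_right hI1
      have hAc : (W ∪ I1).card = ⌈(x + δ) * k⌉₊ := by
        rw [card_union_of_disjoint hWI1, hI1c]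
        omega
      refine ⟨W ∪ I1, H ∪ (I \ I1), ?_, ?_, by rw [hAc]; exact hceil', ?_⟩
      · rw [disjoint_union_left, disjoint_union_right, disjoint_union_right]
        refine ⟨⟨hWH, hWI.mono_right sdiff_subset⟩, hIdH.mono_left hI1, disjoint_sdiff⟩
      · intro a ha b hb hab
        rcases mem_union.mp ha with h | h <;> rcases mem_union.mp hb with h' | h'
        · exact hnWC W Subset.rfl H hHC a h b h' hab
        · exact hnWC W Subset.rfl I hI a h b (mem_sdiff.mp h').1 hab
        · exact hIH a (hI1 h) b h' hab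
        · exact hII a (hI1 h) b (mem_sdiff.mp h').1 hab
      · have h10 : Disjoint H (I \ I1) := (hIdH.symm).mono_right sdiff_subset
        rw [card_union_of_disjoint h10]
        have h11 : (I \ I1).card + I1.card = I.card := card_sdiff_add_card_eq_card hI1
        have h12 : ((I \ I1).card : ℝ) + (⌈(x + δ) * k⌉₊ : ℕ) = I.card + W.card := by
          have h13 : (I \ I1).card + ⌈(x + δ) * k⌉₊ = I.card + W.card := by omega
          exact_mod_cast h13
        push_cast
        nlinarith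

end Pool.Agent.Lib.MP_0e31aa_co.TC
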