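import Pool.Agent.Lib.MP_0e31aa_co.TC.Defs

set_option autoImplicit false

/-!
# Embedding closed walks of the reduced graph as cycles
-/

namespace Pool.Agent.Lib.MP_0e31aa_co.TC

open Finset

/-- Greedy path along a walk of the reduced graph, thresholds depending on the cluster. -/
theorem we_follow {V ι : Type} [DecidableEq V] [DecidableEq ι] (G : SimpleGraph V)
    (Γ : SimpleGraph ι) (K : ι → Finset V) (hdis : ∀ i j, i ≠ j → Disjoint (K i) (K j))
    (α β : ι → ℕ)
    (hT : ∀ i j, Γ.Adj i j → ∀ B ⊆ K j, β j ≤ B.card →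
      ∃ X : Finset V, X.card < α i ∧ ∀ v ∈ K i, v ∉ X → α j ≤ (nb G v B).card)
    (S : Finset V) {i j : ι} (hSj : S ⊆ K j)
    (hS : ∀ i, Γ.Adj i j → ∃ X : Finset V, X.card < α i ∧ ∀ v ∈ K i, v ∉ X →
      1 ≤ (nb G v S).card) (w : Γ.Walk i j) :
    ∀ (U : Finset V) (v : V), v ∈ U → v ∉ S →
      (if w.length = 0 then 1 ≤ (nb G v S).card else α i ≤ (nb G v (K i \ (S ∪ U))).card) →
      (∀ x, β x + w.support.count x ≤ (K x \ (S ∪ U)).card) →
      ∃ (s : V) (p : G.Walk v s), s ∈ S ∧ p.IsPath ∧ p.length = w.length + 1 ∧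
        ∀ y ∈ p.support, y = v ∨ y ∈ S ∨ y ∉ U := by
  induction w with
  | nil =>
    intro U v hvU hvS h1 _
    rw [SimpleGraph.Walk.length_nil, if_pos rfl] at h1
    obtain ⟨s, hs⟩ := card_pos.mp h1
    rw [mem_nb] at hs
    refine ⟨s, SimpleGraph.Walk.cons hs.2 SimpleGraph.Walk.nil, hs.1, ?_, by simp, ?_⟩
    · rw [SimpleGraph.Walk.cons_isPath_iff]
      refine ⟨SimpleGraph.Walk.IsPath.nil, ?_⟩
      rw [SimpleGraph.Walk.support_nil, List.mem_singleton]
      intro h
      exact hvS (h ▸ hs.1)
    · intro y hy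
      rw [SimpleGraph.Walk.support_cons, SimpleGraph.Walk.support_nil] at hy
      simp only [List.mem_cons, List.not_mem_nil, or_false] at hy
      rcases hy with rfl | rfl
      · exact Or.inl rfl
      · exact Or.inr (Or.inl hs.1)
  | @cons i k j h w ih =>
    intro U v hvU hvS h1 h2
    rw [SimpleGraph.Walk.length_cons, if_neg (by omega)] at h1
    have h5 : ∃ X : Finset V, X.card < α i ∧ ∀ v' ∈ K i, v' ∉ X →
        (if w.length = 0 then 1 ≤ (nb G v' S).card else α k ≤ (nb G v' (K k \ (S ∪ U))).card) := by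
      by_cases h3 : w.length = 0
      · have h4 := SimpleGraph.Walk.eq_of_length_eq_zero h3
        subst h4
        obtain ⟨X, hX, hX2⟩ := hS i h
        refine ⟨X, hX, fun v' hv' hvX => ?_⟩
        rw [if_pos h3]
        exact hX2 v' hv' hvX
      · obtain ⟨X, hX, hX2⟩ := hT i k h (K k \ (S ∪ U)) sdiff_subset
          (le_trans (Nat.le_add_right _ _) (h2 k))
        refine ⟨X, hX, fun v' hv' hvX => ?_⟩
        rw [if_neg h3]
        exact hX2 v' hv' hvX
    obtain ⟨X, hX1, hX2⟩ := h5
    obtain ⟨v', h6, h7⟩ : ∃ v' ∈ nb G v (K i \ (S ∪ U)), v' ∉ X := by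
      by_contra hcon
      push Not at hcon
      have := card_le_card (fun x hx => hcon x hx)
      omega
    rw [mem_nb, mem_sdiff, mem_union] at h6
    obtain ⟨⟨h8, h9⟩, h10⟩ := h6
    have h11 := hX2 v' h8 h7
    have hik : i ≠ k := h.ne
    have hout : ∀ x, x ≠ i → K x \ (S ∪ insert v' U) = K x \ (S ∪ U) := by
      intro x hx
      have hv'x : v' ∉ K x := fun hh =>
        Finset.disjoint_left.mp (hdis i x (Ne.symm hx)) h8 hh
      ext y
      simp only [mem_sdiff, mem_union, mem_insert]
      constructor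
      · rintro ⟨a, b⟩
        exact ⟨a, fun hh => b (hh.elim Or.inl (fun hh => Or.inr (Or.inr hh)))⟩
      · rintro ⟨a, b⟩
        refine ⟨a, ?_⟩
        rintro (hh | hh | hh)
        · exact b (Or.inl hh)
        · exact hv'x (hh ▸ a)
        · exact b (Or.inr hh)
    obtain ⟨s, p, hs, hp, hl, hsup⟩ := ih hSj hS (insert v' U) v' (mem_insert_self _ _)
      (fun hh => h9 (Or.inl hh)) (by rw [hout k hik.symm]; exact h11) (by
        intro x
        have h12 := h2 x
        rw [SimpleGraph.Walk.support_cons, List.count_cons] at h12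
        by_cases hx : x = i
        · subst hx
          simp only [beq_self_eq_true, if_true] at h12
          have h13 : (K x \ (S ∪ U)).card ≤ (K x \ (S ∪ insert v' U)).card + 1 := by
            have h14 : K x \ (S ∪ U) ⊆ insert v' (K x \ (S ∪ insert v' U)) := by
              intro y hy
              rw [mem_sdiff, mem_union] at hy
              rw [mem_insert, mem_sdiff, mem_union, mem_insert]
              by_cases hyv : y = v'
              · exact Or.inl hyv
              · right
                refine ⟨hy.1, ?_⟩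
                rintro (hh | hh | hh)
                · exact hy.2 (Or.inl hh)
                · exact hyv hh
                · exact hy.2 (Or.inr hh)
            exact (card_le_card h14).trans (card_insert_le _ _)
          omega
        · rw [hout x hx]
          have h14 : (i == x) = false := by simpa using Ne.symm hx
          rw [h14] at h12
          simp only [Bool.false_eq_true, if_false, add_zero] at h12
          exact h12)
    have hne : v ≠ v' := fun hh => h9 (Or.inr (hh ▸ hvU))
    refine ⟨s, SimpleGraph.Walk.cons h10 p, hs, ?_, by simp [hl], ?_⟩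
    · rw [SimpleGraph.Walk.cons_isPath_iff]
      refine ⟨hp, ?_⟩
      intro hv
      rcases hsup v hv with h15 | h15 | h15
      · exact hne h15
      · exact hvS h15
      · exact h15 (mem_insert_of_mem hvU)
    · intro y hy
      rw [SimpleGraph.Walk.support_cons, List.mem_cons] at hy
      rcases hy with rfl | hy
      · exact Or.inl rfl
      · rcases hsup y hy with h15 | h15 | h15
        · right
          right
          subst h15
          exact fun hh => h9 (Or.inr hh)
        · exact Or.inr (Or.inl h15)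
        · exact Or.inr (Or.inr fun hh => h15 (mem_insert_of_mem hh))

/-- A sequence of adjacent vertices as a walk. -/
theorem we_walk {K : Type} [DecidableEq K] (Γ : SimpleGraph K) (w : ℕ → K) (n : ℕ)
    (hw : ∀ i < n, Γ.Adj (w i) (w (i + 1))) :
    ∃ p : Γ.Walk (w 0) (w n), p.length = n ∧
      ∀ x, p.support.count x = ((range (n + 1)).filter fun i => w i = x).card := by
  induction n with
  | zero =>
    refine ⟨SimpleGraph.Walk.nil, rfl, ?_⟩
    intro x
    rw [SimpleGraph.Walk.support_nil, List.count_cons, List.count_nil]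
    by_cases hx : w 0 = x
    · simp [hx, filter_singleton]
    · have : (w 0 == x) = false := by simpa using hx
      rw [this]
      simp [filter_singleton, hx]
  | succ n ih =>
    obtain ⟨p, h1, h2⟩ := ih (fun i hi => hw i (by omega))
    refine ⟨p.concat (hw n (by omega)), by rw [SimpleGraph.Walk.length_concat, h1], ?_⟩
    intro x
    rw [SimpleGraph.Walk.support_concat, List.count_append, h2, range_add_one (n := n + 1),
      filter_insert]
    by_cases hx : w (n + 1) = x
    · rw [if_pos hx, card_insert_of_notMem (by simp), hx]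
      simp
    · rw [if_neg hx]
      have : [w (n + 1)].count x = 0 := by
        rw [List.count_eq_zero]
        simpa using Ne.symm hx
      rw [this]
      rfl

/-! ### WE : embedding closed walks -/
theorem walk_embed {V K : Type} [DecidableEq V] [DecidableEq K] (B : SimpleGraph V)
    (Γ : SimpleGraph K) (c : K → Finset V) (hc : ∀ i j, i ≠ j → Disjoint (c i) (c j))
    (ε d g : ℝ) (hε : 0 < ε) (hd : 0 < d) (hd1 : d ≤ 1) (hg : 0 < g) (hg1 : g ≤ 1)
    (hεdg : 4 * ε ≤ d * g) (hs : ∀ j, 4 / (d * g) ≤ (c j).card)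
    (hreg : ∀ i j, Γ.Adj i j → ∀ S ⊆ c j, ε * (c j).card ≤ S.card →
      (((c i).filter fun a => ((nb B a S).card : ℝ) < d * S.card).card : ℝ) < ε * (c i).card)
    (m : ℕ) (hm : 3 ≤ m) (w : ℕ → K) (hw : ∀ i < m, Γ.Adj (w i) (w (i + 1))) (hw0 : w m = w 0)
    (hcount : ∀ j, (((range m).filter fun i => w i = j).card : ℝ) ≤ (1 - g) * (c j).card) :
    HasCyc B m := by
  have hdg : 0 < d * g := mul_pos hd hg
  have hdgd : d * g ≤ d := mul_le_of_le_one_right hd.le hg1
  have hdgg : d * g ≤ g := mul_le_of_le_one_left hg.le hd1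
  -- sizes
  have hcd : ∀ j, 4 ≤ d * (c j).card := by
    intro j
    have h1 := hs j
    rw [div_le_iff₀ hdg] at h1
    have h2 : (0 : ℝ) ≤ (c j).card := Nat.cast_nonneg _
    nlinarith
  have hcg : ∀ j, 4 ≤ g * (c j).card := by
    intro j
    have h1 := hs j
    rw [div_le_iff₀ hdg] at h1
    have h2 : (0 : ℝ) ≤ (c j).card := Nat.cast_nonneg _
    nlinarith
  have hcpos : ∀ j, (0 : ℝ) < (c j).card := by
    intro j
    have h1 := hcd j
    by_contra h2
    have h3 : ((c j).card : ℝ) = 0 := le_antisymm (not_lt.mp h2) (Nat.cast_nonneg _)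
    rw [h3] at h1
    linarith
  set α : K → ℕ := fun j => ⌈ε * (c j).card⌉₊ with hα
  set β : K → ℕ := fun j => ⌈g / 4 * (c j).card⌉₊ with hβ
  have α_ge : ∀ j, ε * (c j).card ≤ α j := fun j => Nat.le_ceil _
  have α_lt : ∀ j, (α j : ℝ) < ε * (c j).card + 1 := fun j =>
    Nat.ceil_lt_add_one (mul_nonneg hε.le (Nat.cast_nonneg _))
  have β_ge : ∀ j, g / 4 * (c j).card ≤ β j := fun j => Nat.le_ceil _
  have β_lt : ∀ j, (β j : ℝ) < g / 4 * (c j).card + 1 := fun j =>
    Nat.ceil_lt_add_one (mul_nonneg (by linarith) (Nat.cast_nonneg _))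
  have hreg' : ∀ i j, Γ.Adj i j → ∀ S ⊆ c j, ε * (c j).card ≤ S.card →
      ∃ X : Finset V, X.card < α i ∧ ∀ v ∈ c i, v ∉ X → d * S.card ≤ (nb B v S).card := by
    intro i j hij S hS1 hS2
    refine ⟨(c i).filter fun a => ((nb B a S).card : ℝ) < d * S.card, ?_, ?_⟩
    · have h1 := hreg i j hij S hS1 hS2
      have h2 := α_ge i
      exact_mod_cast lt_of_lt_of_le h1 h2
    · intro v hv hvX
      by_contra hcon
      exact hvX (mem_filter.mpr ⟨hv, not_le.mp hcon⟩)
  have hT : ∀ i j, Γ.Adj i j → ∀ S ⊆ c j, β j ≤ S.card →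
      ∃ X : Finset V, X.card < α i ∧ ∀ v ∈ c i, v ∉ X → α j ≤ (nb B v S).card := by
    intro i j hij S hS1 hS2
    have h1 : (g / 4 * (c j).card : ℝ) ≤ S.card := (β_ge j).trans (by exact_mod_cast hS2)
    have h2 : ε * (c j).card ≤ S.card := by
      refine le_trans ?_ h1
      apply mul_le_mul_of_nonneg_right _ (Nat.cast_nonneg _)
      linarith
    obtain ⟨X, hX1, hX2⟩ := hreg' i j hij S hS1 h2
    refine ⟨X, hX1, fun v hv hvX => ?_⟩
    have h3 := hX2 v hv hvX
    apply Nat.ceil_le.mpr
    refine le_trans ?_ h3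
    have h4 : d * (g / 4 * (c j).card) ≤ d * S.card := mul_le_mul_of_nonneg_left h1 hd.le
    refine le_trans ?_ h4
    have h5 : (0 : ℝ) ≤ (c j).card := Nat.cast_nonneg _
    nlinarith
  -- the first vertex
  have hadj0 : Γ.Adj (w 0) (w 1) := hw 0 (by omega)
  have hadjm : Γ.Adj (w 0) (w (m - 1)) := by
    have h1 := hw (m - 1) (by omega)
    have h2 : m - 1 + 1 = m := by omega
    rw [h2, hw0] at h1
    exact h1.symm
  have hle1 : ∀ j, ε * (c j).card ≤ (c j).card := by
    intro j
    have h1 := hcpos j
    have h2 : ε ≤ 1 := by linarith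
    nlinarith
  obtain ⟨X1, hX1, hX1'⟩ := hreg' _ _ hadj0 (c (w 1)) Subset.rfl (hle1 _)
  obtain ⟨X2, hX2, hX2'⟩ := hreg' _ _ hadjm (c (w (m - 1))) Subset.rfl (hle1 _)
  obtain ⟨v0, hv0, hv0X⟩ : ∃ v0 ∈ c (w 0), v0 ∉ X1 ∪ X2 := by
    by_contra hcon
    push Not at hcon
    have h1 := (card_le_card (fun x hx => hcon x hx)).trans (card_union_le _ _)
    have h2 := α_lt (w 0)
    have h3 := hcd (w 0)
    have h4 : ((c (w 0)).card : ℝ) ≤ X1.card + X2.card := by exact_mod_cast h1
    have h5 : (X1.card : ℝ) + 1 ≤ α (w 0) := by exact_mod_cast hX1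
    have h6 : (X2.card : ℝ) + 1 ≤ α (w 0) := by exact_mod_cast hX2
    have h7 := hcpos (w 0)
    nlinarith
  rw [mem_union, not_or] at hv0X
  have hn1 := hX1' v0 hv0 hv0X.1
  have hn2 := hX2' v0 hv0 hv0X.2
  -- the reserved set
  have hSex : α (w (m - 1)) ≤ (nb B v0 (c (w (m - 1)))).card := by
    apply Nat.ceil_le.mpr
    refine le_trans ?_ hn2
    have h5 : (0 : ℝ) ≤ (c (w (m - 1))).card := Nat.cast_nonneg _
    nlinarith
  obtain ⟨S, hS1, hS2⟩ := exists_subset_card_eq hSex
  have hSc : S ⊆ c (w (m - 1)) := hS1.trans (nb_subset _ _ _)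
  have hSv : ∀ s ∈ S, B.Adj v0 s := fun s hs => (mem_nb.mp (hS1 hs)).2
  have hv0S : v0 ∉ S := fun h => B.loopless.irrefl v0 (hSv v0 h)
  have hSlast : ∀ i, Γ.Adj i (w (m - 1)) → ∃ X : Finset V, X.card < α i ∧
      ∀ v ∈ c i, v ∉ X → 1 ≤ (nb B v S).card := by
    intro i hi
    have h1 : ε * (c (w (m - 1))).card ≤ S.card := by
      rw [hS2]
      exact α_ge _
    obtain ⟨X, hX3, hX4⟩ := hreg' i _ hi S hSc h1
    refine ⟨X, hX3, fun v hv hvX => ?_⟩
    have h2 := hX4 v hv hvX
    have h3 : (0 : ℝ) < S.card := lt_of_lt_of_le (mul_pos hε (hcpos _)) h1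
    have h4 : (0 : ℝ) < (nb B v S).card := lt_of_lt_of_le (mul_pos hd h3) h2
    exact_mod_cast h4
  obtain ⟨q, hq1, hq2⟩ := we_walk Γ (fun i => w (i + 1)) (m - 2) (fun i hi => hw (i + 1) (by omega))
  have hm2 : m - 2 + 1 = m - 1 := by omega
  obtain ⟨s, p, hs', hp, hl, -⟩ := we_follow B Γ c hc α β hT S (i := w (0 + 1))
    (j := w (m - 2 + 1)) (by rw [hm2]; exact hSc) (by rw [hm2]; exact hSlast) q {v0} v0
    (mem_singleton_self _) hv0S (by
      rw [if_neg (by omega)]
      apply Nat.ceil_le.mpr
      have h1 : nb B v0 (c (w 1)) ⊆ nb B v0 (c (w 1) \ (S ∪ {v0})) ∪ S := by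
        intro x hx
        rw [mem_nb] at hx
        by_cases hxS : x ∈ S
        · exact mem_union_right _ hxS
        · apply mem_union_left
          rw [mem_nb, mem_sdiff, mem_union, mem_singleton]
          refine ⟨⟨hx.1, ?_⟩, hx.2⟩
          rintro (h | h)
          · exact hxS h
          · rw [h] at hx
            exact B.loopless.irrefl v0 hx.2
      have h2 : (nb B v0 (c (w 1))).card ≤ (nb B v0 (c (w 1) \ (S ∪ {v0}))).card +
          (S ∩ c (w 1)).card := by
        have h1' : nb B v0 (c (w 1)) ⊆ nb B v0 (c (w 1) \ (S ∪ {v0})) ∪ (S ∩ c (w 1)) := by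
          intro x hx
          rcases mem_union.mp (h1 hx) with h | h
          · exact mem_union_left _ h
          · exact mem_union_right _ (mem_inter.mpr ⟨h, (mem_nb.mp hx).1⟩)
        exact (card_le_card h1').trans (card_union_le _ _)
      have h3 : ((S ∩ c (w 1)).card : ℝ) ≤ ε * (c (w 1)).card + 1 := by
        by_cases h4 : w 1 = w (m - 1)
        · have h5 : (S ∩ c (w 1)).card ≤ S.card := card_le_card inter_subset_left
          have h6 : ((S ∩ c (w 1)).card : ℝ) ≤ α (w (m - 1)) := by
            rw [← hS2]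
            exact_mod_cast h5
          rw [h4] at h6 ⊢
          linarith [α_lt (w (m - 1))]
        · have h5 : S ∩ c (w 1) = ∅ := by
            rw [← disjoint_iff_inter_eq_empty]
            exact (hc _ _ h4).symm.mono_left hSc
          rw [h5, card_empty]
          have := mul_nonneg hε.le (Nat.cast_nonneg (c (w 1)).card)
          push_cast
          linarith
      have h4 : ((nb B v0 (c (w 1))).card : ℝ) ≤ (nb B v0 (c (w 1) \ (S ∪ {v0}))).card +
          (S ∩ c (w 1)).card := by exact_mod_cast h2
      have h5 := hcd (w 1)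
      have h6 : (0 : ℝ) ≤ (c (w 1)).card := Nat.cast_nonneg _
      change ε * ((c (w 1)).card : ℝ) ≤ (nb B v0 (c (w 1) \ (S ∪ {v0}))).card
      nlinarith) (by
      intro x
      rw [hq2]
      have h1 := hcount x
      -- visits at the positions `1, ..., m - 1`
      have h2 : ((range (m - 2 + 1)).filter fun i => w (i + 1) = x).card +
          (if w 0 = x then 1 else 0) = ((range m).filter fun i => w i = x).card := by
        have h3 : range m = insert 0 ((range (m - 2 + 1)).map ⟨fun i => i + 1, fun i j => by simp⟩) := by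
          have h4 : m = (m - 2 + 1) + 1 := by omega
          conv_lhs => rw [h4]
          rw [range_add_one']
        rw [h3, filter_insert]
        have h4 : ((range (m - 2 + 1)).map ⟨fun i => i + 1, fun i j => by simp⟩).filter
            (fun i => w i = x) = ((range (m - 2 + 1)).filter (fun i => w (i + 1) = x)).map
              ⟨fun i => i + 1, fun i j => by simp⟩ := by
          rw [filter_map]
          congr 1
        rw [h4]
        by_cases hx : w 0 = x
        · rw [if_pos hx, if_pos hx, card_insert_of_notMem (by simp), card_map]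
        · rw [if_neg hx, if_neg hx, card_map, add_zero]
      have h3 : (c x).card ≤ (c x \ (S ∪ {v0})).card + (S ∩ c x).card +
          (if w 0 = x then 1 else 0) := by
        have h4 : c x ⊆ (c x \ (S ∪ {v0})) ∪ (S ∩ c x) ∪ (if w 0 = x then {v0} else ∅) := by
          intro y hy
          by_cases hyS : y ∈ S
          · exact mem_union_left _ (mem_union_right _ (mem_inter.mpr ⟨hyS, hy⟩))
          · by_cases hyv : y = v0
            · apply mem_union_right
              have hx : w 0 = x := by
                by_contra hne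
                exact Finset.disjoint_left.mp (hc _ _ hne) hv0 (hyv ▸ hy)
              rw [if_pos hx, hyv]
              exact mem_singleton_self _
            · apply mem_union_left
              apply mem_union_left
              rw [mem_sdiff, mem_union, mem_singleton]
              exact ⟨hy, fun h => h.elim hyS hyv⟩
        refine (card_le_card h4).trans ((card_union_le _ _).trans ?_)
        refine Nat.add_le_add (card_union_le _ _) ?_
        split_ifs <;> simp
      have h4 : ((S ∩ c x).card : ℝ) < g / 4 * (c x).card + 1 := by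
        have h8 : (0 : ℝ) ≤ (c x).card := Nat.cast_nonneg _
        by_cases h5 : x = w (m - 1)
        · have h6 : ((S ∩ c x).card : ℝ) ≤ α (w (m - 1)) := by
            rw [← hS2]
            exact_mod_cast card_le_card inter_subset_left
          rw [← h5] at h6
          have h7 := α_lt x
          nlinarith
        · have h6 : S ∩ c x = ∅ := by
            rw [← disjoint_iff_inter_eq_empty]
            exact (hc _ _ h5).symm.mono_left hSc
          rw [h6, card_empty]
          have := mul_nonneg (by linarith : (0 : ℝ) ≤ g / 4) h8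
          push_cast
          linarith
      have h5 := β_lt x
      have h6 := hcg x
      have h7 : (((range m).filter fun i => w i = x).card : ℝ) =
          ((range (m - 2 + 1)).filter fun i => w (i + 1) = x).card +
            ((if w 0 = x then 1 else 0 : ℕ) : ℝ) := by
        rw [← h2]
        push_cast
        rfl
      have h8 : ((c x).card : ℝ) ≤ (c x \ (S ∪ {v0})).card + (S ∩ c x).card +
          ((if w 0 = x then 1 else 0 : ℕ) : ℝ) := by exact_mod_cast h3
      have h9 : ((β x + ((range (m - 2 + 1)).filter fun i => w (i + 1) = x).card : ℕ) : ℝ) ≤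
          ((c x \ (S ∪ {v0})).card : ℝ) := by
        push_cast
        linarith
      exact_mod_cast h9)
  refine ⟨p.support, ?_, p.isChain_adj_support, hp.support_nodup, p.support_ne_nil, ?_⟩
  · rw [SimpleGraph.Walk.length_support, hl, hq1]
    omega
  · rw [SimpleGraph.Walk.getLast_support, SimpleGraph.Walk.head_support]
    exact (hSv s hs').symm

end Pool.Agent.Lib.MP_0e31aa_co.TC
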