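import Pool.Agent.Lib.MP_0e31aa_co.TC.BipEmb
import Pool.Agent.Lib.MP_0e31aa_co.TC.CaseC
import Pool.Agent.Lib.MP_0e31aa_co.TC.CaseD
import Pool.Agent.Lib.MP_0e31aa_co.TC.CaseE
import Pool.Agent.Lib.MP_0e31aa_co.TC.Classes
import Pool.Agent.Lib.MP_0e31aa_co.TC.Clean
import Pool.Agent.Lib.MP_0e31aa_co.TC.ClosedWalk
import Pool.Agent.Lib.MP_0e31aa_co.TC.Reg
import Pool.Agent.Lib.MP_0e31aa_co.TC.Structure
import Pool.Agent.Lib.MP_0e31aa_co.TC.WalkEmbed

/-!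
# Tree versus odd cycle Ramsey numbers: assembly (module MN)
-/

set_option autoImplicit false

namespace Pool.Agent.Lib.MP_0e31aa_co.TC

open Finset

theorem NoE.symm {V : Type} {G : SimpleGraph V} {A S : Finset V} (h : NoE G A S) : NoE G S A :=
  fun s hs a ha hadj => h a ha s hs hadj.symm

/-- Size of a union of clusters. -/
theorem size_union {k s N : ℕ} (c : Fin k → Finset (Fin N)) (hN : N ≤ k * (s + 1))
    (hcs : ∀ i, s ≤ (c i).card ∧ (c i).card ≤ s + 1)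
    (hcd : ∀ i j, i ≠ j → Disjoint (c i) (c j)) (A : Finset (Fin k)) (θ : ℝ) (hθ : 0 ≤ θ)
    (hA : θ * k ≤ A.card) : θ * ((N : ℝ) - k) ≤ ((A.biUnion c).card : ℝ) := by
  have h1 : (A.biUnion c).card = ∑ i ∈ A, (c i).card :=
    Finset.card_biUnion fun i _ j _ hij => hcd i j hij
  have h2 : A.card * s ≤ (A.biUnion c).card := by
    rw [h1, ← smul_eq_mul, ← Finset.sum_const]
    exact Finset.sum_le_sum fun i _ => (hcs i).1
  have h3 : (A.card : ℝ) * s ≤ ((A.biUnion c).card : ℝ) := by exact_mod_cast h2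
  have h4 : (N : ℝ) ≤ k * (s + 1) := by exact_mod_cast hN
  have h5 : θ * k * s ≤ A.card * s := mul_le_mul_of_nonneg_right hA (by positivity)
  have h6 : (N : ℝ) - k ≤ k * s := by linarith
  have h7 : θ * ((N : ℝ) - k) ≤ θ * (k * s) := mul_le_mul_of_nonneg_left h6 hθ
  nlinarith

/-- A cleaned union of clusters. -/
theorem piece {k s N : ℕ} (B : SimpleGraph (Fin N)) (c : Fin k → Finset (Fin N))
    (Γ : SimpleGraph (Fin k)) (hN : N ≤ k * (s + 1))
    (hcs : ∀ i, s ≤ (c i).card ∧ (c i).card ≤ s + 1)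
    (hcd : ∀ i j, i ≠ j → Disjoint (c i) (c j)) (τ n : ℝ) (hτ : 0 < τ) (hn : 0 < n)
    (hΓ : ∀ A S : Finset (Fin k), NoE Γ A S →
      ∑ a ∈ A.biUnion c, ((nb B a (S.biUnion c)).card : ℝ) ≤ τ ^ 2 * n ^ 2)
    (A S : Finset (Fin k)) (hAS : NoE Γ A S) (θ : ℝ) (hθ : 0 ≤ θ) (hA : θ * k ≤ A.card) :
    ∃ A' ⊆ A.biUnion c, θ * ((N : ℝ) - k) - τ * n ≤ A'.card ∧
      ∀ a ∈ A', ((nb B a (S.biUnion c)).card : ℝ) ≤ τ * n := by
  obtain ⟨A', h1, h2, h3⟩ := clean B (A.biUnion c) (S.biUnion c) τ n hτ hn (hΓ A S hAS)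
  refine ⟨A', h1, ?_, h3⟩
  have := size_union c hN hcs hcd A θ hθ hA
  linarith

theorem disjoint_biUnion {k N : ℕ} (c : Fin k → Finset (Fin N))
    (hcd : ∀ i j, i ≠ j → Disjoint (c i) (c j)) (A S : Finset (Fin k)) (h : Disjoint A S) :
    Disjoint (A.biUnion c) (S.biUnion c) := by
  rw [Finset.disjoint_biUnion_left]
  intro i hi
  rw [Finset.disjoint_biUnion_right]
  intro j hj
  exact hcd i j (fun hij => Finset.disjoint_left.1 h hi (hij ▸ hj))

theorem main : ∃ m₀ : ℕ, ∀ m : ℕ, m₀ ≤ m → Odd m → ∀ n : ℕ, 2 * m ≤ 3 * n + 1 →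
    ∀ (B : SimpleGraph (Fin (2 * n - 1))) (T : SimpleGraph (Fin n)), T.IsTree →
      HasCyc B m ∨ Emb T Bᶜ := by
  obtain ⟨n1, h1⟩ := case_c
  obtain ⟨n2, h2⟩ := case_d
  obtain ⟨n3, h3⟩ := case_e
  -- constants
  obtain ⟨δ, hδ⟩ : ∃ δ : ℝ, δ = 1 / 100000000 := ⟨_, rfl⟩
  have hδ0 : 0 < δ := by rw [hδ]; norm_num
  obtain ⟨τ, hτ⟩ : ∃ τ : ℝ, τ = δ / 2 := ⟨_, rfl⟩
  have hτ0 : 0 < τ := by rw [hτ]; positivity
  obtain ⟨d, hd⟩ : ∃ d : ℝ, d = τ ^ 2 / 30 := ⟨_, rfl⟩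
  have hd0 : 0 < d := by rw [hd]; positivity
  obtain ⟨g, hg⟩ : ∃ g : ℝ, g = δ / 4 := ⟨_, rfl⟩
  have hg0 : 0 < g := by rw [hg]; positivity
  obtain ⟨ε, hε⟩ : ∃ ε : ℝ, ε = d * g / 4 := ⟨_, rfl⟩
  have hε0 : 0 < ε := by rw [hε]; positivity
  obtain ⟨l, hl⟩ : ∃ l : ℕ, l = ⌈30 / τ ^ 2⌉₊ + 1 := ⟨_, rfl⟩
  have hl1 : 1 ≤ l := by omega
  have hlr : 30 / τ ^ 2 ≤ l := by
    rw [hl]; push_cast
    have := Nat.le_ceil (30 / τ ^ 2)
    linarith
  obtain ⟨Kmax, hreg⟩ := reg ε d hε0 hd0.le l hl1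
  -- the threshold
  obtain ⟨D0, hD0⟩ : ∃ D0 : ℝ, D0 = 4 / (d * g) := ⟨_, rfl⟩
  have hdg0 : 0 < D0 := by rw [hD0]; positivity
  obtain ⟨M, hM⟩ : ∃ M : ℝ,
      M = (4 * (Kmax : ℝ) ^ 3 + 4 * Kmax ^ 2 + 10 * Kmax + 10 + l + D0 * Kmax) / δ := ⟨_, rfl⟩
  refine ⟨2 * (n1 + n2 + n3) + 2 * ⌈M⌉₊ + 2 * Kmax + 2 * Kmax ^ 2 + 20, ?_⟩
  intro m hm hodd n hmn B T hT
  by_contra hcon
  rw [not_or] at hcon
  obtain ⟨hB, hE⟩ := hcon
  have hn0 : n1 + n2 + n3 + ⌈M⌉₊ + 10 ≤ n := by omega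
  have hnM : M ≤ n := by
    have e1 : M ≤ ⌈M⌉₊ := Nat.le_ceil M
    have e2 : (⌈M⌉₊ : ℝ) ≤ n := by exact_mod_cast (by omega : ⌈M⌉₊ ≤ n)
    linarith
  have hnr : (10 : ℝ) ≤ n := by exact_mod_cast (by omega : 10 ≤ n)
  have hKm0 : (0 : ℝ) ≤ Kmax := by positivity
  have hnδ : 4 * (Kmax : ℝ) ^ 3 + 4 * Kmax ^ 2 + 10 * Kmax + 10 + l + D0 * Kmax
      ≤ δ * n := by
    rw [hM, div_le_iff₀ hδ0] at hnM
    linarith
  have hNr : ((2 * n - 1 : ℕ) : ℝ) = 2 * n - 1 := by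
    rw [Nat.cast_sub (by omega)]; push_cast; ring
  have hδn : δ * n ≤ n := by
    have : δ ≤ 1 := by rw [hδ]; norm_num
    nlinarith
  have hlN : l ≤ 2 * n - 1 := by
    have e1 : (l : ℝ) ≤ n := by
      have : (0 : ℝ) ≤ 4 * (Kmax : ℝ) ^ 3 + 4 * Kmax ^ 2 + 10 * Kmax + 10 + D0 * Kmax := by
        positivity
      linarith
    have e2 : l ≤ n := by exact_mod_cast e1
    omega
  obtain ⟨k, s, c, Γ, hlk, hkK, hks, hNk, hcs, hcd, hreg1, hreg2⟩ := hreg (2 * n - 1) B hlN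
  have hkpos : 0 < k := by omega
  have hkr : (0 : ℝ) < k := by exact_mod_cast hkpos
  have hkKr : (k : ℝ) ≤ Kmax := by exact_mod_cast hkK
  have hk1 : (1 : ℝ) ≤ k := by exact_mod_cast hkpos
  have hK1 : (1 : ℝ) ≤ Kmax := by linarith
  have hlkr : (l : ℝ) ≤ k := by exact_mod_cast hlk
  have hksr : (k : ℝ) * s ≤ 2 * n - 1 := by rw [← hNr]; exact_mod_cast hks
  have hNkr : 2 * (n : ℝ) - 1 ≤ k * (s + 1) := by rw [← hNr]; exact_mod_cast hNk
  have hKn : 10 * (Kmax : ℝ) + 10 ≤ δ * n := by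
    have : (0 : ℝ) ≤ 4 * (Kmax : ℝ) ^ 3 + 4 * Kmax ^ 2 + l + D0 * Kmax := by positivity
    linarith
  have hnpos : (0 : ℝ) < n := by linarith
  -- few blue edges outside the reduced graph
  have hbad : ∀ A S : Finset (Fin k), NoE Γ A S →
      ∑ a ∈ A.biUnion c, ((nb B a (S.biUnion c)).card : ℝ) ≤ τ ^ 2 * (n : ℝ) ^ 2 := by
    intro A S hAS
    refine (hreg2 A S hAS).trans ?_
    have e1 : (k : ℝ) * (s + 1) ≤ 3 * n := by
      have : (k : ℝ) * (s + 1) = k * s + k := by ring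
      rw [this]; linarith
    have e2 : ((k : ℝ) * (s + 1)) ^ 2 ≤ (3 * n) ^ 2 :=
      pow_le_pow_left₀ (by positivity) e1 2
    have e3 : 2 * ε + d + 1 / l ≤ τ ^ 2 / 9 := by
      have f1 : 1 / (l : ℝ) ≤ τ ^ 2 / 30 := by
        rw [div_le_div_iff₀ (by positivity) (by norm_num), one_mul]
        rw [div_le_iff₀ (by positivity)] at hlr
        linarith
      have f2 : 2 * ε ≤ τ ^ 2 / 30 := by
        rw [hε, hd]
        have : g ≤ 1 := by rw [hg, hδ]; norm_num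
        have h0 : (0 : ℝ) ≤ τ ^ 2 / 30 := by positivity
        nlinarith
      have h0 : (0 : ℝ) ≤ τ ^ 2 := by positivity
      rw [hd]
      linarith
    have e4 : (0 : ℝ) ≤ 2 * ε + d + 1 / l := by positivity
    calc (2 * ε + d + 1 / l) * ((k : ℝ) * (s + 1)) ^ 2
        ≤ (τ ^ 2 / 9) * (3 * n) ^ 2 := mul_le_mul e3 e2 (by positivity) (by positivity)
      _ = τ ^ 2 * (n : ℝ) ^ 2 := by ring
  have hpiece := fun A S hAS θ hθ hA =>
    piece B c Γ hNk hcs hcd τ n hτ0 hnpos hbad A S hAS θ hθ hA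
  rw [hNr] at hpiece
  -- the classes of the tree
  obtain ⟨P, hP, hP2⟩ := tree_bip T hT
  rw [Fintype.card_fin] at hP2
  have hP2r : 2 * (P.card : ℝ) ≤ n := by exact_mod_cast hP2
  obtain ⟨x, hx⟩ : ∃ x : ℝ, x = P.card / (2 * n) := ⟨_, rfl⟩
  have hx0 : 0 ≤ x := by rw [hx]; positivity
  have hx4 : x ≤ 1 / 4 := by
    rw [hx, div_le_iff₀ (by positivity)]; linarith
  have hxn : x * (2 * n) = P.card := by rw [hx]; field_simp
  have hk10 : 10 / δ ≤ k := by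
    have e1 : 10 / δ ≤ 30 / τ ^ 2 := by
      rw [hτ, hδ]; norm_num
    linarith
  have hτδ : τ * n = δ * n / 2 := by rw [hτ]; ring
  have hgam : gam = 100 * δ := by rw [hδ]; unfold gam; norm_num
  rcases structure_lemma δ hδ0 (by rw [hδ]; norm_num) k hk10 Γ x hx0 hx4 with
    ⟨r, p, D, σ, hp, hp2, hσ, hadj, hreach, hD⟩ | ⟨A, S, hAS, hno, hA, hS⟩ |
    ⟨X, Y, hXY, hX, hY, hXc, hYc⟩ | ⟨hxδ, A, S, hAS, hno, hA, hS⟩ |
    ⟨hxδ, A, S, hAS, hno, hA, hS⟩
  · -- blue cycle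
    apply hB
    obtain ⟨t, ht⟩ : ∃ t : ℕ, t = ⌊((1 - g) * s - 2 * k - 2 * (k : ℝ) ^ 2) / 2⌋₊ := ⟨_, rfl⟩
    have hs1 : (2 * (n : ℝ) - 1) / k - 1 ≤ s := by
      have : (2 * (n : ℝ) - 1) / k ≤ s + 1 := by
        rw [div_le_iff₀ hkr]; linarith
      linarith
    have hsk : (2 * (n : ℝ) - 1) - k ≤ k * s := by linarith
    have hg1 : g ≤ 1 / 2 := by rw [hg, hδ]; norm_num
    have hs0 : (0 : ℝ) ≤ s := by positivity
    have hKk3 : (k : ℝ) ^ 3 ≤ Kmax ^ 3 := pow_le_pow_left₀ hkr.le hkKr 3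
    have hKk2 : (k : ℝ) ^ 2 ≤ Kmax ^ 2 := pow_le_pow_left₀ hkr.le hkKr 2
    have hbase : 0 ≤ (1 - g) * s - 2 * k - 2 * (k : ℝ) ^ 2 := by
      have e1 : k * (2 * (k : ℝ) + 2 * k ^ 2) ≤ k * ((1 / 2) * s) := by
        have : (k : ℝ) * ((1 / 2) * s) ≥ ((2 * (n : ℝ) - 1) - k) / 2 := by linarith
        have h3 : (0 : ℝ) ≤ l := by positivity
        have h4 : (0 : ℝ) ≤ D0 * Kmax := by positivity
        have h5 : (k : ℝ) * (2 * (k : ℝ) + 2 * k ^ 2) = 2 * k ^ 2 + 2 * k ^ 3 := by ring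
        rw [h5]
        have h6 : 2 * (k : ℝ) ^ 2 + 2 * k ^ 3 ≤ 2 * Kmax ^ 2 + 2 * (Kmax : ℝ) ^ 3 := by linarith
        have h7 : (0 : ℝ) ≤ Kmax ^ 2 := by positivity
        have h8 : (0 : ℝ) ≤ (Kmax : ℝ) ^ 3 := by positivity
        linarith
      have e2 := le_of_mul_le_mul_left e1 hkr
      have e3 : (1 / 2 : ℝ) * s ≤ (1 - g) * s := mul_le_mul_of_nonneg_right (by linarith) hs0
      linarith
    have ht1 : (t : ℝ) ≤ ((1 - g) * s - 2 * k - 2 * (k : ℝ) ^ 2) / 2 := by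
      rw [ht]; exact Nat.floor_le (by linarith)
    have ht2 : ((1 - g) * s - 2 * k - 2 * (k : ℝ) ^ 2) / 2 < t + 1 := by
      rw [ht]; exact Nat.lt_floor_add_one _
    have hm1 : 2 * Fintype.card (Fin k) + 2 * Fintype.card (Fin k) ^ 2 ≤ m := by
      rw [Fintype.card_fin]
      have : k ^ 2 ≤ Kmax ^ 2 := Nat.pow_le_pow_left hkK 2
      omega
    have hm2 : m ≤ 2 * D.card * t := by
      have hmr : (2 * m : ℝ) ≤ 3 * n + 1 := by exact_mod_cast hmn
      have e1 : (3 / 4 + δ) * k * ((1 - g) * s - 2 * k - 2 * (k : ℝ) ^ 2 - 2)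
          ≤ D.card * (2 * t) := by
        rcases le_or_gt 0 ((1 - g) * s - 2 * k - 2 * (k : ℝ) ^ 2 - 2) with h0 | h0
        · exact mul_le_mul hD (by linarith) h0 (by positivity)
        · have : (3 / 4 + δ) * k * ((1 - g) * s - 2 * k - 2 * (k : ℝ) ^ 2 - 2) ≤ 0 :=
            mul_nonpos_of_nonneg_of_nonpos (by positivity) h0.le
          have h2 : (0 : ℝ) ≤ D.card * (2 * t) := by positivity
          linarith
      have e2 : (3 / 4 + δ) * k * ((1 - g) * s - 2 * k - 2 * (k : ℝ) ^ 2 - 2)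
          = (3 / 4 + δ) * (1 - g) * (k * s) - (3 / 4 + δ) * (2 * k ^ 2 + 2 * (k : ℝ) ^ 3 + 2 * k) := by
        ring
      have e3 : (3 / 4 + δ / 2) ≤ (3 / 4 + δ) * (1 - g) := by
        rw [hg, hδ]; norm_num
      have e4 : (3 / 4 + δ) ≤ 1 := by rw [hδ]; norm_num
      have e5 : (3 / 4 + δ / 2) * ((2 * (n : ℝ) - 1) - k) ≤ (3 / 4 + δ) * (1 - g) * (k * s) := by
        apply mul_le_mul e3 hsk _ (mul_nonneg (by positivity) (by linarith))
        have : (k : ℝ) ≤ n := by linarith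
        linarith
      have e6 : (3 / 4 + δ) * (2 * k ^ 2 + 2 * (k : ℝ) ^ 3 + 2 * k)
          ≤ 2 * Kmax ^ 2 + 2 * (Kmax : ℝ) ^ 3 + 2 * Kmax := by
        have f1 : (3 / 4 + δ) * (2 * k ^ 2 + 2 * (k : ℝ) ^ 3 + 2 * k)
            ≤ 1 * (2 * k ^ 2 + 2 * (k : ℝ) ^ 3 + 2 * k) :=
          mul_le_mul_of_nonneg_right e4 (by positivity)
        linarith
      have e7 : (3 / 4 + δ / 2) * ((2 * (n : ℝ) - 1) - k)
          = 3 / 2 * n + δ * n - (3 / 4 + δ / 2) * (1 + k) := by ring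
      have e8 : (3 / 4 + δ / 2) * (1 + (k : ℝ)) ≤ 1 + Kmax := by
        have f1 : (3 / 4 + δ / 2) * (1 + (k : ℝ)) ≤ 1 * (1 + k) :=
          mul_le_mul_of_nonneg_right (by rw [hδ]; norm_num) (by positivity)
        linarith
      have h3 : (0 : ℝ) ≤ l := by positivity
      have h4 : (0 : ℝ) ≤ D0 * Kmax := by positivity
      have h7 : (0 : ℝ) ≤ Kmax ^ 2 := by positivity
      have h8 : (0 : ℝ) ≤ (Kmax : ℝ) ^ 3 := by positivity
      have e9 : (m : ℝ) ≤ D.card * (2 * t) := by linarith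
      have e10 : (m : ℝ) ≤ ((2 * D.card * t : ℕ) : ℝ) := by push_cast; linarith
      exact_mod_cast e10
    obtain ⟨w, hw1, hw2, hw3⟩ := closed_walk Γ r p hp (by rw [Fintype.card_fin]; exact hp2) D σ hσ
      hadj hreach t m hodd hm1 hm2
    rw [Fintype.card_fin] at hw3
    have hdle : d ≤ 1 := by rw [hd, hτ, hδ]; norm_num
    have hsbig : D0 ≤ s := by
      have f1 : (k : ℝ) * D0 ≤ k * s := by
        have f2 : (k : ℝ) * D0 ≤ Kmax * D0 :=
          mul_le_mul_of_nonneg_right hkKr hdg0.le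
        have h3 : (0 : ℝ) ≤ l := by positivity
        have h7 : (0 : ℝ) ≤ Kmax ^ 2 := by positivity
        have h8 : (0 : ℝ) ≤ (Kmax : ℝ) ^ 3 := by positivity
        linarith
      exact le_of_mul_le_mul_left f1 hkr
    refine walk_embed B Γ c hcd ε d g hε0 hd0 hdle hg0 (by linarith) (by rw [hε]; linarith) ?_
      hreg1 m (by omega) w hw1 hw2 ?_
    · intro j
      have : (s : ℝ) ≤ (c j).card := by exact_mod_cast (hcs j).1
      rw [← hD0]
      linarith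
    · intro j
      have f1 : (((range m).filter fun i => w i = j).card : ℝ) ≤ 2 * t + 2 * k + 2 * (k : ℝ) ^ 2 := by
        exact_mod_cast hw3 j
      have f2 : (s : ℝ) ≤ (c j).card := by exact_mod_cast (hcs j).1
      have f3 : (1 - g) * (s : ℝ) ≤ (1 - g) * (c j).card :=
        mul_le_mul_of_nonneg_left f2 (by linarith)
      linarith
  · -- two nearly completely joined families
    apply hE
    obtain ⟨A', hA1, hA2, hA3⟩ := hpiece A S hno (x + δ) (by positivity) hA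
    obtain ⟨S', hS1, hS2, hS3⟩ := hpiece S A hno.symm (1 / 2 - x + δ) (by linarith) hS
    have hdis : Disjoint A' S' :=
      Finset.disjoint_of_subset_left hA1 (Finset.disjoint_of_subset_right hS1
        (disjoint_biUnion c hcd A S hAS))
    have hfl : ((⌊τ * n⌋₊ : ℕ) : ℝ) ≤ τ * n := Nat.floor_le (by positivity)
    refine emb_nearly B T hT P hP A' S' hdis ⌊τ * n⌋₊ ?_ ?_ ?_ ?_
    · have e1 : (x + δ) * (2 * (n : ℝ) - 1 - k) = P.card + 2 * (δ * n) - (x + δ) * (1 + k) := by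
        have : (x + δ) * (2 * (n : ℝ) - 1 - k)
          = x * (2 * n) + 2 * (δ * n) - (x + δ) * (1 + k) := by ring
        rw [this, hxn]
      have e2 : (x + δ) * (1 + (k : ℝ)) ≤ 1 + Kmax := by
        have f1 : (x + δ) * (1 + (k : ℝ)) ≤ 1 * (1 + k) :=
          mul_le_mul_of_nonneg_right (by rw [hδ]; linarith) (by positivity)
        linarith
      have e3 : ((P.card + ⌊τ * n⌋₊ : ℕ) : ℝ) ≤ A'.card := by
        push_cast; linarith
      exact_mod_cast e3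
    · rw [Fintype.card_fin]
      have e1 : (1 / 2 - x + δ) * (2 * (n : ℝ) - 1 - k)
          = n - P.card + 2 * (δ * n) - (1 / 2 - x + δ) * (1 + k) := by
        have : (1 / 2 - x + δ) * (2 * (n : ℝ) - 1 - k)
          = n - x * (2 * n) + 2 * (δ * n) - (1 / 2 - x + δ) * (1 + k) := by ring
        rw [this, hxn]
      have e2 : (1 / 2 - x + δ) * (1 + (k : ℝ)) ≤ 1 + Kmax := by
        have f1 : (1 / 2 - x + δ) * (1 + (k : ℝ)) ≤ 1 * (1 + k) :=
          mul_le_mul_of_nonneg_right (by rw [hδ]; linarith) (by positivity)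
        linarith
      have e3 : ((n + ⌊τ * n⌋₊ : ℕ) : ℝ) ≤ ((P.card + S'.card : ℕ) : ℝ) := by
        push_cast; linarith
      exact_mod_cast e3
    · intro a ha
      apply Nat.le_floor
      exact le_trans (by exact_mod_cast card_nb_mono B a hS1) (hA3 a ha)
    · intro a ha
      apply Nat.le_floor
      exact le_trans (by exact_mod_cast card_nb_mono B a hA1) (hS3 a ha)
  · -- near extremal: two red cliques
    apply hE
    obtain ⟨X', hX1, hX2, hX3⟩ := hpiece X X hX (1 / 2 - 3 * δ) (by rw [hδ]; norm_num) hXc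
    obtain ⟨Y', hY1, hY2, hY3⟩ := hpiece Y Y hY (1 / 2 - 3 * δ) (by rw [hδ]; norm_num) hYc
    have hdis : Disjoint X' Y' :=
      Finset.disjoint_of_subset_left hX1 (Finset.disjoint_of_subset_right hY1
        (disjoint_biUnion c hcd X Y hXY))
    have e1 : (1 - gam) * n ≤ (1 / 2 - 3 * δ) * (2 * (n : ℝ) - 1 - k) - τ * n := by
      rw [hτδ, hgam]
      have : (1 / 2 - 3 * δ) * (2 * (n : ℝ) - 1 - k)
        = n - 6 * (δ * n) - (1 / 2 - 3 * δ) * (1 + k) := by ring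
      rw [this]
      have e2 : (1 / 2 - 3 * δ) * (1 + (k : ℝ)) ≤ 1 + Kmax := by
        have f1 : (1 / 2 - 3 * δ) * (1 + (k : ℝ)) ≤ 1 * (1 + k) :=
          mul_le_mul_of_nonneg_right (by linarith) (by positivity)
        linarith
      linarith
    refine h1 n m (by omega) hodd (by omega) hmn B T hT hB X' Y' hdis (e1.trans hX2)
      (e1.trans hY2) ?_ ?_
    · intro a ha
      refine le_trans (by exact_mod_cast card_nb_mono B a hX1) ((hX3 a ha).trans ?_)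
      rw [hτδ, hgam]; linarith
    · intro a ha
      refine le_trans (by exact_mod_cast card_nb_mono B a hY1) ((hY3 a ha).trans ?_)
      rw [hτδ, hgam]; linarith
  · -- near extremal: small class
    apply hE
    obtain ⟨A', hA1, hA2, hA3⟩ := hpiece A S hno (1 / 2 - 3 * δ) (by rw [hδ]; norm_num) hA
    obtain ⟨S', hS1, hS2, hS3⟩ := hpiece S A hno.symm (1 / 2 - 3 * δ) (by rw [hδ]; norm_num) hS
    have hdis : Disjoint A' S' :=
      Finset.disjoint_of_subset_left hA1 (Finset.disjoint_of_subset_right hS1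
        (disjoint_biUnion c hcd A S hAS))
    have e1 : (1 - gam) * n ≤ (1 / 2 - 3 * δ) * (2 * (n : ℝ) - 1 - k) - τ * n := by
      rw [hτδ, hgam]
      have : (1 / 2 - 3 * δ) * (2 * (n : ℝ) - 1 - k)
        = n - 6 * (δ * n) - (1 / 2 - 3 * δ) * (1 + k) := by ring
      rw [this]
      have e2 : (1 / 2 - 3 * δ) * (1 + (k : ℝ)) ≤ 1 + Kmax := by
        have f1 : (1 / 2 - 3 * δ) * (1 + (k : ℝ)) ≤ 1 * (1 + k) :=
          mul_le_mul_of_nonneg_right (by linarith) (by positivity)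
        linarith
      linarith
    refine h2 n m (by omega) hodd (by omega) hmn B T hT hB P hP ?_ A' S' hdis (e1.trans hA2)
      (e1.trans hS2) ?_ ?_
    · rw [← hxn, hgam]
      have : x * (2 * (n : ℝ)) ≤ δ * (2 * n) := mul_le_mul_of_nonneg_right hxδ (by positivity)
      have h0 : 0 ≤ δ * n := by positivity
      linarith
    · intro a ha
      refine le_trans (by exact_mod_cast card_nb_mono B a hS1) ((hA3 a ha).trans ?_)
      rw [hτδ, hgam]; linarith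
    · intro a ha
      refine le_trans (by exact_mod_cast card_nb_mono B a hA1) ((hS3 a ha).trans ?_)
      rw [hτδ, hgam]; linarith
  · -- near extremal: one quarter against three quarters
    apply hE
    obtain ⟨A', hA1, hA2, hA3⟩ := hpiece A S hno (1 / 4 - 4 * δ) (by rw [hδ]; norm_num) hA
    obtain ⟨S', hS1, hS2, hS3⟩ := hpiece S A hno.symm (3 / 4 - 4 * δ) (by rw [hδ]; norm_num) hS
    have hdis : Disjoint A' S' :=
      Finset.disjoint_of_subset_left hA1 (Finset.disjoint_of_subset_right hS1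
        (disjoint_biUnion c hcd A S hAS))
    have e1 : (1 / 2 - gam) * n ≤ (1 / 4 - 4 * δ) * (2 * (n : ℝ) - 1 - k) - τ * n := by
      rw [hτδ, hgam]
      have : (1 / 4 - 4 * δ) * (2 * (n : ℝ) - 1 - k)
        = 1 / 2 * n - 8 * (δ * n) - (1 / 4 - 4 * δ) * (1 + k) := by ring
      rw [this]
      have e2 : (1 / 4 - 4 * δ) * (1 + (k : ℝ)) ≤ 1 + Kmax := by
        have f1 : (1 / 4 - 4 * δ) * (1 + (k : ℝ)) ≤ 1 * (1 + k) :=
          mul_le_mul_of_nonneg_right (by linarith) (by positivity)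
        linarith
      linarith
    have e2 : (3 / 2 - gam) * n ≤ (3 / 4 - 4 * δ) * (2 * (n : ℝ) - 1 - k) - τ * n := by
      rw [hτδ, hgam]
      have : (3 / 4 - 4 * δ) * (2 * (n : ℝ) - 1 - k)
        = 3 / 2 * n - 8 * (δ * n) - (3 / 4 - 4 * δ) * (1 + k) := by ring
      rw [this]
      have e2 : (3 / 4 - 4 * δ) * (1 + (k : ℝ)) ≤ 1 + Kmax := by
        have f1 : (3 / 4 - 4 * δ) * (1 + (k : ℝ)) ≤ 1 * (1 + k) :=
          mul_le_mul_of_nonneg_right (by linarith) (by positivity)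
        linarith
      linarith
    refine h3 n m (by omega) hodd (by omega) hmn B T hT hB P hP hP2 ?_ A' S' hdis (e1.trans hA2)
      (e2.trans hS2) ?_ ?_
    · rw [← hxn, hgam]
      have : (1 / 4 - 3 * δ) * (2 * (n : ℝ)) ≤ x * (2 * n) :=
        mul_le_mul_of_nonneg_right hxδ (by positivity)
      have h0 : 0 ≤ δ * n := by positivity
      linarith
    · intro a ha
      refine le_trans (by exact_mod_cast card_nb_mono B a hS1) ((hA3 a ha).trans ?_)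
      rw [hτδ, hgam]; linarith
    · intro a ha
      refine le_trans (by exact_mod_cast card_nb_mono B a hA1) ((hS3 a ha).trans ?_)
      rw [hτδ, hgam]; linarith

end Pool.Agent.Lib.MP_0e31aa_co.TC
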