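import Pool.Agent.Lib.MP_0e31aa_co.TC.NearComplete
import Pool.Agent.Lib.MP_0e31aa_co.NC3

/-! Paths in nearly complete bipartite graphs (module NB). -/

set_option autoImplicit false

namespace Pool.Agent.Lib.MP_0e31aa_co.TC

open Finset

theorem nearFull_of_nb {V : Type} {B : SimpleGraph V} {X Y : Finset V} {t : ℕ}
    (hXY : Disjoint X Y) (hX : ∀ x ∈ X, (nb Bᶜ x Y).card ≤ t) :
    _root_.TC.NC.NearFull B X Y t := by
  intro v hv S hS hS'
  refine (Finset.card_le_card ?_).trans (hX v hv)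
  intro w hw
  rw [mem_nb, SimpleGraph.compl_adj]
  exact ⟨hS hw, fun he => Finset.disjoint_left.1 hXY hv (he ▸ hS hw), hS' w hw⟩

theorem nb_even {V : Type} [DecidableEq V] (B : SimpleGraph V) (X Y : Finset V)
    (hXY : Disjoint X Y) (t : ℕ) (hX : ∀ x ∈ X, (nb Bᶜ x Y).card ≤ t)
    (hY : ∀ y ∈ Y, (nb Bᶜ y X).card ≤ t) (x y : V) (hx : x ∈ X) (hy : y ∈ Y) (j : ℕ) (hj : 2 ≤ j)
    (h1 : j + 2 * t + 2 ≤ X.card) (h2 : j + 2 * t + 2 ≤ Y.card) :
    Pth B (X ∪ Y) x y (2 * j) := by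
  obtain ⟨l, p1, p2, p3⟩ := _root_.TC.NC.bip_path (nearFull_of_nb hXY hX)
    (nearFull_of_nb hXY.symm hY) hXY j hj hx hy (by omega) (by omega)
  rw [← p2]
  exact pth_of_lpath p1 (fun z hz => Finset.mem_union.2 (p3 z hz))

theorem nb_odd {V : Type} [DecidableEq V] (B : SimpleGraph V) (X Y : Finset V)
    (hXY : Disjoint X Y) (t : ℕ) (hX : ∀ x ∈ X, (nb Bᶜ x Y).card ≤ t)
    (hY : ∀ y ∈ Y, (nb Bᶜ y X).card ≤ t) (x x' : V) (hx : x ∈ X) (hx' : x' ∈ X) (hne : x ≠ x')
    (j : ℕ) (hj : 2 ≤ j) (h1 : j + 2 * t + 3 ≤ X.card) (h2 : j + 2 * t + 3 ≤ Y.card) :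
    Pth B (X ∪ Y) x x' (2 * j + 1) := by
  have f1 := nearFull_of_nb hXY hX
  have f2 := nearFull_of_nb hXY.symm hY
  obtain ⟨y, hyY, -, hxy⟩ := f1.exists_adj hx' ∅ (by simp; omega)
  have hx'Y : x' ∉ Y := fun h => Finset.disjoint_left.1 hXY hx' h
  obtain ⟨l, p1, p2, p3, p4⟩ := _root_.TC.NC.bip_path_avoid f1 f2 hXY j hj x y {x'} hx hyY
    (by simpa using hne) (by simpa using hxy.ne')
    (by
      have h3 : ({x'} ∩ X : Finset V).card ≤ 1 := by
        exact (Finset.card_le_card Finset.inter_subset_left).trans (by simp)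
      omega)
    (by
      have h3 : ({x'} ∩ Y : Finset V) = ∅ := by
        ext z; simp only [Finset.mem_inter, Finset.mem_singleton, Finset.notMem_empty,
          iff_false, not_and]
        rintro rfl; exact hx'Y
      rw [h3]; simp; omega)
  have hxl : x' ∉ l := fun h => p4 x' h (by simp)
  have q := (p1.reverse.cons hxy (by simpa using hxl)).reverse
  have hlen : (x' :: l.reverse).reverse.length = 2 * j + 1 := by simp [p2]
  rw [← hlen]
  refine pth_of_lpath q (fun z hz => ?_)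
  rw [List.mem_reverse, List.mem_cons, List.mem_reverse] at hz
  rcases hz with rfl | hz
  · exact Finset.mem_union_left _ hx'
  · exact Finset.mem_union.2 (p3 z hz)

end Pool.Agent.Lib.MP_0e31aa_co.TC
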