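import Pool.Agent.Lib.MP_0e31aa_co.TC.Defs
import Pool.Agent.Lib.MP_0e31aa_co.NC2

/-! Paths and cycles in nearly complete graphs (module NC). -/

set_option autoImplicit false

namespace Pool.Agent.Lib.MP_0e31aa_co.TC

open Finset

theorem pth_of_lpath {V : Type} {G : SimpleGraph V} {a b : V} {l : List V} {U : Finset V}
    (h : _root_.TC.NC.LPath G a b l) (hU : ∀ x ∈ l, x ∈ U) : Pth G U a b l.length := by
  have hne : l ≠ [] := by
    rintro rfl
    simpa using h.head
  refine ⟨l, rfl, h.chain, h.nodup, hU, hne, ?_, ?_⟩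
  · have := h.head
    rw [List.head?_eq_some_head hne] at this
    simpa using this
  · have := h.last
    rw [List.getLast?_eq_getLast_of_ne_nil hne] at this
    simpa using this

theorem hasCyc_of_lcycle {V : Type} {G : SimpleGraph V} {l : List V}
    (h : _root_.TC.NC.LCycle G l) : HasCyc G l.length := by
  have hne : l ≠ [] := by
    rintro rfl
    have := h.len
    simp at this
  refine ⟨l, rfl, h.chain, h.nodup, hne, ?_⟩
  exact h.close _ _ (List.head?_eq_some_head hne) (List.getLast?_eq_getLast_of_ne_nil hne)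

theorem lcycle_of_hasCyc {V : Type} {G : SimpleGraph V} {m : ℕ} (h : HasCyc G m) (hm : 3 ≤ m) :
    ∃ l, _root_.TC.NC.LCycle G l ∧ l.length = m := by
  obtain ⟨l, h1, h2, h3, h4, h5⟩ := h
  refine ⟨l, ⟨h3, h2, by omega, ?_⟩, h1⟩
  intro a b ha hb
  rw [List.head?_eq_some_head h4] at ha
  rw [List.getLast?_eq_getLast_of_ne_nil h4] at hb
  cases ha; cases hb; exact h5

theorem nearComplete_of_nb {V : Type} {B : SimpleGraph V} {U : Finset V} {t : ℕ}
    (hU : ∀ u ∈ U, (nb Bᶜ u U).card ≤ t) : _root_.TC.NC.NearComplete B U t := by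
  intro v hv S hS hvS hS'
  refine (Finset.card_le_card ?_).trans (hU v hv)
  intro w hw
  rw [mem_nb, SimpleGraph.compl_adj]
  exact ⟨hS hw, fun he => hvS (he ▸ hw), hS' w hw⟩

theorem nc_path {V : Type} [DecidableEq V] (B : SimpleGraph V) (U : Finset V) (t : ℕ)
    (hU : ∀ u ∈ U, (nb Bᶜ u U).card ≤ t) (hM : 5 * t + 5 ≤ U.card) (a b : V) (ha : a ∈ U)
    (hb : b ∈ U) (hab : a ≠ b) (l : ℕ) (hl : 3 ≤ l) (hl2 : l ≤ U.card) : Pth B U a b l := by
  obtain ⟨l', h1, h2, h3⟩ := _root_.TC.NC.path_all (nearComplete_of_nb hU) (by omega) ha hb hab l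
    hl hl2
  rw [← h2]
  exact pth_of_lpath h1 h3

theorem nc_cycle {V : Type} [DecidableEq V] (B : SimpleGraph V) (U : Finset V) (t : ℕ)
    (hU : ∀ u ∈ U, (nb Bᶜ u U).card ≤ t) (hM : 5 * t + 5 ≤ U.card) (m : ℕ) (hm : 3 ≤ m)
    (hm2 : m ≤ U.card) : HasCyc B m := by
  obtain ⟨l', h1, h2⟩ := _root_.TC.NC.cycle_all (nearComplete_of_nb hU) (by omega) m hm hm2
  rw [← h2]
  exact hasCyc_of_lcycle h1

end Pool.Agent.Lib.MP_0e31aa_co.TC
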